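import Pool.Agent.H923Z.GRBasic
import Pool.Agent.H304Z.Pair
import Pool.Agent.H304Z.NH.Spec

/-!
The group `EL_3(R)` over a Leavitt type algebra `R`, with its compressing endomorphism.
-/

set_option autoImplicit false
set_option linter.unusedSectionVars false
set_option maxHeartbeats 400000

namespace Pool.Agent.H923Z.GR

open Matrix Pool.Agent.H304Z

theorem n01 : (0 : Fin 3) ≠ 1 := by decide
theorem n02 : (0 : Fin 3) ≠ 2 := by decide
theorem n10 : (1 : Fin 3) ≠ 0 := by decide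
theorem n12 : (1 : Fin 3) ≠ 2 := by decide
theorem n20 : (2 : Fin 3) ≠ 0 := by decide
theorem n21 : (2 : Fin 3) ≠ 1 := by decide

/-- Leavitt data -/
structure Lv (F R : Type) [Field F] [Ring R] [Algebra F R] where
  s0 : R
  s1 : R
  t0 : R
  t1 : R
  h00 : t0 * s0 = 1
  h11 : t1 * s1 = 1
  h01 : t0 * s1 = 0
  h10 : t1 * s0 = 0
  hs : s0 * t0 + s1 * t1 = 1
  gen : Algebra.adjoin F {s0, s1, t0, t1} = ⊤
  two : ∀ x : R, x + x = 0

variable {F R : Type} [Field F] [Ring R] [Algebra F R] (D : Lv F R)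

theorem all_of_01 (L : Subgroup (M R)ˣ) (h01 : e n01 (1 : R) ∈ L) (h12 : e n12 (1 : R) ∈ L)
    (h20 : e n20 (1 : R) ∈ L) {r : R} (hr : e n01 r ∈ L ∨ e n02 r ∈ L) {i j : Fin 3}
    (h : i ≠ j) : e h r ∈ L := by
  have h02 : e n02 (1 : R) ∈ L := by simpa using e_mem n01 n12 n02 L h01 h12
  have h10 : e n10 (1 : R) ∈ L := by simpa using e_mem n12 n20 n10 L h12 h20
  have h21 : e n21 (1 : R) ∈ L := by simpa using e_mem n20 n01 n21 L h20 h01
  have r01 : e n01 r ∈ L := by
    rcases hr with hr | hr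
    · exact hr
    · simpa using e_mem n02 n21 n01 L hr h21
  have r02 : e n02 r ∈ L := by simpa using e_mem n01 n12 n02 L r01 h12
  have r21 : e n21 r ∈ L := by simpa using e_mem n20 n01 n21 L h20 r01
  have r12 : e n12 r ∈ L := by simpa using e_mem n10 n02 n12 L h10 r02
  have r20 : e n20 r ∈ L := by simpa using e_mem n21 n10 n20 L r21 h10
  have r10 : e n10 r ∈ L := by simpa using e_mem n12 n20 n10 L r12 h20
  fin_cases i <;> fin_cases j <;> first | exact absurd rfl h | assumption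

/-- row index of a line -/
def ri : Fin 7 → Fin 3 := ![0, 0, 0, 0, 0, 1, 2]

/-- column index of a line -/
def ci : Fin 7 → Fin 3 := ![1, 1, 1, 1, 1, 2, 0]

theorem rc_ne (i : Fin 7) : ri i ≠ ci i := by revert i; decide

/-- coefficient of a line -/
def co : Fin 7 → R := ![1, D.s0, D.s1, D.t0, D.t1, 1, 1]

/-- the seven lines -/
def ln (i : Fin 7) (a : F) : (M R)ˣ := e (rc_ne i) (a • co D i)

/-- the group -/
def GG : Subgroup (M R)ˣ := Subgroup.closure {g | ∃ i a, g = ln D i a}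

theorem ln_mem (i : Fin 7) (a : F) : ln D i a ∈ GG D := Subgroup.subset_closure ⟨i, a, rfl⟩

theorem ln_mem1 (i : Fin 7) : e (rc_ne i) (co D i) ∈ GG D := by
  have := ln_mem D i 1
  rwa [ln, one_smul] at this

theorem e_memG {i j : Fin 3} (h : i ≠ j) (r : R) : e h r ∈ GG D := by
  have h01 : e n01 (1 : R) ∈ GG D := ln_mem1 D 0
  have h12 : e n12 (1 : R) ∈ GG D := ln_mem1 D 5
  have h20 : e n20 (1 : R) ∈ GG D := ln_mem1 D 6
  let P : Subalgebra F R :=
    { carrier := {r | e n01 r ∈ GG D}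
      mul_mem' := fun {a b} ha hb =>
        all_of_01 _ h01 h12 h20 (Or.inr (e_mem n01 n12 n02 _ ha
          (all_of_01 _ h01 h12 h20 (Or.inl hb) n12))) n01
      add_mem' := fun {a b} ha hb => by
        change e n01 (a + b) ∈ GG D
        rw [e_add]
        exact mul_mem ha hb
      algebraMap_mem' := fun a => by
        change e n01 (algebraMap F R a) ∈ GG D
        rw [Algebra.algebraMap_eq_smul_one]
        exact ln_mem D 0 a }
  have hP : Algebra.adjoin F {D.s0, D.s1, D.t0, D.t1} ≤ P := by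
    apply Algebra.adjoin_le
    intro x hx
    change e n01 x ∈ GG D
    simp only [Set.mem_insert_iff, Set.mem_singleton_iff] at hx
    rcases hx with rfl | rfl | rfl | rfl
    · exact ln_mem1 D 1
    · exact ln_mem1 D 2
    · exact ln_mem1 D 3
    · exact ln_mem1 D 4
  rw [D.gen] at hP
  exact all_of_01 _ h01 h12 h20 (Or.inl (hP (Algebra.mem_top : r ∈ ⊤))) h

theorem GG_le (L : Subgroup (M R)ˣ) (h : ∀ (i j : Fin 3) (hij : i ≠ j) (r : R), e hij r ∈ L) :
    GG D ≤ L := by
  rw [GG, Subgroup.closure_le]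
  rintro g ⟨i, a, rfl⟩
  exact h _ _ (rc_ne i) _

/-- elementary matrices as elements of the group -/
def eG {i j : Fin 3} (h : i ≠ j) (r : R) : GG D := ⟨e h r, e_memG D h r⟩

theorem eq_top_of (L : Subgroup (GG D))
    (h : ∀ (i j : Fin 3) (hij : i ≠ j) (r : R), eG D hij r ∈ L) : L = ⊤ := by
  rw [eq_top_iff]
  intro g _
  have : GG D ≤ L.map (GG D).subtype :=
    GG_le D _ fun i j hij r => ⟨eG D hij r, h i j hij r, rfl⟩
  obtain ⟨g', hg', e⟩ := this g.2
  have : g' = g := Subtype.ext e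
  rwa [← this]

theorem eG_add {i j : Fin 3} (h : i ≠ j) (r s : R) : eG D h (r + s) = eG D h r * eG D h s :=
  Subtype.ext (e_add h r s)

theorem eG_mem {i j k : Fin 3} (hij : i ≠ j) (hjk : j ≠ k) (hik : i ≠ k) (L : Subgroup (GG D))
    {r s : R} (hr : eG D hij r ∈ L) (hs : eG D hjk s ∈ L) : eG D hik (r * s) ∈ L := by
  have h : eG D hij r * eG D hjk s = eG D hjk s * (eG D hij r * eG D hik (r * s)) :=
    Subtype.ext (e_heis hij hjk hik r s)
  have : eG D hik (r * s) = (eG D hij r)⁻¹ * ((eG D hjk s)⁻¹ * (eG D hij r * eG D hjk s)) := by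
    rw [h]; group
  rw [this]
  exact L.mul_mem (L.inv_mem hr) (L.mul_mem (L.inv_mem hs) (L.mul_mem hr hs))

/-! ### property (T) -/

/-- the lines inside the group -/
def uG (i : Fin 7) (a : F) : GG D := ⟨ln D i a, ln_mem D i a⟩

theorem uG_gen : Subgroup.closure {g | ∃ i a, g = uG D i a} = ⊤ := by
  have := Subgroup.closure_closure_coe_preimage (k := {g : (M R)ˣ | ∃ i a, g = ln D i a})
  rw [eq_top_iff]
  refine this.ge.trans (Subgroup.closure_mono ?_)
  rintro g ⟨i, a, hg⟩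
  exact ⟨i, a, Subtype.ext hg⟩

theorem uG_add (i : Fin 7) (a b : F) : uG D i (a + b) = uG D i a * uG D i b := by
  apply Subtype.ext
  change ln D i (a + b) = ln D i a * ln D i b
  rw [ln, ln, ln, add_smul, e_add]

theorem pair_heis {i j k : Fin 3} (hij : i ≠ j) (hjk : j ≠ k) (hik : i ≠ k) (p q : R) :
    HP2 (fun a : F => eG D hij (a • p)) (fun a : F => eG D hjk (a • q)) := by
  refine HP2.of_heis (fun c : F => eG D hik (c • (p * q))) ?_ ?_ ?_ ?_
  · intro c d
    rw [add_smul, eG_add]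
  · intro a b
    rw [← smul_mul_smul_comm]
    exact Subtype.ext (e_heis hij hjk hik _ _)
  · intro c b
    exact Subtype.ext (e_comm hik hij hik.symm hij.symm _ _)
  · intro c b
    exact Subtype.ext (e_comm hik hjk hjk.symm hik.symm _ _)

theorem pair_gen {i j k l : Fin 3} (hij : i ≠ j) (hkl : k ≠ l)
    (h : (j ≠ k ∧ l ≠ i) ∨ (j = k ∧ i ≠ l)) (p q : R) :
    HP2 (fun a : F => eG D hij (a • p)) (fun a : F => eG D hkl (a • q)) := by
  rcases h with ⟨h1, h2⟩ | ⟨rfl, h2⟩
  · exact HP2.of_comm fun _ _ => Subtype.ext (e_comm hij hkl h1 h2 _ _)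
  · exact pair_heis D hij hkl h2 p q

theorem uG_eq (i : Fin 7) : uG D i = fun a : F => eG D (rc_ne i) (a • co D i) := rfl

theorem uG_pair (i j : Fin 7) (_ : i ≠ j) :
    HP2 (uG D i) (uG D j) ∨ HP2 (uG D j) (uG D i) := by
  have : ((ci i ≠ ri j ∧ ci j ≠ ri i) ∨ (ci i = ri j ∧ ri i ≠ ci j)) ∨
      ((ci j ≠ ri i ∧ ci i ≠ ri j) ∨ (ci j = ri i ∧ ri j ≠ ci i)) := by
    clear * -
    revert i j
    decide
  rw [uG_eq, uG_eq]
  rcases this with h | h
  · exact Or.inl (pair_gen D _ _ h _ _)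
  · exact Or.inr (pair_gen D _ _ h _ _)

theorem kaz [Fintype F] (hF : 512 ≤ Fintype.card F) :
    ∃ S : Finset (GG D), NH.Kaz (GG D) S ∧ Subgroup.closure (S : Set (GG D)) = ⊤ := by
  classical
  obtain ⟨S, ε, hε, h⟩ := propT_lines2 hF (n := 7) (by norm_num) (by norm_num) (uG D) (uG_add D)
    (uG_pair D) (uG_gen D)
  refine ⟨S ∪ (Finset.univ : Finset (Fin 7 × F)).image (fun q => uG D q.1 q.2), ⟨ε, hε, ?_⟩, ?_⟩
  · intro E _ _ _ π hπ ⟨v, hv, hs⟩
    exact h E π hπ ⟨v, hv, fun s hs' => hs s (Finset.mem_union_left _ hs')⟩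
  · rw [eq_top_iff, ← uG_gen D]
    apply Subgroup.closure_mono
    rintro g ⟨i, a, rfl⟩
    simp only [Finset.coe_union, Finset.coe_image, Finset.coe_univ, Set.image_univ,
      Set.mem_union, Set.mem_range]
    exact Or.inr ⟨(i, a), rfl⟩

/-! ### the endomorphism -/

/-- the corner embedding on matrices -/
def Th : M R →* M R where
  toFun m := diagonal (fun _ => D.s0) * m * diagonal (fun _ => D.t0) +
    diagonal (fun _ => D.s1 * D.t1)
  map_one' := by
    rw [mul_one, diagonal_mul_diagonal, diagonal_add]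
    simp only [D.hs, diagonal_one]
  map_mul' m n := by
    have e1 : diagonal (fun _ : Fin 3 => D.t0) * diagonal (fun _ => D.s0) = (1 : M R) := by
      rw [diagonal_mul_diagonal]; simp only [D.h00, diagonal_one]
    have e2 : diagonal (fun _ : Fin 3 => D.t0) * diagonal (fun _ => D.s1 * D.t1) = (0 : M R) := by
      rw [diagonal_mul_diagonal]; simp only [← mul_assoc, D.h01, zero_mul, diagonal_zero]
    have e3 : diagonal (fun _ : Fin 3 => D.s1 * D.t1) * diagonal (fun _ => D.s0) = (0 : M R) := by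
      rw [diagonal_mul_diagonal]; simp only [mul_assoc, D.h10, mul_zero, diagonal_zero]
    have e4 : diagonal (fun _ : Fin 3 => D.s1 * D.t1) * diagonal (fun _ => D.s1 * D.t1) =
        (diagonal (fun _ => D.s1 * D.t1) : M R) := by
      rw [diagonal_mul_diagonal]
      simp only [mul_assoc, ← mul_assoc D.t1 D.s1, D.h11, one_mul]
    set S := (diagonal (fun _ : Fin 3 => D.s0) : M R)
    set T := (diagonal (fun _ : Fin 3 => D.t0) : M R)
    set P := (diagonal (fun _ : Fin 3 => D.s1 * D.t1) : M R)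
    calc S * (m * n) * T + P = S * m * (T * S) * n * T + S * m * (T * P) + (P * S) * n * T + P * P := by
          rw [e1, e2, e3, e4]; simp [mul_assoc]
      _ = _ := by simp only [mul_add, add_mul, mul_assoc]; abel

theorem Th_e {i j : Fin 3} (h : i ≠ j) (r : R) :
    Units.map (Th D) (e h r) = e h (D.s0 * r * D.t0) := by
  apply Units.ext
  change diagonal (fun _ => D.s0) * (1 + single i j r) * diagonal (fun _ => D.t0) +
    diagonal (fun _ => D.s1 * D.t1) = 1 + single i j (D.s0 * r * D.t0)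
  have e1 : diagonal (fun _ => D.s0) * single i j r * diagonal (fun _ => D.t0) =
      single i j (D.s0 * r * D.t0) := by
    ext a b
    rw [mul_diagonal, diagonal_mul]
    simp only [single_apply]
    split_ifs <;> simp
  have e2 := (Th D).map_one
  change diagonal (fun _ => D.s0) * 1 * diagonal (fun _ => D.t0) +
    diagonal (fun _ => D.s1 * D.t1) = (1 : M R) at e2
  rw [mul_add, add_mul, e1, add_right_comm, e2]

/-- the endomorphism of the group -/
def θ : GG D →* GG D :=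
  ((Units.map (Th D)).comp (GG D).subtype).codRestrict (GG D) fun g => by
    have : GG D ≤ (GG D).comap (Units.map (Th D)) := GG_le D _ fun i j hij r => by
      rw [Subgroup.mem_comap, Th_e]
      exact e_memG D _ _
    exact this g.2

theorem θ_e {i j : Fin 3} (h : i ≠ j) (r : R) : θ D (eG D h r) = eG D h (D.s0 * r * D.t0) :=
  Subtype.ext (Th_e D h r)

/-! ### the compressor -/

theorem ne_succ (i : Fin 3) : i ≠ i + 1 := by revert i; decide

/-- the piece of the compressor acting on the cylinders `i0` and `(i+1)1` -/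
def tau (i : Fin 3) : (M R)ˣ :=
  sw (ne_succ i) (D.s0 * D.s0) (D.t0 * D.t0) D.s1 D.t1 * sw (ne_succ i) D.s0 D.t0 D.s1 D.t1

theorem h0000 : D.t0 * D.t0 * (D.s0 * D.s0) = 1 := by
  rw [mul_assoc, ← mul_assoc D.t0 D.s0, D.h00, one_mul, D.h00]

theorem tau_mv (i : Fin 3) : Mv (tau D i) i D.s0 D.t0 i (D.s0 * D.s0) (D.t0 * D.t0) :=
  (sw_mv D.two (ne_succ i) D.h00 D.h11).comp (sw_mv' D.two (ne_succ i) (h0000 D) D.h11)

theorem tau_mv' (i : Fin 3) :
    Mv (tau D i) (i + 1) (D.s1 * D.s1) (D.t1 * D.t1) i (D.s0 * D.s1) (D.t1 * D.t0) := by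
  refine ((sw_mv' D.two (ne_succ i) D.h00 D.h11).refine D.s1 D.t1).comp
    (sw_fix D.two (ne_succ i) (h0000 D) D.h11 _ _ _ (fun _ => ⟨?_, ?_⟩)
      (fun h => absurd h (ne_succ i)))
  · rw [mul_assoc, ← mul_assoc D.t0 D.s0, D.h00, one_mul, D.h01]
  · rw [mul_assoc, ← mul_assoc D.t0 D.s0, D.h00, one_mul, D.h10]

theorem tau_fix0 (i l : Fin 3) (h : l ≠ i) (c d : R) :
    Mv (tau D i) l (D.s0 * c) (d * D.t0) l (D.s0 * c) (d * D.t0) := by
  have e1 : D.t1 * (D.s0 * c) = 0 ∧ d * D.t0 * D.s1 = 0 :=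
    ⟨by rw [← mul_assoc, D.h10, zero_mul], by rw [mul_assoc, D.h01, mul_zero]⟩
  exact (sw_fix D.two (ne_succ i) D.h00 D.h11 _ _ _ (fun h' => absurd h' h) (fun _ => e1)).comp
    (sw_fix D.two (ne_succ i) (h0000 D) D.h11 _ _ _ (fun h' => absurd h' h) (fun _ => e1))

theorem tau_fix1 (i l : Fin 3) (h : l ≠ i + 1) (c d : R) :
    Mv (tau D i) l (D.s1 * c) (d * D.t1) l (D.s1 * c) (d * D.t1) := by
  have e1 : D.t0 * (D.s1 * c) = 0 ∧ d * D.t1 * D.s0 = 0 :=
    ⟨by rw [← mul_assoc, D.h01, zero_mul], by rw [mul_assoc, D.h10, mul_zero]⟩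
  have e2 : D.t0 * D.t0 * (D.s1 * c) = 0 ∧ d * D.t1 * (D.s0 * D.s0) = 0 :=
    ⟨by rw [mul_assoc, e1.1, mul_zero], by rw [← mul_assoc, e1.2, zero_mul]⟩
  exact (sw_fix D.two (ne_succ i) D.h00 D.h11 _ _ _ (fun _ => e1) (fun h' => absurd h' h)).comp
    (sw_fix D.two (ne_succ i) (h0000 D) D.h11 _ _ _ (fun _ => e2) (fun h' => absurd h' h))

theorem tau_fix0' (i l : Fin 3) (h : l ≠ i) : Mv (tau D i) l D.s0 D.t0 l D.s0 D.t0 := by
  simpa using tau_fix0 D i l h 1 1

/-- the compressor -/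
def tt : (M R)ˣ := tau D 2 * (tau D 1 * tau D 0)

theorem tt_mv (i : Fin 3) : Mv (tt D) i D.s0 D.t0 i (D.s0 * D.s0) (D.t0 * D.t0) := by
  fin_cases i
  · exact ((tau_mv D 0).comp (tau_fix0 D 1 0 n01 _ _)).comp (tau_fix0 D 2 0 n02 _ _)
  · exact ((tau_fix0' D 0 1 n10).comp (tau_mv D 1)).comp (tau_fix0 D 2 1 n12 _ _)
  · exact ((tau_fix0' D 0 2 n20).comp (tau_fix0' D 1 2 n21)).comp (tau_mv D 2)

theorem tt_mv' (i : Fin 3) :
    Mv (tt D) (i + 1) (D.s1 * D.s1) (D.t1 * D.t1) i (D.s0 * D.s1) (D.t1 * D.t0) := by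
  fin_cases i
  · exact ((tau_mv' D 0).comp (tau_fix0 D 1 0 n01 _ _)).comp (tau_fix0 D 2 0 n02 _ _)
  · exact ((tau_fix1 D 0 2 n21 _ _).comp (tau_mv' D 1)).comp (tau_fix0 D 2 1 n12 _ _)
  · exact ((tau_fix1 D 0 0 n01 _ _).comp (tau_fix1 D 1 0 n02 _ _)).comp (tau_mv' D 2)

theorem sw_mem {i j : Fin 3} (h : i ≠ j) (a b a' b' : R) : sw h a b a' b' ∈ GG D :=
  mul_mem (mul_mem (e_memG D _ _) (e_memG D _ _)) (e_memG D _ _)

theorem tau_mem (i : Fin 3) : tau D i ∈ GG D := mul_mem (sw_mem D _ _ _ _ _) (sw_mem D _ _ _ _ _)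

/-- the compressor in the group -/
def tG : GG D := ⟨tt D, mul_mem (tau_mem D 2) (mul_mem (tau_mem D 1) (tau_mem D 0))⟩

theorem tG_conj (g : GG D) : tG D * θ D g * (tG D)⁻¹ = θ D (θ D g) := by
  have : ((MulAut.conj (tG D)).toMonoidHom.comp (θ D)).eqLocus ((θ D).comp (θ D)) = ⊤ := by
    apply eq_top_of
    intro i j hij r
    change tG D * θ D (eG D hij r) * (tG D)⁻¹ = θ D (θ D (eG D hij r))
    rw [θ_e, θ_e]
    apply Subtype.ext
    have := (tt_mv D i).conj (tt_mv D j) hij hij r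
    simp only [← mul_assoc] at this ⊢
    exact this
  have h : g ∈ ((MulAut.conj (tG D)).toMonoidHom.comp (θ D)).eqLocus ((θ D).comp (θ D)) := by
    rw [this]; trivial
  exact h

theorem comm_of_gen (φ : GG D →* GG D) (x : GG D)
    (h : ∀ (i j : Fin 3) (hij : i ≠ j) (r : R), x * φ (eG D hij r) = φ (eG D hij r) * x)
    (g : GG D) : x * φ g = φ g * x := by
  have : (Subgroup.centralizer {x}).comap φ = ⊤ := by
    apply eq_top_of
    intro i j hij r
    rw [Subgroup.mem_comap, Subgroup.mem_centralizer_iff]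
    rintro y rfl
    exact h i j hij r
  have h1 : g ∈ (Subgroup.centralizer {x}).comap φ := by rw [this]; trivial
  rw [Subgroup.mem_comap, Subgroup.mem_centralizer_iff] at h1
  exact h1 x rfl

/-- the commuting element -/
def cG : GG D := θ D (eG D n01 (D.s1 * D.t1))

theorem comm11 {i j : Fin 3} (h : i ≠ j) (r : R) (g : GG D) :
    eG D h (D.s1 * r * D.t1) * θ D g = θ D g * eG D h (D.s1 * r * D.t1) := by
  refine comm_of_gen D (θ D) _ (fun k l hkl r' => ?_) g
  rw [θ_e]
  refine Subtype.ext (e_comm' h hkl _ _ ?_ ?_)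
  · calc D.s1 * r * D.t1 * (D.s0 * r' * D.t0) = D.s1 * r * (D.t1 * D.s0) * r' * D.t0 := by
          simp only [mul_assoc]
      _ = 0 := by rw [D.h10]; simp
  · calc D.s0 * r' * D.t0 * (D.s1 * r * D.t1) = D.s0 * r' * (D.t0 * D.s1) * r * D.t1 := by
          simp only [mul_assoc]
      _ = 0 := by rw [D.h01]; simp

theorem cG_comm (g : GG D) :
    cG D * (tG D * θ D g * (tG D)⁻¹) = (tG D * θ D g * (tG D)⁻¹) * cG D := by
  rw [tG_conj, cG, ← map_mul, ← map_mul]
  congr 1
  simpa using comm11 D n01 1 g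

theorem pow_inj [Nontrivial R] {k l : ℕ} (h : D.s0 ^ k * D.s1 = D.s0 ^ l * D.s1) : k = l := by
  induction k generalizing l with
  | zero =>
    cases l with
    | zero => rfl
    | succ l =>
      exfalso
      have := congrArg (fun x => D.t1 * x) h
      simp only [pow_zero, one_mul, pow_succ', mul_assoc, ← mul_assoc D.t1 D.s0, D.h10, D.h11,
        zero_mul] at this
      exact one_ne_zero this
  | succ k ih =>
    cases l with
    | zero =>
      exfalso
      have := congrArg (fun x => D.t1 * x) h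
      simp only [pow_zero, one_mul, pow_succ', mul_assoc, ← mul_assoc D.t1 D.s0, D.h10, D.h11,
        zero_mul] at this
      exact one_ne_zero this.symm
    | succ l =>
      have := congrArg (fun x => D.t0 * x) h
      simp only [pow_succ', mul_assoc, ← mul_assoc D.t0 D.s0, D.h00, one_mul] at this
      rw [ih this]

theorem conj_infinite [Nontrivial R] :
    (Set.range fun g => θ D g * cG D * (θ D g)⁻¹).Infinite := by
  have key : ∀ x : R, θ D (eG D n20 x) * cG D * (θ D (eG D n20 x))⁻¹ =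
      cG D * eG D n21 (D.s0 * (x * (D.s1 * D.t1)) * D.t0) := by
    intro x
    rw [← θ_e, cG, ← map_inv, ← map_mul, ← map_mul, ← map_mul]
    congr 1
    have h1 : eG D n20 x * eG D n01 (D.s1 * D.t1) =
        eG D n01 (D.s1 * D.t1) * (eG D n20 x * eG D n21 (x * (D.s1 * D.t1))) :=
      Subtype.ext (e_heis n20 n01 n21 _ _)
    have h2 : eG D n20 x * eG D n21 (x * (D.s1 * D.t1)) =
        eG D n21 (x * (D.s1 * D.t1)) * eG D n20 x :=
      Subtype.ext (e_comm n20 n21 n02 n12 _ _)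
    rw [h1, h2]; group
  refine Set.infinite_of_injective_forall_mem
    (f := fun k : ℕ => cG D * eG D n21 (D.s0 * (D.s0 ^ k * (D.s1 * D.t1)) * D.t0)) ?_ ?_
  · intro k l hkl
    have h1 := mul_left_cancel hkl
    have h2 := congrArg (fun g : GG D => (((g : (M R)ˣ) : M R)) 2 1) h1
    simp only [eG, e_val, Matrix.add_apply, single_apply_same, add_right_inj] at h2
    have h3 := congrArg (fun x => D.t0 * x * D.s0 * D.s1) h2
    simp only [mul_assoc, ← mul_assoc D.t0 D.s0, D.h00, D.h11, one_mul, mul_one] at h3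
    exact pow_inj D h3
  · intro k
    exact ⟨eG D n20 (D.s0 ^ k), key _⟩

theorem compress_gen :
    Subgroup.closure {r : GG D | ∀ g, ∃ g', r * θ D g * r⁻¹ = θ D g'} = ⊤ := by
  set C := Subgroup.closure {r : GG D | ∀ g, ∃ g', r * θ D g * r⁻¹ = θ D g'} with hC
  have h00 : ∀ {i j : Fin 3} (h : i ≠ j) (r : R), eG D h (D.s0 * r * D.t0) ∈ C := by
    intro i j h r
    rw [← θ_e]
    exact Subgroup.subset_closure fun g => ⟨eG D h r * g * (eG D h r)⁻¹, by simp⟩
  have h11 : ∀ {i j : Fin 3} (h : i ≠ j) (r : R), eG D h (D.s1 * r * D.t1) ∈ C := by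
    intro i j h r
    exact Subgroup.subset_closure fun g => ⟨g, by rw [comm11]; simp⟩
  have ht : tG D ∈ C := Subgroup.subset_closure fun g => ⟨θ D g, tG_conj D g⟩
  have back : ∀ x y : GG D, tG D * x * (tG D)⁻¹ = y → y ∈ C → x ∈ C := by
    intro x y hxy hy
    have : x = (tG D)⁻¹ * y * tG D := by rw [← hxy]; group
    rw [this]
    exact mul_mem (mul_mem (inv_mem ht) hy) ht
  have ne2 : ∀ i : Fin 3, i ≠ i + 1 + 1 := by decide
  have ne12 : ∀ i : Fin 3, i + 1 ≠ i + 1 + 1 := by decide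
  have a1 : ∀ (i : Fin 3) (r : R), eG D (ne2 i) (D.s0 * r * (D.t1 * D.t1)) ∈ C := by
    intro i r
    refine back _ (eG D (ne_succ i) (D.s0 * D.s0 * r * (D.t1 * D.t0))) ?_ ?_
    · exact Subtype.ext ((tt_mv D i).conj (tt_mv' D (i + 1)) (ne2 i) (ne_succ i) r)
    · have := h00 (ne_succ i) (D.s0 * r * D.t1)
      simpa only [mul_assoc] using this
  have a2 : ∀ (i : Fin 3) (r : R), eG D (ne_succ i) (D.s0 * r * D.t1) ∈ C := by
    intro i r
    have := eG_mem D (ne2 i) (ne12 i).symm (ne_succ i) C (a1 i r) (h11 _ D.s1)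
    simpa only [mul_assoc, ← mul_assoc D.t1 D.s1, D.h11, one_mul] using this
  have a3 : ∀ (i : Fin 3) (r : R), eG D (ne2 i) (D.s0 * r * D.t1) ∈ C := by
    intro i r
    have := eG_mem D (ne_succ i) (ne12 i) (ne2 i) C (a2 i r) (h11 _ 1)
    simpa only [mul_assoc, ← mul_assoc D.t1 D.s1, D.h11, one_mul] using this
  have b1 : ∀ (i : Fin 3) (r : R), eG D (ne2 i).symm (D.s1 * D.s1 * r * D.t0) ∈ C := by
    intro i r
    refine back _ (eG D (ne_succ i).symm (D.s0 * D.s1 * r * (D.t0 * D.t0))) ?_ ?_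
    · exact Subtype.ext ((tt_mv' D (i + 1)).conj (tt_mv D i) (ne2 i).symm (ne_succ i).symm r)
    · have := h00 (ne_succ i).symm (D.s1 * r * D.t0)
      simpa only [mul_assoc] using this
  have b2 : ∀ (i : Fin 3) (r : R), eG D (ne_succ i).symm (D.s1 * r * D.t0) ∈ C := by
    intro i r
    have := eG_mem D (ne12 i) (ne2 i).symm (ne_succ i).symm C (h11 _ D.t1) (b1 i r)
    simpa only [mul_assoc, ← mul_assoc D.t1 D.s1, D.h11, one_mul] using this
  have b3 : ∀ (i : Fin 3) (r : R), eG D (ne2 i).symm (D.s1 * r * D.t0) ∈ C := by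
    intro i r
    have := eG_mem D (ne12 i).symm (ne_succ i).symm (ne2 i).symm C (h11 _ 1) (b2 i r)
    simpa only [mul_assoc, ← mul_assoc D.t1 D.s1, D.h11, one_mul] using this
  have h01 : ∀ {i j : Fin 3} (h : i ≠ j) (r : R), eG D h (D.s0 * r * D.t1) ∈ C := by
    intro i j h r
    have : j = i + 1 ∨ j = i + 1 + 1 := by revert i j; decide
    rcases this with rfl | rfl
    · exact a2 i r
    · exact a3 i r
  have h10 : ∀ {i j : Fin 3} (h : i ≠ j) (r : R), eG D h (D.s1 * r * D.t0) ∈ C := by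
    intro i j h r
    have : i = j + 1 ∨ i = j + 1 + 1 := by revert i j; decide
    rcases this with rfl | rfl
    · exact b2 j r
    · exact b3 j r
  apply eq_top_of
  intro i j h r
  have : r = D.s0 * (D.t0 * r * D.s0) * D.t0 + D.s0 * (D.t0 * r * D.s1) * D.t1 +
      D.s1 * (D.t1 * r * D.s0) * D.t0 + D.s1 * (D.t1 * r * D.s1) * D.t1 := by
    calc r = (D.s0 * D.t0 + D.s1 * D.t1) * r * (D.s0 * D.t0 + D.s1 * D.t1) := by
          rw [D.hs, one_mul, mul_one]
      _ = _ := by noncomm_ring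
  rw [this, eG_add, eG_add, eG_add]
  exact mul_mem (mul_mem (mul_mem (h00 h _) (h01 h _)) (h10 h _)) (h11 h _)

include D in
theorem gr_of [Fintype F] (hF : 512 ≤ Fintype.card F) [Nontrivial R] : NH.S_GR := by
  obtain ⟨S, hS, hgen⟩ := kaz D hF
  exact ⟨GG D, inferInstance, S, θ D, tG D, cG D, hS, hgen, compress_gen D,
    fun g => ⟨θ D g, tG_conj D g⟩, cG_comm D, conj_infinite D⟩

/-! ### the model -/

section model

variable (F)

/-- `s b` -/
def sOp (b : ℕ) : Module.End F (ℕ → F) where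
  toFun f n := if n % 2 = b then f (n / 2) else 0
  map_add' f g := by
    funext n
    simp only [Pi.add_apply]
    split_ifs <;> simp
  map_smul' c f := by
    funext n
    simp only [Pi.smul_apply, RingHom.id_apply]
    split_ifs <;> simp

/-- `t b` -/
def tOp (b : ℕ) : Module.End F (ℕ → F) where
  toFun f n := f (2 * n + b)
  map_add' _ _ := rfl
  map_smul' _ _ := rfl

theorem ts_same (b : ℕ) (hb : b < 2) : tOp F b * sOp F b = 1 := by
  ext1 f
  funext n
  change (if (2 * n + b) % 2 = b then f ((2 * n + b) / 2) else 0) = f n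
  rw [if_pos (by omega), show (2 * n + b) / 2 = n by omega]

theorem ts_ne (a b : ℕ) (ha : a < 2) (hab : a ≠ b) : tOp F a * sOp F b = 0 := by
  ext1 f
  funext n
  change (if (2 * n + a) % 2 = b then f ((2 * n + a) / 2) else 0) = 0
  rw [if_neg (by omega)]

theorem st_sum : sOp F 0 * tOp F 0 + sOp F 1 * tOp F 1 = 1 := by
  ext1 f
  funext n
  change (if n % 2 = 0 then f (2 * (n / 2) + 0) else 0) +
    (if n % 2 = 1 then f (2 * (n / 2) + 1) else 0) = f n
  rcases Nat.mod_two_eq_zero_or_one n with h | h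
  · rw [if_pos h, if_neg (by omega), add_zero, show 2 * (n / 2) + 0 = n by omega]
  · rw [if_neg (by omega), if_pos h, zero_add, show 2 * (n / 2) + 1 = n by omega]

/-- the algebra -/
def RR : Subalgebra F (Module.End F (ℕ → F)) :=
  Algebra.adjoin F {sOp F 0, sOp F 1, tOp F 0, tOp F 1}

/-- the Leavitt data -/
def model [CharP F 2] : Lv F (RR F) where
  s0 := ⟨sOp F 0, Algebra.subset_adjoin (by simp)⟩
  s1 := ⟨sOp F 1, Algebra.subset_adjoin (by simp)⟩
  t0 := ⟨tOp F 0, Algebra.subset_adjoin (by simp)⟩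
  t1 := ⟨tOp F 1, Algebra.subset_adjoin (by simp)⟩
  h00 := Subtype.ext (ts_same F 0 (by norm_num))
  h11 := Subtype.ext (ts_same F 1 (by norm_num))
  h01 := Subtype.ext (ts_ne F 0 1 (by norm_num) (by norm_num))
  h10 := Subtype.ext (ts_ne F 1 0 (by norm_num) (by norm_num))
  hs := Subtype.ext (st_sum F)
  gen := by
    rw [eq_top_iff]
    refine (Algebra.adjoin_adjoin_coe_preimage (R := F)
      (s := {sOp F 0, sOp F 1, tOp F 0, tOp F 1})).ge.trans (Algebra.adjoin_mono ?_)
    intro x hx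
    simp only [Set.mem_preimage, Set.mem_insert_iff, Set.mem_singleton_iff] at hx ⊢
    rcases hx with h | h | h | h
    · exact Or.inl (Subtype.ext h)
    · exact Or.inr (Or.inl (Subtype.ext h))
    · exact Or.inr (Or.inr (Or.inl (Subtype.ext h)))
    · exact Or.inr (Or.inr (Or.inr (Subtype.ext h)))
  two x := by
    rw [← two_smul F x, CharTwo.two_eq_zero, zero_smul]

end model

theorem gr : Pool.Agent.H304Z.NH.S_GR := by
  have : Fintype (GaloisField 2 9) := Fintype.ofFinite _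
  have hc : Fintype.card (GaloisField 2 9) = 512 := by
    rw [← Nat.card_eq_fintype_card, GaloisField.card 2 9 (by norm_num)]
    norm_num
  exact gr_of (model (GaloisField 2 9)) hc.ge

end Pool.Agent.H923Z.GR
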