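import Pool.Agent.H668Z.SC.Box

set_option autoImplicit false

/-! Applications of the embedding theorem: rank, minimum and maximum condition. -/

namespace Pool.Agent.H923Z.SCApp

open Pool.Agent.H668Z.SC

theorem mon_gen {G : Type} [Group G] {A : Subgroup G} (hA : Mon A) (H : Subgroup G) (hH : H ≤ A) :
    ∃ s : Finset G, s.card ≤ 2 ∧ Subgroup.closure (s : Set G) = H := by
  classical
  rcases hA H hH with ⟨-, x, y, hxy⟩ | ⟨g, -, hg⟩
  · exact ⟨{x, y}, Finset.card_le_two, by simpa using hxy⟩
  · obtain ⟨n, hn⟩ := (Subgroup.le_zpowers_iff g H).1 hg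
    exact ⟨{g ^ n}, by simp, by simp [hn, Subgroup.zpowers_eq_closure]⟩

theorem mon_min {G : Type} [Group G] {A : Subgroup G} (hA : Mon A) :
    WellFoundedLT (Subgroup ↥A) := by
  have hfin : ∀ H : Subgroup ↥A, H ≠ ⊤ → (H : Set ↥A).Finite := by
    intro H hH
    rcases hA (H.map A.subtype) (Subgroup.map_subtype_le H) with ⟨h, -⟩ | ⟨g, hg, hle⟩
    · exfalso
      apply hH
      apply Subgroup.map_injective A.subtype_injective
      rw [h, ← MonoidHom.range_eq_map, Subgroup.range_subtype]
    · have h1 : ((H.map A.subtype : Subgroup G) : Set G).Finite := hg.finite_zpowers.subset hle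
      rw [Subgroup.coe_map] at h1
      exact Set.Finite.of_finite_image h1 A.subtype_injective.injOn
  have hmono : StrictMono (fun H : Subgroup ↥A => (H : Set ↥A).encard) := by
    intro H K hHK
    exact (hfin H (ne_top_of_lt hHK)).encard_lt_encard (SetLike.coe_ssubset_coe.2 hHK)
  exact hmono.wellFoundedLT

theorem mon_max {G : Type} [Group G] {A : Subgroup G} (hA : Mon A) :
    WellFoundedGT (Subgroup ↥A) := by
  rw [wellFoundedGT_iff_monotone_chain_condition]
  intro a
  have hm : Monotone fun n => (a n).map A.subtype := fun m n h => Subgroup.map_mono (a.monotone h)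
  obtain ⟨s, -, hs⟩ := mon_gen hA (⨆ n, (a n).map A.subtype)
    (iSup_le fun n => Subgroup.map_subtype_le _)
  have h1 : ∀ x ∈ s, ∃ n, x ∈ (a n).map A.subtype := by
    intro x hx
    have : x ∈ ⨆ n, (a n).map A.subtype := hs ▸ Subgroup.subset_closure hx
    exact (Subgroup.mem_iSup_of_directed hm.directed_le).1 this
  choose! f hf using h1
  refine ⟨s.sup f, fun m hnm => le_antisymm (a.monotone hnm) ?_⟩
  rw [← Subgroup.map_le_map_iff_of_injective A.subtype_injective]
  refine (le_iSup (fun n => (a n).map A.subtype) m).trans ?_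
  rw [← hs, Subgroup.closure_le]
  intro x hx
  exact hm (Finset.le_sup (f := f) hx) (hf x hx)

abbrev E : Type := Multiplicative (ℕ →₀ ℤ)

instance : Countable E := inferInstanceAs (Countable (ℕ →₀ ℤ))
instance : Infinite E := inferInstanceAs (Infinite (ℕ →₀ ℤ))

/-- functions vanishing on a set -/
def van (T : Set ℕ) : Subgroup E where
  carrier := {f | ∀ i ∈ T, (Multiplicative.toAdd f) i = 0}
  mul_mem' := fun {a b} ha hb i hi => by simp [ha i hi, hb i hi]
  one_mem' := fun i _ => by simp
  inv_mem' := fun {a} ha i hi => by simp [ha i hi]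

theorem van_lt {S T : Set ℕ} (h : T ⊆ S) (n : ℕ) (hS : n ∈ S) (hT : n ∉ T) : van S < van T := by
  refine lt_of_le_of_ne (fun f hf i hi => hf i (h hi)) fun he => ?_
  have h1 : Multiplicative.ofAdd (Finsupp.single n (1 : ℤ)) ∈ van T := by
    intro i hi
    have : n ≠ i := fun e => hT (e ▸ hi)
    simp [Finsupp.single_apply, this]
  rw [← he] at h1
  simpa using h1 n hS

theorem map_lt {G : Type} [Group G] (ε : E →* G) (hε : Function.Injective ε) {H K : Subgroup E}
    (h : H < K) : H.map ε < K.map ε :=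
  lt_of_le_of_ne (Subgroup.map_mono h.le) fun e => h.ne (Subgroup.map_injective hε e)

theorem thm_min (h : S_embed) : S_appMin := by
  intro hall
  obtain ⟨G, _, ε, A, B, hε, hAB, hA, hB⟩ := h E
  have := hall G A B hAB (mon_min hA) (mon_min hB)
  refine not_strictAnti_of_wellFoundedLT (fun n : ℕ => (van {i | i < n}).map ε) ?_
  refine strictAnti_nat_of_succ_lt fun n => map_lt ε hε (van_lt ?_ n ?_ ?_)
  · intro i hi
    exact Nat.lt_succ_of_lt hi
  · exact Nat.lt_succ_self n
  · exact lt_irrefl n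

theorem thm_max (h : S_embed) : S_appMax := by
  intro hall
  obtain ⟨G, _, ε, A, B, hε, hAB, hA, hB⟩ := h E
  have := hall G A B hAB (mon_max hA) (mon_max hB)
  refine not_strictMono_of_wellFoundedGT (fun n : ℕ => (van {i | n ≤ i}).map ε) ?_
  refine strictMono_nat_of_lt_succ fun n => map_lt ε hε (van_lt ?_ n ?_ ?_)
  · intro i hi
    exact Nat.le_of_succ_le hi
  · exact le_refl n
  · exact Nat.not_succ_le_self n

theorem thm_rank (h : S_embed) : S_appRank := by
  classical
  obtain ⟨G, _, ε, A, B, hε, hAB, hA, hB⟩ := h E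
  refine ⟨G, inferInstance, A, B, ⟨2, fun H hH _ => mon_gen hA H hH⟩,
    ⟨2, fun H hH _ => mon_gen hB H hH⟩, hAB, ?_⟩
  rintro ⟨r, hr⟩
  let v : Fin (r + 1) → (ℕ →₀ ℤ) := fun i => Finsupp.single (i : ℕ) 1
  have hv : LinearIndependent ℤ v :=
    (Finsupp.basisSingleOne (R := ℤ) (ι := ℕ)).linearIndependent.comp (fun i : Fin (r + 1) => (i : ℕ))
      Fin.val_injective
  let t : Finset G := Finset.univ.image fun i => ε (Multiplicative.ofAdd (v i))
  obtain ⟨s, hs, hst⟩ := hr (Subgroup.closure (t : Set G)) ⟨t, rfl⟩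
  have hle : Subgroup.closure (t : Set G) ≤ ε.range := by
    rw [Subgroup.closure_le]
    intro x hx
    obtain ⟨i, -, rfl⟩ := Finset.mem_image.1 hx
    exact ⟨_, rfl⟩
  have hsr : ∀ x ∈ s, ∃ y : ℕ →₀ ℤ, ε (Multiplicative.ofAdd y) = x := by
    intro x hx
    obtain ⟨y, hy⟩ := hle (hst ▸ Subgroup.subset_closure hx)
    exact ⟨Multiplicative.toAdd y, hy⟩
  choose! g hg using hsr
  let w : Finset (ℕ →₀ ℤ) := s.image g
  have hspan : ∀ i, v i ∈ Submodule.span ℤ (w : Set (ℕ →₀ ℤ)) := by
    intro i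
    have h1 : Subgroup.closure (s : Set G) ≤
        (AddSubgroup.toSubgroup (Submodule.span ℤ (w : Set (ℕ →₀ ℤ))).toAddSubgroup).map ε := by
      rw [Subgroup.closure_le]
      intro x hx
      refine ⟨Multiplicative.ofAdd (g x), ?_, hg x hx⟩
      have h5 : g x ∈ Submodule.span ℤ (w : Set (ℕ →₀ ℤ)) :=
        Submodule.subset_span (Finset.mem_coe.2 (Finset.mem_image_of_mem g hx))
      exact h5
    have h2 : ε (Multiplicative.ofAdd (v i)) ∈ Subgroup.closure (s : Set G) := by
      rw [hst]
      exact Subgroup.subset_closure (Finset.mem_coe.2 (Finset.mem_image_of_mem _ (Finset.mem_univ i)))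
    obtain ⟨y, hy, e⟩ := h1 h2
    rw [hε e] at hy
    exact hy
  have h3 := linearIndependent_le_span_aux' v hv (w : Set (ℕ →₀ ℤ)) (by
    rintro _ ⟨i, rfl⟩
    exact hspan i)
  have h4 : w.card ≤ s.card := Finset.card_image_le
  simp only [Fintype.card_fin, Finset.coe_sort_coe, Fintype.card_coe] at h3
  omega

end Pool.Agent.H923Z.SCApp
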