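import Mathlib

set_option autoImplicit false

open Filter Real

namespace Pool.Agent.H923Z.CE

/-- the normalisation in the law of the iterated logarithm -/
noncomputable def psi (y : ℝ) : ℝ := √(2 * y * log (log y))

theorem tendsto_LL : Tendsto (fun y : ℝ => log (log y)) atTop atTop :=
  tendsto_log_atTop.comp tendsto_log_atTop

theorem LL_mono {y z : ℝ} (hy : 1 < y) (h : y ≤ z) : log (log y) ≤ log (log z) :=
  log_le_log (log_pos hy) (log_le_log (by linarith) h)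

theorem LL_sq {y : ℝ} (hy : 1 < y) : log (log (y ^ 2)) = log (log y) + log 2 := by
  rw [log_pow, log_mul (by norm_num) (log_pos hy).ne']
  push_cast
  ring

theorem psi_ge : ∀ᶠ y : ℝ in atTop, √y ≤ psi y ∧ 0 < psi y := by
  filter_upwards [tendsto_LL.eventually_ge_atTop 1, eventually_gt_atTop 0] with y h1 h2
  have : √y ≤ psi y := sqrt_le_sqrt (by nlinarith)
  exact ⟨this, (sqrt_pos.2 h2).trans_le this⟩

theorem psi_lower (m : ℝ) (hm : 1 ≤ m) (δ : ℝ) (hδ : 0 < δ) (hδ1 : δ ≤ 1) :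
    ∀ᶠ y : ℝ in atTop, ∀ z, y ≤ m * z → (1 - δ) * (psi y / √m) ≤ psi z := by
  filter_upwards [tendsto_LL.eventually_ge_atTop (log 2 / δ), eventually_gt_atTop (m ^ 2),
    eventually_gt_atTop 1] with y h1 h2 h3 z hz
  have hl2 : 0 < log 2 := log_pos (by norm_num)
  have hLL : 0 < log (log y) := (div_pos hl2 hδ).trans_le h1
  have hz1 : 1 < z := by
    by_contra hc
    push Not at hc
    nlinarith
  have hyz : y ≤ z ^ 2 := by
    have : m < z := by
      by_contra hc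
      push Not at hc
      nlinarith
    nlinarith
  have h4 : log (log y) ≤ log (log z) + log 2 := by
    rw [← LL_sq hz1]; exact LL_mono h3 hyz
  rw [div_le_iff₀ hδ] at h1
  have h5 : (1 - δ) * log (log y) ≤ log (log z) := by nlinarith
  unfold psi
  rw [← sqrt_div' _ (by linarith : (0 : ℝ) ≤ m), ← sqrt_sq (by linarith : 0 ≤ 1 - δ),
    ← sqrt_mul (sq_nonneg _)]
  apply sqrt_le_sqrt
  have h6 : y / m ≤ z := by rw [div_le_iff₀ (by linarith)]; linarith
  have h7 : 0 ≤ y / m := by positivity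
  have h8 : 0 ≤ (1 - δ) * log (log y) := mul_nonneg (by linarith) hLL.le
  calc (1 - δ) ^ 2 * (2 * y * log (log y) / m)
      = (1 - δ) * (2 * (y / m) * ((1 - δ) * log (log y))) := by ring
    _ ≤ 1 * (2 * (y / m) * ((1 - δ) * log (log y))) := by gcongr; linarith
    _ ≤ 1 * (2 * z * log (log z)) := by gcongr
    _ = 2 * z * log (log z) := one_mul _

theorem psi_upper (m : ℝ) (hm : 1 ≤ m) (δ : ℝ) (hδ : 0 < δ) (hδ1 : δ ≤ 1) :
    ∀ᶠ y : ℝ in atTop, ∀ z, y ≤ m * z → m * z ≤ (1 + δ) * y → psi z ≤ (1 + δ) * (psi y / √m) := by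
  filter_upwards [tendsto_LL.eventually_ge_atTop (log 2 / δ), eventually_gt_atTop (m ^ 2),
    eventually_gt_atTop 2] with y h1 h2 h3 z hz hz'
  have hl2 : 0 < log 2 := log_pos (by norm_num)
  have hLL : 0 < log (log y) := (div_pos hl2 hδ).trans_le h1
  have hz1 : 1 < z := by
    by_contra hc
    push Not at hc
    nlinarith
  have hzy : z ≤ y ^ 2 := by nlinarith
  have h4 : log (log z) ≤ log (log y) + log 2 := by
    rw [← LL_sq (by linarith)]; exact LL_mono hz1 hzy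
  rw [div_le_iff₀ hδ] at h1
  have h5 : log (log z) ≤ (1 + δ) * log (log y) := by nlinarith
  unfold psi
  rw [← sqrt_div' _ (by linarith : (0 : ℝ) ≤ m), ← sqrt_sq (by linarith : 0 ≤ 1 + δ),
    ← sqrt_mul (sq_nonneg _)]
  apply sqrt_le_sqrt
  have h6 : z ≤ (1 + δ) * y / m := by rw [le_div_iff₀ (by linarith)]; linarith
  calc 2 * z * log (log z) ≤ 2 * z * ((1 + δ) * log (log y)) := by gcongr
    _ ≤ 2 * ((1 + δ) * y / m) * ((1 + δ) * log (log y)) := by gcongr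
    _ = (1 + δ) ^ 2 * (2 * y * log (log y) / m) := by ring

theorem lil_upper (m : ℕ) (hm : 1 ≤ m) (σ : ℝ) (hσ : 0 ≤ σ) (dev : ℕ → ℝ) (P : ℕ → ℕ)
    (Err : ℕ → ℝ) (hP : Tendsto P atTop atTop)
    (hErr : ∀ η : ℝ, 0 < η → ∀ᶠ s in atTop, Err s ≤ η * √(P s))
    (hcover : ∀ S, ∀ᶠ n in atTop, ∃ s, S ≤ s ∧ P s ≤ m * n ∧
      |dev n| ≤ Err s + σ * (psi (P s) / √m)) (ε : ℝ) (hε : 0 < ε) :
    ∀ᶠ n : ℕ in atTop, |dev n / psi n| < σ + ε := by
  have hm' : (1 : ℝ) ≤ m := by exact_mod_cast hm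
  have hsm : 0 < √(m : ℝ) := sqrt_pos.2 (by linarith)
  have hPR : Tendsto (fun s => (P s : ℝ)) atTop atTop := tendsto_natCast_atTop_atTop.comp hP
  set δ := ε / (4 * (σ + ε)) with hδ
  have hδ0 : 0 < δ := by positivity
  have hδe : δ * (σ + ε) = ε / 4 := by rw [hδ]; field_simp
  have hδ1 : δ ≤ 1 := by nlinarith
  obtain ⟨S, hS⟩ := eventually_atTop.1 ((hErr (ε / 4 / √m) (by positivity)).and
    ((hPR.eventually psi_ge).and (hPR.eventually (psi_lower m hm' δ hδ0 hδ1))))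
  filter_upwards [hcover S, tendsto_natCast_atTop_atTop.eventually psi_ge] with n hn hn2
  obtain ⟨s, hs, h1, h2⟩ := hn
  obtain ⟨a1, ⟨a2, a3⟩, a4⟩ := hS s hs
  have a5 := a4 n (by exact_mod_cast h1)
  rw [abs_div, abs_of_pos hn2.2, div_lt_iff₀ hn2.2]
  set u := psi (P s) / √m with hu
  have hu0 : 0 < u := div_pos a3 hsm
  have a6 : Err s ≤ ε / 4 * u := by
    refine a1.trans ?_
    rw [hu, div_mul_eq_mul_div, mul_div_assoc]
    gcongr
  calc |dev n| ≤ (σ + ε / 4) * u := by linarith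
    _ < (σ + ε) * ((1 - δ) * u) := by nlinarith
    _ ≤ (σ + ε) * psi n := by gcongr

theorem lil_lower (m : ℕ) (hm : 1 ≤ m) (σ : ℝ) (hσ : 0 ≤ σ) (dev : ℕ → ℝ) (P : ℕ → ℕ)
    (Err : ℕ → ℝ) (hP : Tendsto P atTop atTop)
    (hErr : ∀ η : ℝ, 0 < η → ∀ᶠ s in atTop, Err s ≤ η * √(P s))
    (hfreq : ∀ η : ℝ, 0 < η → ∃ᶠ s in atTop, ∃ n : ℕ, P s ≤ m * n ∧
      (m : ℝ) * n ≤ (1 + η) * P s ∧ σ * (psi (P s) / √m) - Err s ≤ dev n) (ε : ℝ) (hε : 0 < ε) :
    ∃ᶠ n : ℕ in atTop, σ - ε < dev n / psi n := by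
  have hm' : (1 : ℝ) ≤ m := by exact_mod_cast hm
  have hsm : 0 < √(m : ℝ) := sqrt_pos.2 (by linarith)
  have hPR : Tendsto (fun s => (P s : ℝ)) atTop atTop := tendsto_natCast_atTop_atTop.comp hP
  set δ := ε / (4 * (σ + ε)) with hδ
  have hδ0 : 0 < δ := by positivity
  have hδe : δ * (σ + ε) = ε / 4 := by rw [hδ]; field_simp
  have hδ1 : δ ≤ 1 := by nlinarith
  obtain ⟨N1, hN1⟩ := eventually_atTop.1 (tendsto_natCast_atTop_atTop.eventually psi_ge)
  rw [frequently_atTop]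
  intro N0
  obtain ⟨s, ⟨n, h1, h2, h3⟩, a1, ⟨a2, a3⟩, a4, a4', a7⟩ := ((hfreq δ hδ0).and_eventually
    ((hErr (ε / 4 / √m) (by positivity)).and
    ((hPR.eventually psi_ge).and ((hPR.eventually (psi_lower m hm' δ hδ0 hδ1)).and
    ((hPR.eventually (psi_upper m hm' δ hδ0 hδ1)).and
    (hP.eventually_ge_atTop (m * max N0 N1))))))).exists
  have hn : max N0 N1 ≤ n := Nat.le_of_mul_le_mul_left (a7.trans h1) hm
  refine ⟨n, (le_max_left _ _).trans hn, ?_⟩
  have hn2 := hN1 n ((le_max_right _ _).trans hn)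
  have a5 := a4 n (by exact_mod_cast h1)
  have a5' := a4' n (by exact_mod_cast h1) h2
  rw [lt_div_iff₀ hn2.2]
  set u := psi (P s) / √m with hu
  have hu0 : 0 < u := div_pos a3 hsm
  have a6 : Err s ≤ ε / 4 * u := by
    refine a1.trans ?_
    rw [hu, div_mul_eq_mul_div, mul_div_assoc]
    gcongr
  have b1 : σ * psi n ≤ σ * ((1 + δ) * u) := by gcongr
  have b2 : ε * ((1 - δ) * u) ≤ ε * psi n := by gcongr
  have b3 : δ * (σ + ε) * u = ε / 4 * u := by rw [hδe]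
  have b4 : 0 < ε * u := by positivity
  nlinarith

end Pool.Agent.H923Z.CE
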