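import Mathlib

set_option autoImplicit false

open Finset

namespace Pool.Agent.H923Z.CE

/-- centred indicator -/
def hh (B k y : ℕ) : ℤ := if y = k then (B : ℤ) - 1 else -1

/-- centred count of the digit `k` among the lowest `r` base `B` digits of `x` -/
def GG (B k x r : ℕ) : ℤ := ∑ j ∈ range r, hh B k (x / B ^ j % B)

theorem abs_hh_le (B k y : ℕ) (hB : 1 ≤ B) : |hh B k y| ≤ B := by
  unfold hh
  have : (1 : ℤ) ≤ B := by exact_mod_cast hB
  split_ifs
  · rw [abs_le]; constructor <;> linarith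
  · simpa using this

theorem abs_GG_le (B k x r : ℕ) (hB : 1 ≤ B) : |GG B k x r| ≤ B * r := by
  unfold GG
  refine (abs_sum_le_sum_abs _ _).trans ?_
  refine (sum_le_sum fun j _ => abs_hh_le B k _ hB).trans ?_
  simp [mul_comm]

theorem GG_concat (B k x y r1 r2 : ℕ) (hB : 1 ≤ B) (hy : y < B ^ r2) :
    GG B k (x * B ^ r2 + y) (r2 + r1) = GG B k y r2 + GG B k x r1 := by
  unfold GG
  rw [sum_range_add]
  congr 1
  · refine sum_congr rfl fun j hj => ?_
    have hj' : j < r2 := mem_range.1 hj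
    obtain ⟨t, rfl⟩ := Nat.exists_eq_add_of_lt hj'
    congr 1
    have e : x * B ^ (j + t + 1) + y = y + B ^ j * (B * (x * B ^ t)) := by ring
    rw [e, Nat.add_mul_div_left _ _ (by positivity), Nat.add_mul_mod_self_left]
  · refine sum_congr rfl fun i _ => ?_
    congr 2
    rw [pow_add, ← Nat.div_div_eq_div_mul]
    congr 1
    rw [add_comm, Nat.add_mul_div_right _ _ (by positivity), Nat.div_eq_of_lt hy, zero_add]

theorem GG_one (B k x : ℕ) (hx : x < B) : GG B k x 1 = hh B k x := by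
  simp [GG, Nat.mod_eq_of_lt hx]

theorem sum_range_mul' (f : ℕ → ℤ) (B n : ℕ) :
    ∑ u ∈ range (n * B), f u = ∑ u ∈ range n, ∑ x ∈ range B, f (u * B + x) := by
  induction n with
  | zero => simp
  | succ n ih => rw [Nat.succ_mul, sum_range_add, ih, sum_range_succ]

theorem sum_hh (B k : ℕ) (hk : k < B) : ∑ x ∈ range B, hh B k x = 0 := by
  have : ∀ x, hh B k x = (if x = k then (B : ℤ) else 0) - 1 := by
    intro x; unfold hh; split_ifs <;> simp
  simp only [this, sum_sub_distrib, sum_ite_eq', mem_range, hk, if_true]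
  simp

theorem sum_hh_sq (B k : ℕ) (hk : k < B) : ∑ x ∈ range B, hh B k x ^ 2 = B * (B - 1) := by
  have : ∀ x, hh B k x ^ 2 = (if x = k then (B : ℤ) ^ 2 - 2 * B else 0) + 1 := by
    intro x; unfold hh; split_ifs <;> ring
  simp only [this, sum_add_distrib, sum_ite_eq', mem_range, hk, if_true]
  simp
  ring

theorem GG_step (B k u x r : ℕ) (hx : x < B) :
    GG B k (u * B + x) (r + 1) = hh B k x + GG B k u r := by
  have := GG_concat B k u x r 1 (by omega) (by simpa using hx)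
  rw [pow_one, add_comm 1 r, GG_one B k x hx] at this
  exact this

theorem sum_GG (B k r : ℕ) (hk : k < B) : ∑ u ∈ range (B ^ r), GG B k u r = 0 := by
  induction r with
  | zero => simp [GG]
  | succ r ih =>
    rw [pow_succ, sum_range_mul']
    have : ∀ u ∈ range (B ^ r), ∑ x ∈ range B, GG B k (u * B + x) (r + 1) = B * GG B k u r := by
      intro u _
      rw [sum_congr rfl fun x hx => GG_step B k u x r (mem_range.1 hx), sum_add_distrib,
        sum_hh B k hk]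
      simp
    rw [sum_congr rfl this, ← mul_sum, ih, mul_zero]

theorem sum_GG_sq (B k r : ℕ) (hk : k < B) :
    ∑ u ∈ range (B ^ r), GG B k u r ^ 2 = r * B ^ r * (B - 1) := by
  induction r with
  | zero => simp [GG]
  | succ r ih =>
    rw [pow_succ, sum_range_mul']
    have : ∀ u ∈ range (B ^ r), ∑ x ∈ range B, GG B k (u * B + x) (r + 1) ^ 2 =
        B * (B - 1) + B * GG B k u r ^ 2 := by
      intro u _
      rw [sum_congr rfl fun x hx => by rw [GG_step B k u x r (mem_range.1 hx), add_sq],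
        sum_add_distrib, sum_add_distrib, sum_hh_sq B k hk, ← sum_mul, ← mul_sum, sum_hh B k hk]
      simp
    rw [sum_congr rfl this, sum_add_distrib, ← mul_sum, ← mul_sum, ih]
    simp
    ring

theorem GG_ofDigits (B k q : ℕ) (hB : 1 ≤ B) (l : List ℕ) (hl : ∀ u ∈ l, u < B ^ q) :
    GG B k (Nat.ofDigits (B ^ q) l) (q * l.length) = (l.map fun u => GG B k u q).sum := by
  induction l with
  | nil => simp [GG]
  | cons u l ih =>
    rw [Nat.ofDigits_cons, List.length_cons, List.map_cons, List.sum_cons,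
      ← ih fun v hv => hl v (List.mem_cons_of_mem _ hv)]
    have := GG_concat B k (Nat.ofDigits (B ^ q) l) u (q * l.length) q hB
      (hl u List.mem_cons_self)
    rw [← this]
    congr 1 <;> ring

/-- `x` has at most `l` bits and centred block counts `γ` -/
def Dv (L l x : ℕ) (γ : ℕ → ℕ → ℤ) : Prop :=
  x < 2 ^ l ∧ ∀ m k, 1 ≤ m → m ∣ L → k < 2 ^ m → GG (2 ^ m) k x (l / m) = γ m k

theorem Dv.concat {L l1 l2 x y : ℕ} {γ1 γ2 : ℕ → ℕ → ℤ} (hx : Dv L l1 x γ1) (hy : Dv L l2 y γ2)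
    (h1 : L ∣ l1) (h2 : L ∣ l2) : Dv L (l1 + l2) (x * 2 ^ l2 + y) (γ1 + γ2) := by
  refine ⟨?_, fun m k hm hmL hk => ?_⟩
  · have := hx.1
    have := hy.1
    rw [pow_add]
    nlinarith [Nat.succ_le_of_lt hx.1]
  · obtain ⟨q1, rfl⟩ := hmL.trans h1
    obtain ⟨q2, rfl⟩ := hmL.trans h2
    have a1 := hx.2 m k hm hmL hk
    have a2 := hy.2 m k hm hmL hk
    rw [Nat.mul_div_cancel_left _ (by omega)] at a1 a2
    rw [← mul_add, Nat.mul_div_cancel_left _ (by omega), pow_mul, add_comm q1 q2,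
      GG_concat _ _ _ _ _ _ Nat.one_le_two_pow (by rw [← pow_mul]; exact hy.1), a1, a2]
    simp [add_comm]

theorem Dv_ofDigits (L : ℕ) (hL : 1 ≤ L) (l : List ℕ) (hl : ∀ u ∈ l, u < 2 ^ L) :
    Dv L (L * l.length) (Nat.ofDigits (2 ^ L) l)
      (fun m k => (l.map fun u => GG (2 ^ m) k u (L / m)).sum) := by
  refine ⟨?_, fun m k hm hmL _ => ?_⟩
  · rw [pow_mul]
    exact Nat.ofDigits_lt_base_pow_length (Nat.one_lt_two_pow (by omega)) hl
  · obtain ⟨q, rfl⟩ := hmL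
    dsimp only
    rw [mul_assoc, Nat.mul_div_cancel_left _ (by omega), Nat.mul_div_cancel_left _ (by omega),
      pow_mul]
    exact GG_ofDigits _ k q Nat.one_le_two_pow l (by rw [← pow_mul]; exact hl)

theorem Dv.congr {L l x : ℕ} {γ γ' : ℕ → ℕ → ℤ} (h : Dv L l x γ)
    (e : ∀ m k, 1 ≤ m → m ∣ L → k < 2 ^ m → γ m k = γ' m k) : Dv L l x γ' :=
  ⟨h.1, fun m k hm hmL hk => (h.2 m k hm hmL hk).trans (e m k hm hmL hk)⟩

theorem sum_GG_L (L m k : ℕ) (hm : 1 ≤ m) (hmL : m ∣ L) (hk : k < 2 ^ m) :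
    ∑ u ∈ range (2 ^ L), GG (2 ^ m) k u (L / m) = 0 := by
  obtain ⟨q, rfl⟩ := hmL
  rw [Nat.mul_div_cancel_left _ (by omega), pow_mul]
  exact sum_GG _ k q hk

theorem sum_GG_sq_L (L m k : ℕ) (hm : 1 ≤ m) (hmL : m ∣ L) (hk : k < 2 ^ m) :
    ∑ u ∈ range (2 ^ L), GG (2 ^ m) k u (L / m) ^ 2 = (L / m : ℕ) * 2 ^ L * (2 ^ m - 1) := by
  obtain ⟨q, rfl⟩ := hmL
  rw [Nat.mul_div_cancel_left _ (by omega), pow_mul]
  have := sum_GG_sq (2 ^ m) k q hk
  rw [this]
  push_cast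
  rw [pow_mul]

theorem sum_list_range (f : ℕ → ℤ) (n : ℕ) :
    ((List.range n).map f).sum = ∑ u ∈ range n, f u := by
  induction n with
  | zero => simp
  | succ n ih => rw [List.range_succ, List.map_append, List.sum_append, ih, sum_range_succ]; simp

theorem Dv_perm (L : ℕ) (hL : 1 ≤ L) (l : List ℕ) (hl : l.Perm (List.range (2 ^ L))) :
    Dv L (2 ^ L * L) (Nat.ofDigits (2 ^ L) l) 0 := by
  have h := Dv_ofDigits L hL l fun u hu => List.mem_range.1 (hl.subset hu)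
  rw [hl.length_eq, List.length_range, mul_comm] at h
  refine h.congr fun m k hm hmL hk => ?_
  rw [(hl.map _).sum_eq]
  have := sum_GG_L L m k hm hmL hk
  rw [sum_list_range]
  exact this

theorem factorial_lower (L : ℕ) : 2 ^ (2 ^ L * (L - 2)) ≤ (2 ^ L).factorial := by
  rcases Nat.lt_or_ge L 2 with h | h
  · have : L - 2 = 0 := by omega
    rw [this]
    simpa using Nat.succ_le_of_lt (Nat.factorial_pos _)
  · obtain ⟨t, rfl⟩ := Nat.exists_eq_add_of_le h
    set Q := 2 ^ (2 + t) with hQ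
    have h1 : ((Q : ℝ)) ^ Q / (Q.factorial : ℝ) ≤ Real.exp Q :=
      Real.pow_div_factorial_le_exp (Q : ℝ) (by positivity) Q
    have h2 : Real.exp Q ≤ 4 ^ Q := by
      rw [← Real.exp_one_pow]
      exact pow_le_pow_left₀ (Real.exp_pos 1).le
        (Real.exp_one_lt_d9.le.trans (by norm_num)) Q
    have hf : (0 : ℝ) < Q.factorial := by exact_mod_cast Nat.factorial_pos Q
    rw [div_le_iff₀ hf] at h1
    have h3 : ((Q : ℝ)) ^ Q = 4 ^ Q * (2 ^ (Q * t) : ℝ) := by
      rw [mul_comm Q t, pow_mul, ← mul_pow]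
      congr 1
      rw [hQ]
      push_cast
      ring
    have h4 : (4 : ℝ) ^ Q * (2 ^ (Q * t) : ℝ) ≤ 4 ^ Q * Q.factorial := by
      rw [← h3]
      exact h1.trans (mul_le_mul_of_nonneg_right h2 hf.le)
    have h5 := le_of_mul_le_mul_left h4 (by positivity)
    have e : 2 + t - 2 = t := by omega
    rw [e]
    exact_mod_cast h5

theorem exists_bal_one (L : ℕ) (hL : 1 ≤ L) :
    ∃ S : Finset ℕ, 2 ^ (2 ^ L * (L - 2)) ≤ S.card ∧ ∀ x ∈ S, Dv L (2 ^ L * L) x 0 := by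
  classical
  refine ⟨((List.range (2 ^ L)).permutations.toFinset).image (Nat.ofDigits (2 ^ L)), ?_, ?_⟩
  · rw [card_image_of_injOn, List.toFinset_card_of_nodup
      (List.nodup_permutations _ List.nodup_range), List.length_permutations, List.length_range]
    · exact factorial_lower L
    · intro l1 h1 l2 h2 h
      simp only [List.coe_toFinset, Set.mem_ofPred_eq, List.mem_permutations] at h1 h2
      exact Nat.ofDigits_inj_of_len_eq (Nat.one_lt_two_pow (by omega))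
        (h1.length_eq.trans h2.length_eq.symm)
        (fun u hu => List.mem_range.1 (h1.subset hu))
        (fun u hu => List.mem_range.1 (h2.subset hu)) h
  · intro x hx
    obtain ⟨l, hl, rfl⟩ := mem_image.1 hx
    exact Dv_perm L hL l (List.mem_permutations.1 (List.mem_toFinset.1 hl))

theorem concat_inj {l x y x' y' : ℕ} (hy : y < 2 ^ l) (hy' : y' < 2 ^ l)
    (h : x * 2 ^ l + y = x' * 2 ^ l + y') : x = x' ∧ y = y' := by
  have h1 := congrArg (· / 2 ^ l) h
  have h2 := congrArg (· % 2 ^ l) h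
  simp only [add_comm (_ * 2 ^ l), Nat.add_mul_div_right _ _ (Nat.two_pow_pos l),
    Nat.div_eq_of_lt hy, Nat.div_eq_of_lt hy', zero_add, Nat.add_mul_mod_self_right,
    Nat.mod_eq_of_lt hy, Nat.mod_eq_of_lt hy'] at h1 h2
  exact ⟨h1, h2⟩

theorem exists_top (L : ℕ) (hL : 1 ≤ L) :
    ∃ x, 2 ^ (2 ^ L * L - 1) ≤ x ∧ Dv L (2 ^ L * L) x 0 := by
  refine ⟨Nat.ofDigits (2 ^ L) (List.range (2 ^ L)), ?_, Dv_perm L hL _ (List.Perm.refl _)⟩
  obtain ⟨t, rfl⟩ := Nat.exists_eq_add_of_le' hL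
  obtain ⟨n, hn⟩ : ∃ n, 2 ^ (t + 1) = n + 1 := ⟨2 ^ (t + 1) - 1, by
    have := Nat.two_pow_pos (t + 1); omega⟩
  have hn' : 2 ^ t ≤ n := by
    have := Nat.two_pow_pos t
    rw [pow_succ] at hn
    omega
  conv_rhs => rw [hn, List.range_succ, Nat.ofDigits_append, ← hn]
  simp only [List.length_range, Nat.ofDigits_singleton]
  have e : 2 ^ (t + 1) * (t + 1) - 1 = (t + 1) * n + t := by
    rw [hn]
    have : (n + 1) * (t + 1) = (t + 1) * n + t + 1 := by ring
    omega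
  rw [e, pow_add, pow_mul]
  exact (Nat.mul_le_mul_left _ hn').trans (Nat.le_add_left _ _)

theorem exists_bal (L : ℕ) (hL : 1 ≤ L) (n : ℕ) :
    ∃ S : Finset ℕ, 2 ^ (n * (2 ^ L * (L - 2))) ≤ S.card ∧
      ∀ x ∈ S, 2 ^ (2 ^ L * L * (n + 1) - 1) ≤ x ∧ Dv L (2 ^ L * L * (n + 1)) x 0 := by
  classical
  induction n with
  | zero =>
    obtain ⟨x, hx⟩ := exists_top L hL
    exact ⟨{x}, by simp, by simpa using hx⟩
  | succ n ih =>
    obtain ⟨S, hS, hSx⟩ := ih
    obtain ⟨T, hT, hTx⟩ := exists_bal_one L hL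
    refine ⟨(S ×ˢ T).image fun z => z.1 * 2 ^ (2 ^ L * L) + z.2, ?_, ?_⟩
    · rw [card_image_of_injOn, card_product, Nat.succ_mul, pow_add]
      · exact Nat.mul_le_mul hS hT
      · rintro ⟨x, y⟩ h1 ⟨x', y'⟩ h2 h
        simp only [coe_product, Set.mem_prod, mem_coe] at h1 h2
        obtain ⟨a, b⟩ := concat_inj (hTx y h1.2).1 (hTx y' h2.2).1 h
        exact Prod.ext a b
    · intro z hz
      obtain ⟨⟨x, y⟩, hxy, rfl⟩ := mem_image.1 hz
      obtain ⟨hx, hy⟩ := mem_product.1 hxy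
      have hc := (hSx x hx).2.concat (hTx y hy) ((Dvd.intro_left _ rfl).mul_right _)
        (Dvd.intro_left _ rfl)
      have hpos : 1 ≤ 2 ^ L * L * (n + 1) :=
        Nat.mul_pos (Nat.mul_pos (Nat.two_pow_pos L) hL) (Nat.succ_pos n)
      have e : 2 ^ L * L * (n + 1 + 1) = 2 ^ L * L * (n + 1) + 2 ^ L * L := by ring
      refine ⟨?_, ?_⟩
      · have e2 : 2 ^ L * L * (n + 1 + 1) - 1 = (2 ^ L * L * (n + 1) - 1) + 2 ^ L * L := by
          omega
        rw [e2, pow_add]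
        exact (Nat.mul_le_mul_right _ (hSx x hx).1).trans (Nat.le_add_right _ _)
      · rw [e]
        simpa using hc

/-- the covariance of two centred block counts over all `L`-bit words -/
def CC (L mt kt m k : ℕ) : ℤ :=
  ∑ u ∈ range (2 ^ L), GG (2 ^ mt) kt u (L / mt) * GG (2 ^ m) k u (L / m)

theorem sum_flatMap_replicate (f : ℕ → ℤ) (μ : ℕ → ℕ) (n : ℕ) :
    (((List.range n).flatMap fun u => List.replicate (μ u) u).map f).sum =
      ∑ u ∈ range n, (μ u : ℤ) * f u := by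
  induction n with
  | zero => simp
  | succ n ih =>
    rw [List.range_succ, List.flatMap_append, List.map_append, List.sum_append, ih,
      sum_range_succ]
    simp

theorem exists_tilt (L mt kt : ℕ) (hL : 1 ≤ L) (hm : 1 ≤ mt) (hmL : mt ∣ L) (hk : kt < 2 ^ mt)
    (ε : ℤ) (hε : ε = 1 ∨ ε = -1) :
    ∃ y, Dv L ((2 ^ L * L) ^ 2) y (fun m k => ε * CC L mt kt m k) := by
  have hb : ∀ u, |GG (2 ^ mt) kt u (L / mt)| ≤ (2 ^ L * L : ℕ) := by
    intro u
    refine (abs_GG_le _ _ _ _ Nat.one_le_two_pow).trans ?_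
    have h1 : 2 ^ mt ≤ 2 ^ L := Nat.pow_le_pow_right (by norm_num) (Nat.le_of_dvd hL hmL)
    have h2 : L / mt ≤ L := Nat.div_le_self _ _
    exact_mod_cast Nat.mul_le_mul h1 h2
  let μ : ℕ → ℕ := fun u => ((2 ^ L * L : ℕ) + ε * GG (2 ^ mt) kt u (L / mt)).toNat
  have hμ : ∀ u, (μ u : ℤ) = (2 ^ L * L : ℕ) + ε * GG (2 ^ mt) kt u (L / mt) := by
    intro u
    apply Int.toNat_of_nonneg
    have := abs_le.1 (hb u)
    rcases hε with rfl | rfl <;> linarith
  let l : List ℕ := (List.range (2 ^ L)).flatMap fun u => List.replicate (μ u) u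
  have hl : ∀ u ∈ l, u < 2 ^ L := by
    intro u hu
    obtain ⟨v, hv, huv⟩ := List.mem_flatMap.1 hu
    rw [List.eq_of_mem_replicate huv]
    exact List.mem_range.1 hv
  have hlen : L * l.length = (2 ^ L * L) ^ 2 := by
    have h1 := sum_flatMap_replicate (fun _ => 1) μ (2 ^ L)
    simp only [List.map_const', List.sum_replicate, nsmul_eq_mul, mul_one, hμ,
      sum_add_distrib, ← mul_sum, sum_GG_L L mt kt hm hmL hk, sum_const, card_range] at h1
    have h2 : l.length = 2 ^ L * (2 ^ L * L) := by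
      have : ((l.length : ℕ) : ℤ) = (2 ^ L * (2 ^ L * L) : ℕ) := by
        rw [h1]; push_cast; ring
      exact_mod_cast this
    rw [h2]; ring
  have h := Dv_ofDigits L hL l hl
  rw [hlen] at h
  refine ⟨_, h.congr fun m k hm' hmL' hk' => ?_⟩
  rw [sum_flatMap_replicate]
  simp only [hμ, add_mul, sum_add_distrib, ← mul_sum, sum_GG_L L m k hm' hmL' hk', CC, mul_assoc]
  simp

/-- `e` lists `c` increasing numbers with exactly `l` bits and centred block counts `γ` -/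
def Batch (L l c : ℕ) (γ : ℕ → ℕ → ℤ) (e : ℕ → ℕ) : Prop :=
  (∀ r < c, 2 ^ (l - 1) ≤ e r ∧ Dv L l (e r) γ) ∧ ∀ r r', r < r' → r' < c → e r < e r'

theorem exists_batch_bal (L : ℕ) (hL : 1 ≤ L) (n c : ℕ) (hc : c ≤ 2 ^ (n * (2 ^ L * (L - 2)))) :
    ∃ e, Batch L (2 ^ L * L * (n + 1)) c 0 e := by
  obtain ⟨S, hS, hSx⟩ := exists_bal L hL n
  have hcS : c ≤ S.card := hc.trans hS
  refine ⟨fun r => if h : r < S.card then S.orderEmbOfFin rfl ⟨r, h⟩ else 0, ?_, ?_⟩
  · intro r hr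
    have h : r < S.card := by omega
    simp only [h, dif_pos]
    exact hSx _ (S.orderEmbOfFin_mem rfl _)
  · intro r r' h1 h2
    have h : r < S.card := by omega
    have h' : r' < S.card := by omega
    simp only [h, h', dif_pos]
    exact (S.orderEmbOfFin rfl).strictMono (by simpa using h1)

theorem exists_batch_tilt (L : ℕ) (hL : 1 ≤ L) (n c : ℕ) (hc : c ≤ 2 ^ (n * (2 ^ L * (L - 2))))
    (mt kt : ℕ) (hm : 1 ≤ mt) (hmL : mt ∣ L) (hk : kt < 2 ^ mt) (ε : ℤ) (hε : ε = 1 ∨ ε = -1) :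
    ∃ e, Batch L (2 ^ L * L * (n + 1) + (2 ^ L * L) ^ 2) c (fun m k => ε * CC L mt kt m k) e := by
  obtain ⟨e, he1, he2⟩ := exists_batch_bal L hL n c hc
  obtain ⟨y, hy⟩ := exists_tilt L mt kt hL hm hmL hk ε hε
  have hpos : 1 ≤ 2 ^ L * L * (n + 1) :=
    Nat.mul_pos (Nat.mul_pos (Nat.two_pow_pos L) hL) (Nat.succ_pos n)
  refine ⟨fun r => e r * 2 ^ ((2 ^ L * L) ^ 2) + y, fun r hr => ⟨?_, ?_⟩, fun r r' h1 h2 => ?_⟩
  · have e2 : 2 ^ L * L * (n + 1) + (2 ^ L * L) ^ 2 - 1 =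
        (2 ^ L * L * (n + 1) - 1) + (2 ^ L * L) ^ 2 := by omega
    rw [e2, pow_add]
    exact (Nat.mul_le_mul_right _ (he1 r hr).1).trans (Nat.le_add_right _ _)
  · have := (he1 r hr).2.concat hy ((Dvd.intro_left _ rfl).mul_right _)
      (by rw [sq]; exact (Dvd.intro_left _ rfl).mul_right _)
    simpa using this
  · have := he2 r r' h1 h2
    have h3 := Nat.mul_lt_mul_of_pos_right this (Nat.two_pow_pos ((2 ^ L * L) ^ 2))
    simpa using h3

theorem CC_sq_le (L mt kt m k : ℕ) (hm : 1 ≤ mt) (hmL : mt ∣ L) (hk : kt < 2 ^ mt)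
    (hm' : 1 ≤ m) (hmL' : m ∣ L) (hk' : k < 2 ^ m) :
    CC L mt kt m k ^ 2 ≤ ((L / mt : ℕ) * 2 ^ L * (2 ^ mt - 1)) *
      ((L / m : ℕ) * 2 ^ L * (2 ^ m - 1)) := by
  rw [← sum_GG_sq_L L mt kt hm hmL hk, ← sum_GG_sq_L L m k hm' hmL' hk']
  exact sum_mul_sq_le_sq_mul_sq _ _ _

theorem CC_self (L m k : ℕ) (hm : 1 ≤ m) (hmL : m ∣ L) (hk : k < 2 ^ m) :
    CC L m k m k = (L / m : ℕ) * 2 ^ L * (2 ^ m - 1) := by
  rw [← sum_GG_sq_L L m k hm hmL hk]
  exact sum_congr rfl fun u _ => (sq _).symm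

end Pool.Agent.H923Z.CE
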