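import Pool.Agent.H923Z.CEComb

set_option autoImplicit false

open Finset Filter

namespace Pool.Agent.H923Z.CE

theorem locate (cnt : ℕ → ℕ) (hpos : ∀ i, 0 < cnt i) (j : ℕ) :
    ∃ i r, r < cnt i ∧ j = ∑ t ∈ range i, cnt t + r := by
  induction j with
  | zero => exact ⟨0, 0, hpos 0, by simp⟩
  | succ j ih =>
    obtain ⟨i, r, hr, rfl⟩ := ih
    rcases Nat.lt_or_ge (r + 1) (cnt i) with h | h
    · exact ⟨i, r + 1, h, by ring⟩
    · exact ⟨i + 1, 0, hpos _, by rw [sum_range_succ]; omega⟩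

theorem locate_unique (cnt : ℕ → ℕ) {i i' r r' : ℕ} (hr : r < cnt i) (hr' : r' < cnt i')
    (h : ∑ t ∈ range i, cnt t + r = ∑ t ∈ range i', cnt t + r') : i = i' ∧ r = r' := by
  have key : ∀ {i i' r r' : ℕ}, r < cnt i → i < i' →
      ∑ t ∈ range i, cnt t + r < ∑ t ∈ range i', cnt t + r' := by
    intro i i' r r' hr hi
    have : ∑ t ∈ range (i + 1), cnt t ≤ ∑ t ∈ range i', cnt t :=
      sum_le_sum_of_subset (range_subset_range.2 hi)
    rw [sum_range_succ] at this
    omega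
  rcases lt_trichotomy i i' with h1 | h1 | h1
  · exact absurd h (key hr h1).ne
  · subst h1; exact ⟨rfl, by omega⟩
  · exact absurd h (key hr' h1).ne'

theorem exists_concat (cnt : ℕ → ℕ) (hpos : ∀ i, 0 < cnt i) (e : ℕ → ℕ → ℕ) :
    ∃ a : ℕ → ℕ, ∀ i r, r < cnt i → a (∑ t ∈ range i, cnt t + r) = e i r := by
  choose I R hR hj using locate cnt hpos
  refine ⟨fun j => e (I j) (R j), fun i r hr => ?_⟩
  obtain ⟨h1, h2⟩ := locate_unique cnt hr (hR _) (hj _)
  simp only [← h1, ← h2]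

/-- the value of the first `N` binary digits -/
def VV (d : ℕ → ℕ) : ℕ → ℕ
  | 0 => 0
  | N + 1 => 2 * VV d N + d N

theorem floor_eq (d : ℕ → ℕ) (hd : ∀ i, d i < 2) (hz : ∀ N, ∃ i, N ≤ i ∧ d i = 0) (N : ℕ) :
    ⌊(∑' i : ℕ, (d i : ℝ) / (2 : ℝ) ^ (i + 1)) * 2 ^ N⌋ = VV d N := by
  have hg : Summable fun i : ℕ => (1 : ℝ) / 2 ^ (i + 1) := by
    have := summable_geometric_two.mul_left (1 / 2 : ℝ)
    refine this.congr fun i => ?_
    rw [one_div_pow, pow_succ]; ring
  have hg1 : ∑' i : ℕ, (1 : ℝ) / 2 ^ (i + 1) = 1 := by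
    have := tsum_geometric_two' (1 : ℝ)
    refine Eq.trans (tsum_congr fun i => ?_) this
    rw [pow_succ]; ring
  have hle : ∀ M i, (d (i + M) : ℝ) / 2 ^ (i + 1) ≤ 1 / 2 ^ (i + 1) := by
    intro M i
    have : (d (i + M) : ℝ) ≤ 1 := by exact_mod_cast Nat.lt_succ_iff.1 (hd _)
    gcongr
  have hs : ∀ M, Summable fun i : ℕ => (d (i + M) : ℝ) / 2 ^ (i + 1) := fun M =>
    Summable.of_nonneg_of_le (fun i => by positivity) (hle M) hg
  set ξ : ℕ → ℝ := fun M => ∑' i : ℕ, (d (i + M) : ℝ) / 2 ^ (i + 1) with hξ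
  have h0 : ∀ M, 0 ≤ ξ M := fun M => tsum_nonneg fun i => by positivity
  have h1 : ∀ M, ξ M < 1 := by
    intro M
    obtain ⟨i, hi, hdi⟩ := hz M
    rw [← hg1]
    refine (hs M).tsum_lt_tsum (i := i - M) (hle M) ?_ hg
    rw [Nat.sub_add_cancel hi, hdi]
    simp
  have hrec : ∀ M, 2 * ξ M = d M + ξ (M + 1) := by
    intro M
    simp only [hξ]
    rw [(hs M).tsum_eq_zero_add, mul_add, ← tsum_mul_left]
    congr 1
    · simp; ring
    · refine tsum_congr fun i => ?_
      rw [show i + 1 + M = i + (M + 1) by ring, pow_succ _ (i + 1)]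
      field_simp
  have hmain : ∀ M, ξ 0 * 2 ^ M = VV d M + ξ M := by
    intro M
    induction M with
    | zero => simp [VV]
    | succ M ih =>
      rw [pow_succ, ← mul_assoc, ih, VV]
      push_cast
      linarith [hrec M]
  have : (∑' i : ℕ, (d i : ℝ) / (2 : ℝ) ^ (i + 1)) = ξ 0 := by simp [hξ]
  rw [this, hmain, Int.floor_eq_iff]
  push_cast
  constructor <;> linarith [h0 N, h1 N]

theorem len_digits {x l : ℕ} (hl : 1 ≤ l) (h1 : 2 ^ (l - 1) ≤ x) (h2 : x < 2 ^ l) :
    (Nat.digits 2 x).length = l := by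
  have hx : x ≠ 0 := by have := Nat.two_pow_pos (l - 1); omega
  rw [Nat.length_digits 2 x (by norm_num) hx]
  have : Nat.log 2 x = l - 1 := by
    rw [Nat.log_eq_iff (Or.inr ⟨by norm_num, hx⟩)]
    exact ⟨h1, by rwa [Nat.sub_add_cancel hl]⟩
  omega

theorem VV_add (d : ℕ → ℕ) (P l x : ℕ) (hx : x < 2 ^ l)
    (hd : ∀ r < l, d (P + r) = x / 2 ^ (l - 1 - r) % 2) (r : ℕ) (hr : r ≤ l) :
    VV d (P + r) = VV d P * 2 ^ r + x / 2 ^ (l - r) := by
  induction r with
  | zero => simp [Nat.div_eq_of_lt hx]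
  | succ r ih =>
    rw [← add_assoc, VV, ih (by omega), hd r (by omega)]
    obtain ⟨t, rfl⟩ := Nat.exists_eq_add_of_le hr
    have e1 : r + 1 + t - r = t + 1 := by omega
    have e2 : r + 1 + t - 1 - r = t := by omega
    have e3 : r + 1 + t - (r + 1) = t := by omega
    rw [e1, e2, e3, pow_succ 2 t, ← Nat.div_div_eq_div_mul, pow_succ]
    have := Nat.div_add_mod (x / 2 ^ t) 2
    nlinarith

/-- centred count of the block `k` among the first `n` aligned blocks of length `m` -/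
def DD (d : ℕ → ℕ) (m k n : ℕ) : ℤ := ∑ i ∈ range n, hh (2 ^ m) k (VV d (m * (i + 1)) % 2 ^ m)

theorem DD_lip (d : ℕ → ℕ) (m k n t : ℕ) : |DD d m k (n + t) - DD d m k n| ≤ 2 ^ m * t := by
  unfold DD
  rw [sum_range_add, add_sub_cancel_left]
  refine (abs_sum_le_sum_abs _ _).trans ?_
  refine (sum_le_sum fun j _ => abs_hh_le (2 ^ m) k _ Nat.one_le_two_pow).trans ?_
  simp [mul_comm]

theorem DD_step (d : ℕ → ℕ) (m k n q x : ℕ) (hx : x < 2 ^ (m * q))
    (hd : ∀ r < m * q, d (m * n + r) = x / 2 ^ (m * q - 1 - r) % 2) :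
    DD d m k (n + q) = DD d m k n + GG (2 ^ m) k x q := by
  unfold DD GG
  rw [sum_range_add, ← sum_range_reflect (fun j => hh (2 ^ m) k (x / (2 ^ m) ^ j % 2 ^ m))]
  congr 1
  refine sum_congr rfl fun i hi => ?_
  have hi' : i < q := mem_range.1 hi
  congr 1
  have e : m * (n + i + 1) = m * n + m * (i + 1) := by ring
  rw [e, VV_add d _ _ x hx hd _ (Nat.mul_le_mul_left _ hi')]
  obtain ⟨t, rfl⟩ := Nat.exists_eq_add_of_lt hi'
  have e1 : m * (i + t + 1) - m * (i + 1) = m * t := by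
    rw [← Nat.mul_sub]; congr 1; omega
  have e2 : i + t + 1 - 1 - i = t := by omega
  rw [e1, e2, ← pow_mul, mul_add m i 1, mul_one, pow_add, ← mul_assoc, add_comm,
    Nat.add_mul_mod_self_right]

theorem count_eq (d : ℕ → ℕ) (hd : ∀ i, d i < 2) (hz : ∀ N, ∃ i, N ≤ i ∧ d i = 0) (m k n : ℕ) :
    ((((range n).filter (fun i : ℕ =>
        ⌊(∑' i : ℕ, (d i : ℝ) / ((2 : ℕ) : ℝ) ^ (i + 1)) * (((2 : ℕ) : ℝ) ^ m) ^ (i + 1)⌋ %
          (((2 : ℕ) : ℤ) ^ m) = (k : ℤ))).card : ℝ) - (n : ℝ) / ((2 : ℕ) : ℝ) ^ m) =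
      (DD d m k n : ℝ) / 2 ^ m := by
  have h1 : ∀ i : ℕ, (⌊(∑' i : ℕ, (d i : ℝ) / ((2 : ℕ) : ℝ) ^ (i + 1)) *
      (((2 : ℕ) : ℝ) ^ m) ^ (i + 1)⌋ % (((2 : ℕ) : ℤ) ^ m) = (k : ℤ)) ↔
      VV d (m * (i + 1)) % 2 ^ m = k := by
    intro i
    rw [← pow_mul]
    have := floor_eq d hd hz (m * (i + 1))
    simp only [Nat.cast_ofNat]
    rw [this]
    norm_cast
  simp only [h1]
  have h2 : (DD d m k n : ℝ) = 2 ^ m * (((range n).filter fun i : ℕ =>
      VV d (m * (i + 1)) % 2 ^ m = k).card : ℝ) - n := by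
    have : ∀ y, hh (2 ^ m) k y = 2 ^ m * (if y = k then 1 else 0) - 1 := by
      intro y; unfold hh; split_ifs <;> simp
    unfold DD
    simp only [this, sum_sub_distrib, ← mul_sum, sum_boole]
    simp
  rw [h2]
  simp only [Nat.cast_ofNat]
  field_simp

/-- Concatenation of batches of numbers. -/
theorem exists_seq (len cnt : ℕ → ℕ) (e : ℕ → ℕ → ℕ) (hlen : StrictMono len) (hl0 : 1 ≤ len 0)
    (hcnt : ∀ i, 0 < cnt i) (he : ∀ i r, r < cnt i → 2 ^ (len i - 1) ≤ e i r ∧ e i r < 2 ^ len i)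
    (hmono : ∀ i r r', r < r' → r' < cnt i → e i r < e i r') :
    ∃ a : ℕ → ℕ, StrictMono a ∧ (∀ n, 0 < a n) ∧
      (∀ i N, 2 ^ len i ≤ N → cnt i ≤ Nat.card {n : ℕ | a n ≤ N}) ∧
      ∃ d : ℕ → ℕ,
        (∀ n r : ℕ, r < (Nat.digits 2 (a n)).length →
          d ((∑ j ∈ range n, (Nat.digits 2 (a j)).length) + r)
            = ((Nat.digits 2 (a n)).reverse).getD r 0) ∧ (∀ i, d i < 2) ∧
        ∀ i r, r < cnt i → ∀ t < len i,
          d (∑ j ∈ range i, cnt j * len j + r * len i + t) = e i r / 2 ^ (len i - 1 - t) % 2 := by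
  obtain ⟨a, ha⟩ := exists_concat cnt hcnt e
  have hl1 : ∀ i, 1 ≤ len i := fun i => hl0.trans (hlen.monotone (Nat.zero_le i))
  have hsm : StrictMono a := by
    refine strictMono_nat_of_lt_succ fun j => ?_
    obtain ⟨i, r, hr, rfl⟩ := locate cnt hcnt j
    rcases Nat.lt_or_ge (r + 1) (cnt i) with h | h
    · rw [ha i r hr, add_assoc, ha i (r + 1) h]
      exact hmono i r (r + 1) (Nat.lt_succ_self r) h
    · have e1 : ∑ t ∈ range i, cnt t + r + 1 = ∑ t ∈ range (i + 1), cnt t + 0 := by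
        rw [sum_range_succ]; omega
      rw [ha i r hr, e1, ha (i + 1) 0 (hcnt _)]
      refine (he i r hr).2.trans_le (le_trans ?_ (he (i + 1) 0 (hcnt _)).1)
      refine Nat.pow_le_pow_right (by norm_num) ?_
      have := hlen (Nat.lt_succ_self i)
      simp only [Nat.succ_eq_add_one] at this
      omega
  have hlenA : ∀ i r, r < cnt i →
      (Nat.digits 2 (a (∑ t ∈ range i, cnt t + r))).length = len i := by
    intro i r hr
    rw [ha i r hr]
    exact len_digits (hl1 i) (he i r hr).1 (he i r hr).2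
  have hposlen : ∀ j, 0 < (Nat.digits 2 (a j)).length := by
    intro j
    obtain ⟨i, r, hr, rfl⟩ := locate cnt hcnt j
    rw [hlenA i r hr]
    exact hl1 i
  have hsum : ∀ i r, r ≤ cnt i → ∑ j ∈ range (∑ t ∈ range i, cnt t + r),
      (Nat.digits 2 (a j)).length = ∑ j ∈ range i, cnt j * len j + r * len i := by
    intro i
    induction i with
    | zero =>
      intro r hr
      induction r with
      | zero => simp
      | succ r ih =>
        rw [← add_assoc, sum_range_succ, ih (by omega), hlenA 0 r (by omega)]; ring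
    | succ i ihi =>
      intro r hr
      induction r with
      | zero =>
        rw [sum_range_succ, add_zero, ihi (cnt i) le_rfl, sum_range_succ]; simp
      | succ r ih =>
        rw [← add_assoc, sum_range_succ, ih (by omega), hlenA (i + 1) r (by omega)]; ring
  obtain ⟨d, hd⟩ := exists_concat (fun j => (Nat.digits 2 (a j)).length) hposlen
    (fun n r => ((Nat.digits 2 (a n)).reverse).getD r 0)
  have hval : ∀ n r, r < (Nat.digits 2 (a n)).length → ((Nat.digits 2 (a n)).reverse).getD r 0 =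
      a n / 2 ^ ((Nat.digits 2 (a n)).length - 1 - r) % 2 := by
    intro n r hr
    rw [List.getD_reverse r hr]
    exact Nat.getD_digits _ _ le_rfl
  refine ⟨a, hsm, fun n => ?_, fun i N hN => ?_, d, hd, fun x => ?_, fun i r hr t ht => ?_⟩
  · obtain ⟨i, r, hr, rfl⟩ := locate cnt hcnt n
    rw [ha i r hr]
    exact (Nat.two_pow_pos _).trans_le (he i r hr).1
  · have hfin : {n : ℕ | a n ≤ N}.Finite :=
      (Set.finite_Iic N).subset fun n hn => (hsm.le_apply).trans hn
    have hsub : ((range (cnt i)).image fun r => ∑ t ∈ range i, cnt t + r : Finset ℕ) ⊆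
        hfin.toFinset := by
      intro n hn
      obtain ⟨r, hr, rfl⟩ := mem_image.1 hn
      have hr' := mem_range.1 hr
      simp only [Set.Finite.mem_toFinset, Set.mem_ofPred_eq, ha i r hr']
      exact (he i r hr').2.le.trans hN
    have := card_le_card hsub
    rw [card_image_of_injective _ (add_right_injective _), card_range] at this
    rw [Nat.card_coe_set_eq, Set.ncard_eq_toFinset_card _ hfin]
    exact this
  · obtain ⟨n, r, hr, rfl⟩ := locate (fun j => (Nat.digits 2 (a j)).length) hposlen x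
    rw [hd n r hr, hval n r hr]
    exact Nat.mod_lt _ (by norm_num)
  · have h1 := hd (∑ t ∈ range i, cnt t + r) t (by rw [hlenA i r hr]; exact ht)
    rw [hsum i r hr.le, hval _ _ (by rw [hlenA i r hr]; exact ht), hlenA i r hr, ha i r hr] at h1
    exact h1

end Pool.Agent.H923Z.CE
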