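import Pool.Agent.H923Z.CEMain

set_option autoImplicit false

open Finset Filter

namespace Pool.Agent.H923Z.CE

namespace Data
variable (D : Data)

theorem dvd_P (s : ℕ) : D.L (s + 1) ∣ D.P (s + 1) := by
  rw [D.hP]
  exact Nat.dvd_add (D.hF3 s) (((dvd_UU _).mul_right _).mul_left _)

theorem cycle {d : ℕ → ℕ} (hd : D.Real' d) {m k s p p' : ℕ} (hm : 1 ≤ m) (hk : k < 2 ^ m)
    (h1 : m ∣ D.L s) (h2 : m ∣ D.L (s + 1)) (hp : D.P s = m * p) (hp' : D.P (s + 1) = m * p') :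
    (∃ n, m * n = D.P s + D.T s * D.lp s ∧
      DD d m k n = DD d m k p + D.T s * (D.et s * CC (D.L s) (D.mt s) (D.kt s) m k)) ∧
    |DD d m k p' - DD d m k p| ≤ 2 ^ m * D.l (s + 1) ∧
    ∀ n, p ≤ n → n < p' → |DD d m k n| ≤ |DD d m k p| +
      D.T s * |CC (D.L s) (D.mt s) (D.kt s) m k| + 2 * 2 ^ m * D.l (s + 1) := by
  have hU : m ∣ UU (D.L s) := h1.trans (dvd_UU _)
  obtain ⟨q0, hq0⟩ : m ∣ D.lp s :=
    Nat.dvd_add (hU.mul_right _) (by rw [sq]; exact hU.mul_right _)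
  obtain ⟨q1, hq1⟩ : m ∣ D.lm s :=
    Nat.dvd_add (hU.mul_right _) (by rw [sq]; exact hU.mul_right _)
  obtain ⟨q3, hq3⟩ : m ∣ D.l (s + 1) := (h2.trans (dvd_UU _)).mul_right _
  obtain ⟨f, hf⟩ : m ∣ D.F s := by
    have : m ∣ D.P s + D.T s * D.lp s + D.T s * D.lm s + D.F s := h2.trans (D.hF3 s)
    refine (Nat.dvd_add_right ?_).1 this
    rw [hp, hq0, hq1]
    exact ⟨p + D.T s * q0 + D.T s * q1, by ring⟩
  obtain ⟨e0, b0, l0⟩ := hd.up s
  obtain ⟨e1, b1, l1⟩ := hd.down s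
  obtain ⟨e3, b3, l3⟩ := hd.main s
  have hpp : p' = p + D.T s * q0 + D.T s * q1 + f + 2 ^ D.ka (s + 1) * q3 := by
    apply Nat.eq_of_mul_eq_mul_left hm
    rw [← hp', D.hP', hp, hq0, hq1, hf, hq3]
    ring
  have y0 : (q0 : ℤ) ≤ D.l (s + 1) := by
    have := D.lp_le s
    have : q0 ≤ D.l (s + 1) := by nlinarith
    exact_mod_cast this
  have y1 : (q1 : ℤ) ≤ D.l (s + 1) := by
    have := D.lm_lt_F s
    have := D.F_lt_l s
    have : q1 ≤ D.l (s + 1) := by nlinarith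
    exact_mod_cast this
  have y2 : (f : ℤ) ≤ D.l (s + 1) := by
    have := D.F_lt_l s
    have : f ≤ D.l (s + 1) := by nlinarith
    exact_mod_cast this
  have y3 : (q3 : ℤ) ≤ D.l (s + 1) := by
    have : q3 ≤ D.l (s + 1) := by nlinarith
    exact_mod_cast this
  rw [show D.P s + D.T s * D.lp s + D.T s * D.lm s + D.F s =
    m * (p + D.T s * q0 + D.T s * q1 + f) by rw [hp, hq0, hq1, hf]; ring, hq3] at l3
  rw [show D.P s + D.T s * D.lp s = m * (p + D.T s * q0) by rw [hp, hq0]; ring, hq1] at l1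
  rw [hp, hq0] at l0
  rw [hq0] at b0
  rw [hq1] at b1
  rw [hq3] at b3
  have d0 := DD_batch hm h1 hk b0 l0 _ le_rfl
  have d1 := DD_batch hm h1 hk b1 l1 _ le_rfl
  have d3 := DD_batch hm h2 hk b3 l3 _ le_rfl
  have d2 := DD_lip d m k (p + D.T s * q0 + D.T s * q1) f
  set C := CC (D.L s) (D.mt s) (D.kt s) m k with hC
  have d1' : DD d m k (p + D.T s * q0 + D.T s * q1) = DD d m k p := by
    rw [d1, d0]; ring
  have hB : (0 : ℤ) < 2 ^ m := by positivity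
  have hl0 : (0 : ℤ) ≤ D.l (s + 1) := by positivity
  have hC0 : 0 ≤ (D.T s : ℤ) * |C| := by positivity
  have het : |D.et s| = 1 := by rcases (D.ht s).2.2.2 with h | h <;> simp [h]
  have d2' : |DD d m k (p + D.T s * q0 + D.T s * q1 + f) - DD d m k p| ≤
      2 ^ m * D.l (s + 1) := by
    rw [d1'] at d2
    exact d2.trans (by gcongr)
  refine ⟨⟨p + D.T s * q0, by rw [hp, hq0]; ring, d0⟩, ?_, fun n hn1 hn2 => ?_⟩
  · rw [hpp, d3]
    simpa using d2'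
  · have tri : ∀ a b c : ℤ, |a - b| ≤ c → |a| ≤ |b| + c := fun a b c h => by
      have := abs_sub_abs_le_abs_sub a b
      linarith
    have hBl : 0 ≤ (2 : ℤ) ^ m * D.l (s + 1) := by positivity
    rcases Nat.lt_or_ge n (p + D.T s * q0) with c0 | c0
    · obtain ⟨r, hr, h⟩ := DD_batch' hm h1 hk b0 l0 n hn1 c0
      have a1 := tri _ _ _ h
      have a2 : |DD d m k p + r * (D.et s * C)| ≤ |DD d m k p| + D.T s * |C| := by
        refine (abs_add_le _ _).trans ?_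
        rw [abs_mul, abs_mul, het, one_mul, Nat.abs_cast]
        have : (r : ℤ) ≤ D.T s := by exact_mod_cast hr
        gcongr
      have a3 : (2 : ℤ) ^ m * q0 ≤ 2 ^ m * D.l (s + 1) := by gcongr
      linarith
    rcases Nat.lt_or_ge n (p + D.T s * q0 + D.T s * q1) with c1 | c1
    · obtain ⟨r, hr, h⟩ := DD_batch' hm h1 hk b1 l1 n c0 c1
      have a1 := tri _ _ _ h
      have a2 : |DD d m k (p + D.T s * q0) + r * (-D.et s * C)| ≤
          |DD d m k p| + D.T s * |C| := by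
        rw [d0, show DD d m k p + D.T s * (D.et s * C) + r * (-D.et s * C) =
          DD d m k p + (D.T s - r) * (D.et s * C) by ring]
        refine (abs_add_le _ _).trans ?_
        have : (r : ℤ) ≤ D.T s := by exact_mod_cast hr
        rw [abs_mul, abs_mul, het, one_mul, abs_of_nonneg (sub_nonneg.2 this)]
        have : (D.T s : ℤ) - r ≤ D.T s := by linarith [Int.natCast_nonneg r]
        gcongr
      have a3 : (2 : ℤ) ^ m * q1 ≤ 2 ^ m * D.l (s + 1) := by gcongr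
      linarith
    rcases Nat.lt_or_ge n (p + D.T s * q0 + D.T s * q1 + f) with c2 | c2
    · obtain ⟨t, rfl⟩ := Nat.exists_eq_add_of_le c1
      have h := DD_lip d m k (p + D.T s * q0 + D.T s * q1) t
      rw [d1'] at h
      have a1 := tri _ _ _ h
      have : (t : ℤ) ≤ f := by exact_mod_cast (by omega : t ≤ f)
      have a3 : (2 : ℤ) ^ m * t ≤ 2 ^ m * D.l (s + 1) := by gcongr; linarith
      linarith
    · obtain ⟨r, hr, h⟩ := DD_batch' hm h2 hk b3 l3 n c2 (hpp ▸ hn2)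
      simp only [Pi.zero_apply, mul_zero, add_zero] at h
      have a1 := tri _ _ _ h
      have a2 := tri _ _ _ d2'
      have a3 : (2 : ℤ) ^ m * q3 ≤ 2 ^ m * D.l (s + 1) := by gcongr
      linarith

theorem lil {d : ℕ → ℕ} (hd : D.Real' d) {m k : ℕ} (hm : 1 ≤ m) (hk : k < 2 ^ m) (ε : ℝ)
    (hε : 0 < ε) :
    (∀ᶠ n : ℕ in atTop, |(DD d m k n : ℝ) / 2 ^ m / psi n| < √(2 ^ m - 1) / 2 ^ m + ε) ∧
    (∃ᶠ n : ℕ in atTop, √(2 ^ m - 1) / 2 ^ m - ε < (DD d m k n : ℝ) / 2 ^ m / psi n) ∧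
    (∃ᶠ n : ℕ in atTop, √(2 ^ m - 1) / 2 ^ m - ε < -((DD d m k n : ℝ) / 2 ^ m) / psi n) := by
  obtain ⟨s0, hs0⟩ := eventually_atTop.1 (D.hLd m hm)
  have hdv : ∀ s, s0 + 1 ≤ s → D.P s = m * (D.P s / m) := by
    intro s hs
    obtain ⟨t, rfl⟩ := Nat.exists_eq_add_of_le' (show 1 ≤ s by omega)
    exact (Nat.mul_div_cancel' ((hs0 _ (by omega)).trans (D.dvd_P t))).symm
  have hc := fun s (hs : s0 + 1 ≤ s) => D.cycle hd hm hk (hs0 s (by omega)) (hs0 (s + 1) (by omega))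
    (hdv s hs) (hdv (s + 1) (by omega))
  set K : ℤ := |DD d m k (D.P (s0 + 1) / m)| with hK
  have hK0 : 0 ≤ K := abs_nonneg _
  have hacc : ∀ s, s0 + 1 ≤ s → |DD d m k (D.P s / m)| ≤ K + 2 ^ m * (s * D.l s) := by
    intro s hs
    induction s, hs using Nat.le_induction with
    | base => rw [hK]; exact le_add_of_nonneg_right (by positivity)
    | succ s hs ih =>
      have h1 := (hc s hs).2.1
      have h2 := abs_sub_abs_le_abs_sub (DD d m k (D.P (s + 1) / m)) (DD d m k (D.P s / m))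
      have h3 : (D.l s : ℤ) ≤ D.l (s + 1) := by
        exact_mod_cast (D.l_strictMono (Nat.lt_succ_self s)).le
      have h4 : (2 : ℤ) ^ m * (s * D.l s) ≤ 2 ^ m * (s * D.l (s + 1)) := by gcongr
      push_cast
      linarith
  have hB1 : (1 : ℝ) ≤ 2 ^ m := one_le_pow₀ (by norm_num)
  have hy1 : ∀ s, (1 : ℝ) ≤ D.l (s + 1) := fun s => by
    exact_mod_cast (show 1 ≤ D.l (s + 1) by have := D.succ_le_l (s + 1); omega)
  have hacc' : ∀ s, s0 + 1 ≤ s →
      |(DD d m k (D.P s / m) : ℝ)| ≤ 2 ^ m * ((K + 1) * (D.l (s + 1) : ℝ) ^ 2) := by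
    intro s hs
    have h1 : |(DD d m k (D.P s / m) : ℝ)| ≤ K + 2 ^ m * (s * D.l s) := by
      exact_mod_cast hacc s hs
    have h2 : (s : ℝ) ≤ D.l (s + 1) := by
      exact_mod_cast (show s ≤ D.l (s + 1) by have := D.succ_le_l (s + 1); omega)
    have h3 : (D.l s : ℝ) ≤ D.l (s + 1) := by
      exact_mod_cast (D.l_strictMono (Nat.lt_succ_self s)).le
    have h4 : (0 : ℝ) ≤ K := by exact_mod_cast hK0
    have h5 : (s : ℝ) * D.l s ≤ (D.l (s + 1) : ℝ) ^ 2 := by rw [sq]; gcongr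
    have h6 : (K : ℝ) ≤ 2 ^ m * (K * (D.l (s + 1) : ℝ) ^ 2) := by
      have : (1 : ℝ) ≤ 2 ^ m * (D.l (s + 1) : ℝ) ^ 2 :=
        one_le_mul_of_one_le_of_one_le hB1 (one_le_pow₀ (hy1 s))
      nlinarith
    have h7 : (2 : ℝ) ^ m * (s * D.l s) ≤ 2 ^ m * (D.l (s + 1) : ℝ) ^ 2 := by gcongr
    linarith
  have hσ : 0 ≤ √((2 : ℝ) ^ m - 1) / 2 ^ m := by positivity
  have hm' : (0 : ℝ) < m := by exact_mod_cast hm
  have hσe : ∀ y : ℝ, y * √((2 ^ m - 1) / m) = 2 ^ m * (√(2 ^ m - 1) / 2 ^ m * (y / √m)) := by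
    intro y
    rw [Real.sqrt_div (by linarith)]
    field_simp
  have hErr := fun η hη => D.err_small (K + 4) η hη
  have hP := D.P_strictMono.tendsto_atTop
  have low : ∀ e : ℤ, (e = 1 ∨ e = -1) → ∃ᶠ n : ℕ in atTop,
      √(2 ^ m - 1) / 2 ^ m - ε < (e * ((DD d m k n : ℝ) / 2 ^ m)) / psi n := by
    intro e he
    refine lil_lower m hm _ hσ (fun n => e * ((DD d m k n : ℝ) / 2 ^ m)) D.P
      (fun s => (K + 4) * (D.l (s + 1) : ℝ) ^ 2) hP hErr (fun η hη => ?_) ε hε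
    refine ((D.htf m k e hm hk he).and_eventually ((D.T_small η hη).and (D.x_le_T.and
      (eventually_ge_atTop (s0 + 1))))).mono fun s ⟨⟨t1, t2, t3⟩, a1, a2, a3⟩ => ?_
    obtain ⟨n, hn1, hn2⟩ := (hc s a3).1
    refine ⟨n, by omega, ?_, ?_⟩
    · have : (m : ℝ) * n = D.P s + D.T s * D.lp s := by exact_mod_cast hn1
      linarith
    · obtain ⟨b1, b2⟩ := xx_mul_self (D.P s) (D.hL1 s) hm (hs0 s (by omega)) hk
      have hx : D.x s = xx (D.L s) m k (D.P s) := by unfold x; rw [t1, t2]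
      rw [t1, t2, t3] at hn2
      rw [hσe, ← hx] at b1
      have b3 : (e : ℝ) * DD d m k n = e * DD d m k (D.P s / m) + D.T s * CC (D.L s) m k m k := by
        rw [hn2]
        rcases he with rfl | rfl <;> push_cast <;> ring
      have b4 : -|(DD d m k (D.P s / m) : ℝ)| ≤ e * DD d m k (D.P s / m) := by
        rcases he with rfl | rfl
        · simpa using neg_abs_le _
        · simpa using le_abs_self _
      have b5 := hacc' s a3
      have b6 : D.x s * CC (D.L s) m k m k ≤ D.T s * CC (D.L s) m k m k := by gcongr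
      rw [← mul_div_assoc (e : ℝ), le_div_iff₀ (by positivity), b3]
      have b7 : 0 ≤ (2 : ℝ) ^ m * (D.l (s + 1) : ℝ) ^ 2 := by positivity
      nlinarith
  refine ⟨?_, by simpa using low 1 (Or.inl rfl), by simpa using low (-1) (Or.inr rfl)⟩
  refine lil_upper m hm _ hσ (fun n => (DD d m k n : ℝ) / 2 ^ m) D.P
    (fun s => (K + 4) * (D.l (s + 1) : ℝ) ^ 2) hP hErr (fun S => ?_) ε hε
  filter_upwards [eventually_ge_atTop (D.P (max S (s0 + 1)))] with n hn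
  obtain ⟨s, h1, h2, h3⟩ := exists_between D.P D.P_strictMono (max S (s0 + 1)) (m * n)
    (hn.trans (Nat.le_mul_of_pos_left _ hm))
  have hs : s0 + 1 ≤ s := (le_max_right _ _).trans h1
  refine ⟨s, (le_max_left _ _).trans h1, h2, ?_⟩
  have a1 := (hc s hs).2.2 n (Nat.div_le_of_le_mul h2)
    (Nat.lt_of_mul_lt_mul_left (a := m) (by rw [← hdv (s + 1) (by omega)]; exact h3))
  have a2 : |(DD d m k n : ℝ)| ≤ |(DD d m k (D.P s / m) : ℝ)| +
      D.T s * |(CC (D.L s) (D.mt s) (D.kt s) m k : ℝ)| + 2 * 2 ^ m * D.l (s + 1) := by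
    exact_mod_cast a1
  obtain ⟨b1, b2⟩ := xx_mul_le (D.P s) (D.hL1 s) (D.ht s).1 (D.ht s).2.1 (D.ht s).2.2.1 hm
    (hs0 s (by omega)) hk
  rw [hσe] at b1
  have b3 : (UU (D.L s) : ℝ) ^ 2 ≤ D.l (s + 1) := by
    have h := D.lp_le s
    have : UU (D.L s) ^ 2 ≤ D.l (s + 1) := le_trans (Nat.le_add_left _ _) h
    exact_mod_cast this
  have b4 : D.T s * |(CC (D.L s) (D.mt s) (D.kt s) m k : ℝ)| ≤
      (D.x s + 1) * |(CC (D.L s) (D.mt s) (D.kt s) m k : ℝ)| := by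
    gcongr; exact D.T_le_x s
  have b5 := hacc' s hs
  have b6 : (D.l (s + 1) : ℝ) ≤ (D.l (s + 1) : ℝ) ^ 2 := by nlinarith [hy1 s]
  have b7 : (2 : ℝ) ^ m * D.l (s + 1) ≤ 2 ^ m * (D.l (s + 1) : ℝ) ^ 2 := by gcongr
  have b8 : (D.l (s + 1) : ℝ) ≤ 2 ^ m * D.l (s + 1) := le_mul_of_one_le_left (by positivity) hB1
  rw [abs_div, abs_of_pos (by positivity : (0 : ℝ) < 2 ^ m), div_le_iff₀ (by positivity)]
  unfold x at b4
  nlinarith

theorem density {a : ℕ → ℕ}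
    (ha : ∀ s N, 2 ^ D.l (s + 1) ≤ N → 2 ^ D.ka (s + 1) ≤ Nat.card {n : ℕ | a n ≤ N})
    (θ : ℝ) (hθ : θ < 1) :
    ∀ᶠ N : ℕ in atTop, (N : ℝ) ^ θ < (Nat.card {n : ℕ | a n ≤ N} : ℝ) := by
  have h0 : 0 < max θ (1 / 2) := lt_max_of_lt_right (by norm_num)
  obtain ⟨S, hS⟩ := eventually_atTop.1 (D.ka_large (max θ (1 / 2)) h0 (max_lt hθ (by norm_num)))
  filter_upwards [eventually_ge_atTop (2 ^ D.l (S + 1))] with N hN
  obtain ⟨s, h1, h2, h3⟩ := exists_between (fun s => 2 ^ D.l s)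
    (fun s t h => Nat.pow_lt_pow_right (by norm_num) (D.l_strictMono h)) (S + 1) N hN
  obtain ⟨t, rfl⟩ := Nat.exists_eq_add_of_le' (show 1 ≤ s by omega)
  have a1 : (2 : ℝ) ^ D.ka (t + 1) ≤ Nat.card {n : ℕ | a n ≤ N} := by exact_mod_cast ha t N h2
  have a2 : (1 : ℝ) ≤ N := by exact_mod_cast (Nat.two_pow_pos _).trans_le h2
  have a3 : (N : ℝ) < 2 ^ D.l (t + 1 + 1) := by exact_mod_cast h3
  calc (N : ℝ) ^ θ ≤ (N : ℝ) ^ max θ (1 / 2) :=
        Real.rpow_le_rpow_of_exponent_le a2 (le_max_left _ _)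
    _ < ((2 : ℝ) ^ D.l (t + 1 + 1)) ^ max θ (1 / 2) := Real.rpow_lt_rpow (by linarith) a3 h0
    _ = (2 : ℝ) ^ (max θ (1 / 2) * D.l (t + 1 + 1)) := by
        rw [← Real.rpow_natCast, ← Real.rpow_mul (by norm_num), mul_comm]
    _ ≤ (2 : ℝ) ^ (D.ka (t + 1) : ℝ) :=
        Real.rpow_le_rpow_of_exponent_le (by norm_num) (hS _ (by omega))
    _ = (2 : ℝ) ^ D.ka (t + 1) := Real.rpow_natCast _ _
    _ ≤ _ := a1

end Data

end Pool.Agent.H923Z.CE
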