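import Pool.Agent.H923Z.CEStage

set_option autoImplicit false

open Finset Filter

namespace Pool.Agent.H923Z.CE

theorem var_real {L m : ℕ} (hm : 1 ≤ m) (hmL : m ∣ L) :
    (((L / m : ℕ) * 2 ^ L * (2 ^ m - 1) : ℤ) : ℝ) = UU L * ((2 ^ m - 1) / m) := by
  obtain ⟨q, rfl⟩ := hmL
  have : (m : ℝ) ≠ 0 := by positivity
  rw [Nat.mul_div_cancel_left _ (by omega)]
  unfold UU
  push_cast
  field_simp

theorem ratio_bounds {L m : ℕ} (hL : 1 ≤ L) (hm : 1 ≤ m) (hmL : m ∣ L) :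
    (1 : ℝ) ≤ (2 ^ m - 1) / m ∧ ((2 : ℝ) ^ m - 1) / m ≤ UU L := by
  have hm' : (1 : ℝ) ≤ m := by exact_mod_cast hm
  constructor
  · rw [le_div_iff₀ (by linarith)]
    have : m + 1 ≤ 2 ^ m := Nat.lt_two_pow_self
    have : (m : ℝ) + 1 ≤ 2 ^ m := by exact_mod_cast this
    linarith
  · have h1 : 2 ^ m ≤ UU L := (Nat.pow_le_pow_right (by norm_num) (Nat.le_of_dvd hL hmL)).trans
      (Nat.le_mul_of_pos_right _ hL)
    have h2 : (2 : ℝ) ^ m ≤ UU L := by exact_mod_cast h1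
    have h3 : (1 : ℝ) ≤ 2 ^ m := one_le_pow₀ (by norm_num)
    refine (div_le_self (by linarith) hm').trans (by linarith)

theorem psi_nonneg (y : ℝ) : 0 ≤ psi y := Real.sqrt_nonneg _

theorem xx_mul_le {L mt kt m k : ℕ} (P : ℕ) (hL : 1 ≤ L) (hm : 1 ≤ mt) (hmL : mt ∣ L)
    (hk : kt < 2 ^ mt) (hm' : 1 ≤ m) (hmL' : m ∣ L) (hk' : k < 2 ^ m) :
    xx L mt kt P * |(CC L mt kt m k : ℝ)| ≤ psi P * √((2 ^ m - 1) / m) ∧
      |(CC L mt kt m k : ℝ)| ≤ UU L ^ 2 := by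
  have h1 : ((CC L mt kt m k : ℤ) : ℝ) ^ 2 ≤
      (UU L * ((2 ^ mt - 1) / mt)) * (UU L * ((2 ^ m - 1) / m)) := by
    rw [← var_real hm hmL, ← var_real hm' hmL']
    exact_mod_cast CC_sq_le L mt kt m k hm hmL hk hm' hmL' hk'
  obtain ⟨a1, a2⟩ := ratio_bounds hL hm hmL
  obtain ⟨b1, b2⟩ := ratio_bounds hL hm' hmL'
  have hU : (1 : ℝ) ≤ UU L := by exact_mod_cast UU_pos hL
  constructor
  · unfold xx
    rw [CC_self L mt kt hm hmL hk, var_real hm hmL, div_mul_eq_mul_div, mul_div_assoc]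
    refine mul_le_mul_of_nonneg_left ?_ (psi_nonneg _)
    rw [div_le_iff₀ (by positivity), ← Real.sqrt_mul (by linarith)]
    apply Real.abs_le_sqrt
    refine h1.trans (le_of_eq ?_)
    ring
  · apply abs_le_of_sq_le_sq' _ (by positivity) |> abs_le.2
    refine h1.trans ?_
    calc (UU L * ((2 ^ mt - 1) / mt)) * (UU L * ((2 ^ m - 1) / m) : ℝ)
        ≤ (UU L * UU L) * (UU L * UU L) := by gcongr
      _ = ((UU L : ℝ) ^ 2) ^ 2 := by ring

theorem xx_mul_self {L m k : ℕ} (P : ℕ) (hL : 1 ≤ L) (hm : 1 ≤ m) (hmL : m ∣ L)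
    (hk : k < 2 ^ m) :
    xx L m k P * (CC L m k m k : ℝ) = psi P * √((2 ^ m - 1) / m) ∧ (0 : ℝ) ≤ CC L m k m k := by
  obtain ⟨a1, a2⟩ := ratio_bounds hL hm hmL
  have hU : (1 : ℝ) ≤ UU L := by exact_mod_cast UU_pos hL
  unfold xx
  rw [CC_self L m k hm hmL hk, var_real hm hmL]
  refine ⟨?_, by positivity⟩
  set v : ℝ := (2 ^ m - 1) / m
  have hv : 0 < √v := Real.sqrt_pos.2 (by linarith)
  rw [← mul_assoc (UU L : ℝ), Real.sqrt_mul (by positivity), Real.sqrt_mul_self (by linarith)]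
  field_simp
  rw [Real.sq_sqrt (by linarith)]

theorem xx_le {L m k : ℕ} (P : ℕ) (hL : 1 ≤ L) (hm : 1 ≤ m) (hmL : m ∣ L)
    (hk : k < 2 ^ m) : 0 ≤ xx L m k P ∧ xx L m k P ≤ psi P := by
  obtain ⟨a1, a2⟩ := ratio_bounds hL hm hmL
  have hU : (1 : ℝ) ≤ UU L := by exact_mod_cast UU_pos hL
  unfold xx
  refine ⟨div_nonneg (psi_nonneg _) (Real.sqrt_nonneg _), div_le_self (psi_nonneg _) ?_⟩
  rw [CC_self L m k hm hmL hk, var_real hm hmL, Real.one_le_sqrt]
  exact one_le_mul_of_one_le_of_one_le hU (one_le_mul_of_one_le_of_one_le hU a1)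

namespace Data
variable (D : Data)

/-- real size at stage `s` -/
noncomputable def x (s : ℕ) : ℝ := xx (D.L s) (D.mt s) (D.kt s) (D.P s)

theorem x_bounds (s : ℕ) : 0 ≤ D.x s ∧ D.x s ≤ psi (D.P s) :=
  xx_le _ (D.hL1 s) (D.ht s).1 (D.ht s).2.1 (D.ht s).2.2.1

theorem T_le_x (s : ℕ) : (D.T s : ℝ) ≤ D.x s + 1 := by
  have h1 : D.T s ≤ ⌊D.x s⌋₊ + 1 := by rw [D.hT]; exact min_le_right _ _
  have h2 : (D.T s : ℝ) ≤ ⌊D.x s⌋₊ + 1 := by exact_mod_cast h1
  linarith [Nat.floor_le (D.x_bounds s).1]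

theorem P_lower' : ∀ᶠ s in atTop, 2 ^ D.ka s ≤ D.P s := by
  filter_upwards [eventually_ge_atTop 1] with s hs
  obtain ⟨t, rfl⟩ := Nat.exists_eq_add_of_le' hs
  exact D.P_lower t

theorem x_small (η : ℝ) (hη : 0 < η) :
    ∀ᶠ s in atTop, (D.x s + 1) * D.l (s + 1) ≤ η * 2 ^ D.ka s := by
  filter_upwards [D.sizes (3 / η), D.P_strictMono.tendsto_atTop.eventually_ge_atTop 2]
    with s ⟨w, h1, h2, h3, h4⟩ hP
  have a1 := (D.x_bounds s).2.trans (psi_le hP (D.P_upper s))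
  have a2 : (D.l s : ℝ) ≤ D.l (s + 1) := by exact_mod_cast (D.l_strictMono (Nat.lt_succ_self s)).le
  have a3 : (1 : ℝ) ≤ D.l (s + 1) := by
    exact_mod_cast (show 1 ≤ D.l (s + 1) by have := D.succ_le_l (s + 1); omega)
  set y : ℝ := (D.l (s + 1) : ℝ)
  have a4 : D.x s ≤ 2 * y * w ^ 2 := a1.trans (by gcongr)
  have a5 : 1 ≤ y * w ^ 2 := one_le_mul_of_one_le_of_one_le a3 (one_le_pow₀ h1)
  have a6 : 3 * y ^ 2 ≤ η * w := by
    rw [div_mul_eq_mul_div, div_le_iff₀ hη] at h2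
    linarith
  calc (D.x s + 1) * y ≤ (3 * y * w ^ 2) * y := by gcongr; linarith
    _ = (3 * y ^ 2) * w ^ 2 := by ring
    _ ≤ (η * w) * w ^ 2 := by gcongr
    _ = η * w ^ 3 := by ring
    _ ≤ η * 2 ^ D.ka s := by gcongr

theorem x_le_T : ∀ᶠ s in atTop, D.x s ≤ D.T s := by
  filter_upwards [D.x_small 1 one_pos] with s hs
  have a3 : (1 : ℝ) ≤ D.l (s + 1) := by
    exact_mod_cast (show 1 ≤ D.l (s + 1) by have := D.succ_le_l (s + 1); omega)
  have h0 := (D.x_bounds s).1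
  have h1 : (⌊D.x s⌋₊ : ℝ) + 1 ≤ 2 ^ D.ka s := by nlinarith [Nat.floor_le h0]
  have h2 : ⌊D.x s⌋₊ + 1 ≤ 2 ^ D.ka s := by exact_mod_cast h1
  have h3 : D.T s = ⌊D.x s⌋₊ + 1 := by rw [D.hT]; exact min_eq_right h2
  rw [h3]
  push_cast
  exact (Nat.lt_floor_add_one _).le

theorem lp_le (s : ℕ) : D.lp s ≤ D.l (s + 1) := by
  have := D.lp_lt_lm s
  have := D.lm_lt_F s
  have := D.F_lt_l s
  omega

theorem T_small (η : ℝ) (hη : 0 < η) :
    ∀ᶠ s in atTop, (D.T s : ℝ) * D.lp s ≤ η * D.P s := by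
  filter_upwards [D.x_small η hη, D.P_lower'] with s h1 h2
  have a1 : (D.lp s : ℝ) ≤ D.l (s + 1) := by exact_mod_cast D.lp_le s
  have a2 : (2 : ℝ) ^ D.ka s ≤ D.P s := by exact_mod_cast h2
  have a3 := D.T_le_x s
  have a4 := (D.x_bounds s).1
  calc (D.T s : ℝ) * D.lp s ≤ (D.x s + 1) * D.l (s + 1) := by gcongr
    _ ≤ η * 2 ^ D.ka s := h1
    _ ≤ η * D.P s := by gcongr

theorem err_small (A η : ℝ) (hη : 0 < η) :
    ∀ᶠ s in atTop, A * (D.l (s + 1) : ℝ) ^ 2 ≤ η * √(D.P s) := by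
  filter_upwards [D.sizes (A / η), D.P_lower'] with s ⟨w, h1, h2, h3, _⟩ hP
  have a2 : (2 : ℝ) ^ D.ka s ≤ D.P s := by exact_mod_cast hP
  have a3 : w ≤ √(D.P s) := Real.le_sqrt_of_sq_le (by nlinarith [sq_nonneg w])
  rw [div_mul_eq_mul_div, div_le_iff₀ hη] at h2
  nlinarith

/-- the digit sequence realises the stage structure -/
structure Real' (d : ℕ → ℕ) : Prop where
  up : ∀ s, ∃ e, Batch (D.L s) (D.lp s) (D.T s)
    (fun m k => D.et s * CC (D.L s) (D.mt s) (D.kt s) m k) e ∧ Lists d (D.P s) (D.lp s) (D.T s) e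
  down : ∀ s, ∃ e, Batch (D.L s) (D.lm s) (D.T s)
    (fun m k => -D.et s * CC (D.L s) (D.mt s) (D.kt s) m k) e ∧
      Lists d (D.P s + D.T s * D.lp s) (D.lm s) (D.T s) e
  main : ∀ s, ∃ e, Batch (D.L (s + 1)) (D.l (s + 1)) (2 ^ D.ka (s + 1)) 0 e ∧
      Lists d (D.P s + D.T s * D.lp s + D.T s * D.lm s + D.F s) (D.l (s + 1))
        (2 ^ D.ka (s + 1)) e

theorem exists_digits : ∃ a : ℕ → ℕ, StrictMono a ∧ (∀ n, 0 < a n) ∧
      (∀ s N, 2 ^ D.l (s + 1) ≤ N → 2 ^ D.ka (s + 1) ≤ Nat.card {n : ℕ | a n ≤ N}) ∧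
      ∃ d : ℕ → ℕ,
        (∀ n r : ℕ, r < (Nat.digits 2 (a n)).length →
          d ((∑ j ∈ range n, (Nat.digits 2 (a j)).length) + r)
            = ((Nat.digits 2 (a n)).reverse).getD r 0) ∧ (∀ i, d i < 2) ∧
        (∀ N, ∃ i, N ≤ i ∧ d i = 0) ∧ D.Real' d := by
  have h0 : ∀ s, ∃ e, Batch (D.L s) (D.lp s) (D.T s)
      (fun m k => D.et s * CC (D.L s) (D.mt s) (D.kt s) m k) e := fun s =>
    exists_batch_tilt _ (D.hL1 s) (D.n s) _ (D.T_le s) _ _ (D.ht s).1 (D.ht s).2.1 (D.ht s).2.2.1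
      _ (D.ht s).2.2.2
  have h1 : ∀ s, ∃ e, Batch (D.L s) (D.lm s) (D.T s)
      (fun m k => -D.et s * CC (D.L s) (D.mt s) (D.kt s) m k) e := fun s =>
    exists_batch_tilt _ (D.hL1 s) (D.n s + 1) _ ((D.T_le s).trans
      (Nat.pow_le_pow_right (by norm_num) (Nat.mul_le_mul_right _ (Nat.le_succ _)))) _ _
      (D.ht s).1 (D.ht s).2.1 (D.ht s).2.2.1 _ (by rcases (D.ht s).2.2.2 with h | h <;> simp [h])
  have h3 : ∀ s, ∃ e, Batch (D.L (s + 1)) (D.l (s + 1)) (2 ^ D.ka (s + 1)) 0 e := fun s =>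
    exists_batch_bal _ (D.hL1 _) (D.n (s + 1)) _ le_rfl
  choose e0 he0 using h0
  choose e1 he1 using h1
  choose e3 he3 using h3
  let len := q4 D.lp D.lm D.F fun s => D.l (s + 1)
  let cnt := q4 D.T D.T (fun _ => 1) fun s => 2 ^ D.ka (s + 1)
  let e := q4 e0 e1 (fun s _ => 2 ^ (D.F s - 1)) e3
  have hF2 : ∀ s, 2 ≤ D.F s := fun s => by
    have := D.succ_le_l s
    have := D.l_lt_lp s
    have := D.lp_lt_lm s
    have := D.lm_lt_F s
    omega
  obtain ⟨a, ha1, ha2, ha3, d, hd1, hd2, hd3⟩ := exists_seq len cnt e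
    (strictMono_nat_of_lt_succ (cases4 _
      (fun s => by simp only [len, q4_0, q4_1]; exact D.lp_lt_lm s)
      (fun s => by simp only [len, add_assoc, Nat.reduceAdd, q4_1, q4_2]; exact D.lm_lt_F s)
      (fun s => by simp only [len, add_assoc, Nat.reduceAdd, q4_2, q4_3]; exact D.F_lt_l s)
      (fun s => by
        rw [show 4 * s + 3 + 1 = 4 * (s + 1) by ring]
        simp only [len, q4_0, q4_3]; exact D.l_lt_lp _)))
    (by
      have := q4_0 D.lp D.lm D.F (fun s => D.l (s + 1)) 0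
      have h := D.l_lt_lp 0
      simp only [mul_zero] at this
      simp only [len, this]
      omega)
    (cases4 _ (fun s => by simp only [cnt, q4_0]; exact D.T_pos s)
      (fun s => by simp only [cnt, q4_1]; exact D.T_pos s)
      (fun s => by simp only [cnt, q4_2]; exact Nat.one_pos)
      (fun s => by simp only [cnt, q4_3]; exact Nat.two_pow_pos _))
    (cases4 _
      (fun s => by
        simp only [len, cnt, e, q4_0]; exact fun r hr => ⟨((he0 s).1 r hr).1, ((he0 s).1 r hr).2.1⟩)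
      (fun s => by
        simp only [len, cnt, e, q4_1]; exact fun r hr => ⟨((he1 s).1 r hr).1, ((he1 s).1 r hr).2.1⟩)
      (fun s => by
        simp only [len, cnt, e, q4_2]
        exact fun r _ => ⟨le_rfl, Nat.pow_lt_pow_right (by norm_num) (by have := hF2 s; omega)⟩)
      (fun s => by
        simp only [len, cnt, e, q4_3]
        exact fun r hr => ⟨((he3 s).1 r hr).1, ((he3 s).1 r hr).2.1⟩))
    (cases4 _ (fun s => by simp only [cnt, e, q4_0]; exact (he0 s).2)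
      (fun s => by simp only [cnt, e, q4_1]; exact (he1 s).2)
      (fun s => by simp only [cnt, e, q4_2]; intro r r' h1 h2; omega)
      (fun s => by simp only [cnt, e, q4_3]; exact (he3 s).2))
  have s1 : ∀ s, ∑ j ∈ range (4 * s + 1), cnt j * len j =
      ∑ j ∈ range (4 * s), cnt j * len j + D.T s * D.lp s := fun s => by
    rw [sum_range_succ]; simp only [len, cnt, q4_0]
  have s2 : ∀ s, ∑ j ∈ range (4 * s + 2), cnt j * len j =
      ∑ j ∈ range (4 * s), cnt j * len j + D.T s * D.lp s + D.T s * D.lm s := fun s => by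
    rw [sum_range_succ, s1]; simp only [len, cnt, q4_1]
  have s3 : ∀ s, ∑ j ∈ range (4 * s + 3), cnt j * len j =
      ∑ j ∈ range (4 * s), cnt j * len j + D.T s * D.lp s + D.T s * D.lm s + D.F s := fun s => by
    rw [sum_range_succ, s2]; simp only [len, cnt, q4_2, one_mul]
  have s0 : ∀ s, ∑ j ∈ range (4 * s), cnt j * len j = D.P s := by
    intro s
    induction s with
    | zero => simp [D.hP0]
    | succ s ih =>
      rw [show 4 * (s + 1) = 4 * s + 3 + 1 by ring, sum_range_succ, s3, ih, D.hP']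
      simp only [len, cnt, q4_3]
  refine ⟨a, ha1, ha2, fun s N hN => ?_, d, hd1, hd2, fun N => ?_, fun s => ⟨e0 s, he0 s, ?_⟩,
    fun s => ⟨e1 s, he1 s, ?_⟩, fun s => ⟨e3 s, he3 s, ?_⟩⟩
  · have := ha3 (4 * s + 3) N
    simp only [len, cnt, q4_3] at this
    exact this hN
  · have := hd3 (4 * N + 2) 0
    rw [s2, s0] at this
    simp only [len, cnt, e, q4_2] at this
    have h2 := hF2 N
    have h3 := this Nat.one_pos (D.F N - 1) (by omega)
    refine ⟨_, ?_, h3.trans ?_⟩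
    · have := D.P_strictMono.le_apply (x := N)
      omega
    · obtain ⟨t, ht⟩ := Nat.exists_eq_add_of_le' h2
      rw [ht]
      simp [pow_succ]
  · have := hd3 (4 * s)
    rw [s0] at this
    simp only [len, cnt, e, q4_0] at this
    exact this
  · have := hd3 (4 * s + 1)
    rw [s1, s0] at this
    simp only [len, cnt, e, q4_1] at this
    exact this
  · have := hd3 (4 * s + 3)
    rw [s3, s0] at this
    simp only [len, cnt, e, q4_3] at this
    exact this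

end Data

end Pool.Agent.H923Z.CE
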