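import Pool.Agent.H923Z.CEDigits
import Pool.Agent.H923Z.CEAnalysis

set_option autoImplicit false

open Finset Filter

namespace Pool.Agent.H923Z.CE

theorem exists_L : ∃ L : ℕ → ℕ, (∀ s, 1 ≤ L s) ∧ Monotone L ∧
    (∀ m, 1 ≤ m → ∀ᶠ s in atTop, m ∣ L s) ∧ ∀ᶠ s in atTop, (2 ^ L s * L s) ^ 3 ≤ s := by
  classical
  let Z : ℕ → ℕ := fun t => (2 ^ t.factorial * t.factorial) ^ 3
  let φ : ℕ → ℕ := fun s => Nat.findGreatest (fun t => Z t ≤ s) s
  have hφ : ∀ t s, max t (Z t) ≤ s → t ≤ φ s := fun t s h =>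
    Nat.le_findGreatest ((le_max_left _ _).trans h) ((le_max_right _ _).trans h)
  refine ⟨fun s => (φ s).factorial, fun s => Nat.factorial_pos _, fun s s' h => ?_,
    fun m hm => ?_, ?_⟩
  · exact Nat.factorial_le (Nat.findGreatest_mono (fun t ht => le_trans ht h) h)
  · filter_upwards [eventually_ge_atTop (max m (Z m))] with s hs
    exact Nat.dvd_factorial hm (hφ m s hs)
  · filter_upwards [eventually_ge_atTop (max 0 (Z 0))] with s hs
    exact Nat.findGreatest_spec (P := fun t => Z t ≤ s) (Nat.zero_le s)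
      ((le_max_right _ _).trans hs)

theorem exists_target (L : ℕ → ℕ) (hL : ∀ m, 1 ≤ m → ∀ᶠ s in atTop, m ∣ L s) :
    ∃ (mt kt : ℕ → ℕ) (et : ℕ → ℤ),
      (∀ s, 1 ≤ mt s ∧ mt s ∣ L s ∧ kt s < 2 ^ mt s ∧ (et s = 1 ∨ et s = -1)) ∧
      ∀ m k (ε : ℤ), 1 ≤ m → k < 2 ^ m → (ε = 1 ∨ ε = -1) →
        ∃ᶠ s in atTop, mt s = m ∧ kt s = k ∧ et s = ε := by
  classical
  obtain ⟨g, hg⟩ := exists_surjective_nat (ℕ × ℕ × ℤ)
  let ok : ℕ → ℕ × ℕ × ℤ → Prop := fun s z =>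
    1 ≤ z.1 ∧ z.1 ∣ L s ∧ z.2.1 < 2 ^ z.1 ∧ (z.2.2 = 1 ∨ z.2.2 = -1)
  let t : ℕ → ℕ × ℕ × ℤ := fun s => if ok s (g s.unpair.1) then g s.unpair.1 else (1, 0, 1)
  refine ⟨fun s => (t s).1, fun s => (t s).2.1, fun s => (t s).2.2, fun s => ?_,
    fun m k ε hm hk hε => ?_⟩
  · show ok s (t s)
    by_cases h : ok s (g s.unpair.1)
    · simp only [t, if_pos h]; exact h
    · simp only [t, if_neg h]; simp [ok]
  · obtain ⟨z, hz⟩ := hg (m, k, ε)
    have hf : ∃ᶠ s in atTop, (Nat.unpair s).1 = z := by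
      rw [frequently_atTop]
      intro j
      exact ⟨Nat.pair z j, Nat.right_le_pair _ _, by simp⟩
    refine (hf.and_eventually (hL m hm)).mono fun s hs => ?_
    have hok : ok s (g s.unpair.1) := by
      rw [hs.1, hz]; exact ⟨hm, hs.2, hk, hε⟩
    simp only [t, if_pos hok]
    rw [hs.1, hz]
    exact ⟨rfl, rfl, rfl⟩

theorem exists_between (P : ℕ → ℕ) (hP : StrictMono P) (S x : ℕ) (hx : P S ≤ x) :
    ∃ s, S ≤ s ∧ P s ≤ x ∧ x < P (s + 1) := by
  classical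
  have hex : ∃ j, x < P (j + 1) := ⟨x, (Nat.lt_succ_self x).trans_le hP.le_apply⟩
  refine ⟨Nat.find hex, ?_, ?_, Nat.find_spec hex⟩
  · by_contra h
    push Not at h
    have := Nat.find_spec hex
    have := hP.monotone (Nat.succ_le_of_lt h)
    simp only [Nat.succ_eq_add_one] at this
    omega
  · rcases Nat.eq_zero_or_pos (Nat.find hex) with h | h
    · rw [h]; exact (hP.monotone (Nat.zero_le S)).trans hx
    · have := Nat.find_min hex (Nat.sub_lt h Nat.one_pos)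
      rw [Nat.sub_add_cancel h] at this
      omega

/-- interleaving of four sequences -/
def q4 {α : Type} (f0 f1 f2 f3 : ℕ → α) (i : ℕ) : α :=
  if i % 4 = 0 then f0 (i / 4) else if i % 4 = 1 then f1 (i / 4)
  else if i % 4 = 2 then f2 (i / 4) else f3 (i / 4)

section
variable {α : Type} (f0 f1 f2 f3 : ℕ → α) (s : ℕ)
theorem q4_0 : q4 f0 f1 f2 f3 (4 * s) = f0 s := by
  have h1 : 4 * s % 4 = 0 := by omega
  have h2 : 4 * s / 4 = s := by omega
  simp [q4, h1, h2]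
theorem q4_1 : q4 f0 f1 f2 f3 (4 * s + 1) = f1 s := by
  have h1 : (4 * s + 1) % 4 = 1 := by omega
  have h2 : (4 * s + 1) / 4 = s := by omega
  simp [q4, h1, h2]
theorem q4_2 : q4 f0 f1 f2 f3 (4 * s + 2) = f2 s := by
  have h1 : (4 * s + 2) % 4 = 2 := by omega
  have h2 : (4 * s + 2) / 4 = s := by omega
  simp [q4, h1, h2]
theorem q4_3 : q4 f0 f1 f2 f3 (4 * s + 3) = f3 s := by
  have h1 : (4 * s + 3) % 4 = 3 := by omega
  have h2 : (4 * s + 3) / 4 = s := by omega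
  simp [q4, h1, h2]
end

theorem cases4 (p : ℕ → Prop) (h0 : ∀ s, p (4 * s)) (h1 : ∀ s, p (4 * s + 1))
    (h2 : ∀ s, p (4 * s + 2)) (h3 : ∀ s, p (4 * s + 3)) (i : ℕ) : p i := by
  have : i = 4 * (i / 4) ∨ i = 4 * (i / 4) + 1 ∨ i = 4 * (i / 4) + 2 ∨ i = 4 * (i / 4) + 3 := by
    omega
  rcases this with h | h | h | h <;> rw [h]
  exacts [h0 _, h1 _, h2 _, h3 _]

/-- the digits `d` list the batch `e` from position `P` on -/
def Lists (d : ℕ → ℕ) (P l c : ℕ) (e : ℕ → ℕ) : Prop :=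
  ∀ r, r < c → ∀ t < l, d (P + r * l + t) = e r / 2 ^ (l - 1 - t) % 2

theorem DD_batch {d : ℕ → ℕ} {L m k n q c : ℕ} {γ : ℕ → ℕ → ℤ} {e : ℕ → ℕ} (hm : 1 ≤ m)
    (hmL : m ∣ L) (hk : k < 2 ^ m) (hB : Batch L (m * q) c γ e)
    (hd : Lists d (m * n) (m * q) c e) (r : ℕ) (hr : r ≤ c) :
    DD d m k (n + r * q) = DD d m k n + r * γ m k := by
  induction r with
  | zero => simp
  | succ r ih =>
    have h1 := (hB.1 r (by omega)).2
    have h2 := h1.2 m k hm hmL hk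
    rw [Nat.mul_div_cancel_left _ (by omega)] at h2
    rw [Nat.succ_mul, ← add_assoc, DD_step d m k (n + r * q) q (e r) h1.1, ih (by omega), h2]
    · push_cast; ring
    · intro t ht
      rw [← hd r (by omega) t ht]
      congr 1
      ring

theorem DD_batch' {d : ℕ → ℕ} {L m k n q c : ℕ} {γ : ℕ → ℕ → ℤ} {e : ℕ → ℕ} (hm : 1 ≤ m)
    (hmL : m ∣ L) (hk : k < 2 ^ m) (hB : Batch L (m * q) c γ e)
    (hd : Lists d (m * n) (m * q) c e) (x : ℕ) (h1 : n ≤ x) (h2 : x < n + c * q) :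
    ∃ r : ℕ, r ≤ c ∧ |DD d m k x - (DD d m k n + r * γ m k)| ≤ 2 ^ m * q := by
  obtain ⟨t, rfl⟩ := Nat.exists_eq_add_of_le h1
  have hq : 0 < q := by
    rcases Nat.eq_zero_or_pos q with h | h
    · subst h; omega
    · exact h
  have hr : t / q ≤ c := by
    apply le_of_lt
    rw [Nat.div_lt_iff_lt_mul hq]
    omega
  refine ⟨t / q, hr, ?_⟩
  rw [← DD_batch hm hmL hk hB hd _ hr]
  have e1 : n + t = n + t / q * q + t % q := by
    rw [add_assoc, Nat.div_add_mod']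
  rw [e1]
  refine (DD_lip d m k _ _).trans ?_
  have : ((t % q : ℕ) : ℤ) ≤ q := by exact_mod_cast (Nat.mod_lt t hq).le
  gcongr

theorem psi_le {P l : ℕ} (hP : 2 ≤ P) (h : P ≤ l * 2 ^ l) : psi P ≤ 2 * l * √(2 ^ l) := by
  have hP' : (2 : ℝ) ≤ P := by exact_mod_cast hP
  have h' : (P : ℝ) ≤ l * 2 ^ l := by exact_mod_cast h
  have hlog : 0 < Real.log P := Real.log_pos (by linarith)
  have h1 : Real.log (Real.log P) ≤ Real.log P := (Real.log_le_sub_one_of_pos hlog).trans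
    (by linarith)
  have h2 : Real.log P ≤ 2 * l := by
    rw [Real.log_le_iff_le_exp (by linarith)]
    have a1 : (l : ℝ) ≤ Real.exp l := by linarith [Real.add_one_le_exp (l : ℝ)]
    have a2 : (2 : ℝ) ^ l ≤ Real.exp l := by
      rw [← Real.exp_one_pow]
      exact pow_le_pow_left₀ (by norm_num) (by linarith [Real.add_one_le_exp (1 : ℝ)]) l
    rw [two_mul, Real.exp_add]
    exact h'.trans (mul_le_mul a1 a2 (by positivity) (by positivity))
  unfold psi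
  rw [← Real.sqrt_sq (by positivity : (0 : ℝ) ≤ 2 * l), ← Real.sqrt_mul (sq_nonneg _)]
  apply Real.sqrt_le_sqrt
  calc 2 * (P : ℝ) * Real.log (Real.log P) ≤ 2 * P * (2 * l) := by gcongr; linarith
    _ ≤ 2 * (l * 2 ^ l) * (2 * l) := by gcongr
    _ = (2 * l) ^ 2 * 2 ^ l := by ring

theorem poly_le_exp (A : ℝ) : ∀ᶠ j : ℕ in atTop, A * (j : ℝ) ^ 2 ≤ 2 ^ j := by
  have h := (tendsto_pow_const_div_const_pow_of_one_lt 2 (r := (2 : ℝ)) (by norm_num)).const_mul A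
  rw [mul_zero] at h
  filter_upwards [h.eventually (gt_mem_nhds one_pos)] with j hj
  rw [← mul_div_assoc, div_lt_one (by positivity)] at hj
  exact hj.le

end Pool.Agent.H923Z.CE
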