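import Pool.Agent.H923Z.CEParams

set_option autoImplicit false

open Finset Filter

namespace Pool.Agent.H923Z.CE

/-- length of one permutation block -/
def UU (L : ℕ) : ℕ := 2 ^ L * L
/-- binary logarithm of the number of balanced words used -/
def kap (L n : ℕ) : ℕ := n * (2 ^ L * (L - 2))
/-- length of the main batch -/
def ell (L n : ℕ) : ℕ := UU L * (n + 1)
/-- length of the first tilted batch -/
def elp (L n : ℕ) : ℕ := UU L * (n + 1) + UU L ^ 2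
/-- length of the second tilted batch -/
def elm (L n : ℕ) : ℕ := UU L * (n + 1 + 1) + UU L ^ 2
/-- real size of the tilted batches -/
noncomputable def xx (L mt kt P : ℕ) : ℝ := psi P / √(UU L * CC L mt kt mt kt)

/-- the parameters of the construction -/
structure Data where
  L : ℕ → ℕ
  mt : ℕ → ℕ
  kt : ℕ → ℕ
  et : ℕ → ℤ
  P : ℕ → ℕ
  n : ℕ → ℕ
  T : ℕ → ℕ
  F : ℕ → ℕ
  hL1 : ∀ s, 1 ≤ L s
  hLm : Monotone L
  hLd : ∀ m, 1 ≤ m → ∀ᶠ s in atTop, m ∣ L s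
  hLs : ∀ᶠ s in atTop, UU (L s) ^ 3 ≤ s
  ht : ∀ s, 1 ≤ mt s ∧ mt s ∣ L s ∧ kt s < 2 ^ mt s ∧ (et s = 1 ∨ et s = -1)
  htf : ∀ m k (ε : ℤ), 1 ≤ m → k < 2 ^ m → (ε = 1 ∨ ε = -1) →
    ∃ᶠ s in atTop, mt s = m ∧ kt s = k ∧ et s = ε
  hP0 : P 0 = 0
  hT : ∀ s, T s = min (2 ^ kap (L s) (n s)) (⌊xx (L s) (mt s) (kt s) (P s)⌋₊ + 1)
  hF1 : ∀ s, elm (L s) (n s) < F s
  hF2 : ∀ s, F s ≤ elm (L s) (n s) + L (s + 1)
  hF3 : ∀ s, L (s + 1) ∣ P s + T s * elp (L s) (n s) + T s * elm (L s) (n s) + F s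
  hn : ∀ s, n (s + 1) = F s / UU (L (s + 1))
  hP : ∀ s, P (s + 1) = P s + T s * elp (L s) (n s) + T s * elm (L s) (n s) + F s +
    2 ^ kap (L (s + 1)) (n (s + 1)) * ell (L (s + 1)) (n (s + 1))

theorem exists_data : Nonempty Data := by
  obtain ⟨L, hL1, hLm, hLd, hLs⟩ := exists_L
  obtain ⟨mt, kt, et, ht, htf⟩ := exists_target L hLd
  let T : ℕ → ℕ × ℕ → ℕ := fun s z => min (2 ^ kap (L s) z.2) (⌊xx (L s) (mt s) (kt s) z.1⌋₊ + 1)
  let P1 : ℕ → ℕ × ℕ → ℕ := fun s z => z.1 + T s z * elp (L s) z.2 + T s z * elm (L s) z.2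
  let F : ℕ → ℕ × ℕ → ℕ := fun s z =>
    elm (L s) z.2 + (L (s + 1) - (P1 s z + elm (L s) z.2) % L (s + 1))
  let st : ℕ → ℕ × ℕ := fun s => Nat.rec (0, 0) (fun s z =>
    (P1 s z + F s z + 2 ^ kap (L (s + 1)) (F s z / UU (L (s + 1))) *
      ell (L (s + 1)) (F s z / UU (L (s + 1))), F s z / UU (L (s + 1)))) s
  refine ⟨⟨L, mt, kt, et, fun s => (st s).1, fun s => (st s).2, fun s => T s (st s),
    fun s => F s (st s), hL1, hLm, hLd, hLs, ht, htf, rfl, fun s => rfl, fun s => ?_,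
    fun s => ?_, fun s => ?_, fun s => rfl, fun s => rfl⟩⟩
  · have := Nat.mod_lt (P1 s (st s) + elm (L s) (st s).2) (hL1 (s + 1))
    simp only [F]
    omega
  · simp only [F]
    omega
  · show L (s + 1) ∣ P1 s (st s) + F s (st s)
    have h1 := Nat.mod_lt (P1 s (st s) + elm (L s) (st s).2) (hL1 (s + 1))
    have h2 := Nat.div_add_mod (P1 s (st s) + elm (L s) (st s).2) (L (s + 1))
    refine ⟨(P1 s (st s) + elm (L s) (st s).2) / L (s + 1) + 1, ?_⟩
    simp only [F]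
    rw [mul_add, mul_one]
    omega

theorem UU_pos {L : ℕ} (h : 1 ≤ L) : 1 ≤ UU L := Nat.mul_pos (Nat.two_pow_pos L) h

theorem le_UU (L : ℕ) : L ≤ UU L := Nat.le_mul_of_pos_left _ (Nat.two_pow_pos L)

theorem UU_mono {L L' : ℕ} (h : L ≤ L') : UU L ≤ UU L' :=
  Nat.mul_le_mul (Nat.pow_le_pow_right (by norm_num) h) h

theorem dvd_UU (L : ℕ) : L ∣ UU L := Dvd.intro_left _ rfl

theorem kap_lt {L : ℕ} (h : 1 ≤ L) (n : ℕ) : kap L n < ell L n := by
  have h1 : 2 ^ L * (L - 2) ≤ UU L := Nat.mul_le_mul_left _ (Nat.sub_le _ _)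
  have h2 := UU_pos h
  unfold kap ell
  nlinarith [Nat.mul_le_mul_left n h1]

namespace Data
variable (D : Data)

/-- main length at stage `s` -/
def l (s : ℕ) : ℕ := ell (D.L s) (D.n s)
/-- first tilted length -/
def lp (s : ℕ) : ℕ := elp (D.L s) (D.n s)
/-- second tilted length -/
def lm (s : ℕ) : ℕ := elm (D.L s) (D.n s)
/-- exponent -/
def ka (s : ℕ) : ℕ := kap (D.L s) (D.n s)

theorem l_lt_lp (s : ℕ) : D.l s < D.lp s := by
  have := UU_pos (D.hL1 s)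
  unfold l lp ell elp
  nlinarith

theorem lp_lt_lm (s : ℕ) : D.lp s < D.lm s := by
  have := UU_pos (D.hL1 s)
  unfold lp lm elp elm
  nlinarith

theorem lm_lt_F (s : ℕ) : D.lm s < D.F s := D.hF1 s

theorem F_lt_l (s : ℕ) : D.F s < D.l (s + 1) := by
  unfold l ell
  rw [D.hn]
  exact Nat.lt_mul_div_succ _ (UU_pos (D.hL1 _))

theorem l_le (s : ℕ) : D.l (s + 1) ≤ D.l s + 4 * UU (D.L (s + 1)) ^ 2 := by
  have h1 : D.l (s + 1) ≤ D.F s + UU (D.L (s + 1)) := by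
    unfold l ell
    rw [D.hn, mul_add, mul_one]
    exact Nat.add_le_add_right (Nat.mul_div_le _ _) _
  have h2 := D.hF2 s
  have h3 : UU (D.L s) ≤ UU (D.L (s + 1)) := UU_mono (D.hLm (Nat.le_succ s))
  have h4 := le_UU (D.L (s + 1))
  have h5 := UU_pos (D.hL1 (s + 1))
  have h6 : elm (D.L s) (D.n s) = D.l s + UU (D.L s) + UU (D.L s) ^ 2 := by
    unfold l elm ell; ring
  have h7 : UU (D.L s) ^ 2 ≤ UU (D.L (s + 1)) ^ 2 := Nat.pow_le_pow_left h3 2
  nlinarith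

theorem l_step (s : ℕ) : D.l s + 4 ≤ D.l (s + 1) := by
  have := D.l_lt_lp s
  have := D.lp_lt_lm s
  have := D.lm_lt_F s
  have := D.F_lt_l s
  omega

theorem l_strictMono : StrictMono D.l :=
  strictMono_nat_of_lt_succ fun s => by have := D.l_step s; omega

theorem succ_le_l (s : ℕ) : s + 1 ≤ D.l s := by
  induction s with
  | zero => have := UU_pos (D.hL1 0); unfold l ell; nlinarith
  | succ s ih => have := D.l_step s; omega

theorem T_pos (s : ℕ) : 0 < D.T s := by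
  rw [D.hT]; exact lt_min (Nat.two_pow_pos _) (Nat.succ_pos _)

theorem T_le (s : ℕ) : D.T s ≤ 2 ^ D.ka s := by
  rw [D.hT]; exact min_le_left _ _

theorem hP' (s : ℕ) : D.P (s + 1) = D.P s + D.T s * D.lp s + D.T s * D.lm s + D.F s +
    2 ^ D.ka (s + 1) * D.l (s + 1) := D.hP s

theorem ka_lt (s : ℕ) : D.ka s < D.l s := kap_lt (D.hL1 s) _

theorem P_lower (s : ℕ) : 2 ^ D.ka (s + 1) ≤ D.P (s + 1) := by
  rw [D.hP']
  have := D.succ_le_l (s + 1)
  exact (Nat.le_mul_of_pos_right _ (by omega)).trans (Nat.le_add_left _ _)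

theorem P_strictMono : StrictMono D.P := strictMono_nat_of_lt_succ fun s => by
  rw [D.hP']
  have := D.lm_lt_F s
  omega

theorem P_upper (s : ℕ) : D.P s ≤ D.l s * 2 ^ D.l s := by
  induction s with
  | zero => rw [D.hP0]; exact Nat.zero_le _
  | succ s ih =>
    rw [D.hP']
    have a1 := D.l_lt_lp s
    have a2 := D.lp_lt_lm s
    have a3 := D.lm_lt_F s
    have a4 := D.F_lt_l s
    have b1 : D.T s ≤ 2 ^ D.l s :=
      (D.T_le s).trans (Nat.pow_le_pow_right (by norm_num) (D.ka_lt s).le)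
    obtain ⟨t, ht⟩ := Nat.exists_eq_add_of_le (D.l_step s)
    have b2 : 2 ^ D.ka (s + 1) * 2 ≤ 2 ^ D.l (s + 1) := by
      rw [← pow_succ]; exact Nat.pow_le_pow_right (by norm_num) (D.ka_lt _)
    have b3 : 2 ^ D.l s * 16 ≤ 2 ^ D.l (s + 1) := by
      rw [show 16 = 2 ^ 4 by norm_num, ← pow_add]
      exact Nat.pow_le_pow_right (by norm_num) (D.l_step s)
    have b4 := Nat.two_pow_pos (D.l s)
    have c1 : D.P s ≤ 2 ^ D.l s * D.l (s + 1) := by nlinarith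
    have c2 : D.T s * D.lp s ≤ 2 ^ D.l s * D.l (s + 1) := Nat.mul_le_mul b1 (by omega)
    have c3 : D.T s * D.lm s ≤ 2 ^ D.l s * D.l (s + 1) := Nat.mul_le_mul b1 (by omega)
    have c4 : D.F s ≤ 2 ^ D.l s * D.l (s + 1) := by nlinarith
    nlinarith

theorem ka_large (θ : ℝ) (h0 : 0 < θ) (h1 : θ < 1) :
    ∀ᶠ s in atTop, θ * D.l (s + 1) ≤ D.ka s := by
  obtain ⟨K, hK⟩ := exists_nat_ge (7 / (1 - θ))
  have hK7 : (7 : ℝ) ≤ K := by
    refine le_trans ?_ hK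
    rw [le_div_iff₀ (by linarith)]; nlinarith
  have hK1 : 1 ≤ K := by exact_mod_cast (show (1 : ℝ) ≤ K by linarith)
  filter_upwards [D.hLd K hK1, (tendsto_add_atTop_nat 1).eventually D.hLs] with s hs1 hs2
  have hKL : K ≤ D.L s := Nat.le_of_dvd (D.hL1 s) hs1
  have hKL' : (K : ℝ) ≤ D.L s := by exact_mod_cast hKL
  have hL2 : 2 ≤ D.L s := by exact_mod_cast (show (2 : ℝ) ≤ D.L s by linarith)
  have e1 : D.L s * D.ka s + (UU (D.L s) * D.L s + 2 * D.l s) =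
      D.l s * D.L s + 2 * UU (D.L s) := by
    obtain ⟨t, ht⟩ := Nat.exists_eq_add_of_le hL2
    unfold ka l kap ell UU
    rw [ht, Nat.add_sub_cancel_left]
    ring
  have e1' : (D.L s : ℝ) * D.ka s + (UU (D.L s) * D.L s + 2 * D.l s) =
      D.l s * D.L s + 2 * UU (D.L s) := by exact_mod_cast e1
  set w : ℝ := (UU (D.L (s + 1)) : ℝ) with hw
  have a1 : (UU (D.L s) : ℝ) ≤ w := by
    rw [hw]; exact_mod_cast UU_mono (D.hLm (Nat.le_succ s))
  have a2 : (D.L s : ℝ) ≤ UU (D.L s) := by exact_mod_cast le_UU _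
  have a3 : w ^ 3 ≤ D.l s := by
    rw [hw]; exact_mod_cast hs2.trans (D.succ_le_l s)
  have a4 : (D.l (s + 1) : ℝ) ≤ D.l s + 4 * w ^ 2 := by
    rw [hw]; exact_mod_cast D.l_le s
  have hKw : (K : ℝ) ≤ w := by linarith
  have hKpos : (0 : ℝ) < K := by linarith
  set l : ℝ := (D.l s : ℝ)
  set u : ℝ := (UU (D.L s) : ℝ)
  set L : ℝ := (D.L s : ℝ)
  have b1 : K * w ^ 2 ≤ l := by nlinarith [sq_nonneg w]
  have b2 : K * u ≤ l := by nlinarith
  have b3 : 7 ≤ K * (1 - θ) := by rwa [div_le_iff₀ (by linarith)] at hK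
  have hLpos : 0 < L := by linarith
  have hl : 0 ≤ l := by positivity
  -- `ka ≥ l - u - 2 l / L`
  have c1 : K * (l - u) - 2 * l ≤ K * D.ka s := by
    have : L * (K * (l - u) - 2 * l) ≤ L * (K * D.ka s) := by
      have hu : 0 ≤ u := by linarith
      nlinarith [mul_le_mul_of_nonneg_right hKL' hl]
    exact le_of_mul_le_mul_left this hLpos
  have c2 : K * (θ * D.l (s + 1)) ≤ K * θ * l + 4 * l := by
    have : θ * (K * w ^ 2) ≤ l := by nlinarith [mul_nonneg hKpos.le (sq_nonneg w)]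
    nlinarith [mul_le_mul_of_nonneg_left a4 (mul_pos hKpos h0).le]
  have c3 : K * (θ * D.l (s + 1)) ≤ K * D.ka s := by nlinarith
  exact le_of_mul_le_mul_left c3 hKpos

/-- the basic size comparison -/
theorem sizes (A : ℝ) : ∀ᶠ s in atTop, ∃ w : ℝ, 1 ≤ w ∧ A * (D.l (s + 1) : ℝ) ^ 2 ≤ w ∧
    w ^ 3 ≤ 2 ^ D.ka s ∧ √(2 ^ D.l s) ≤ w ^ 2 := by
  have ht : Tendsto (fun s => D.l (s + 1) / 4 + 1) atTop atTop := by
    refine tendsto_atTop_mono (fun s => Nat.le_succ _) ?_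
    exact (Nat.tendsto_div_const_atTop (by norm_num)).comp
      (D.l_strictMono.tendsto_atTop.comp (tendsto_add_atTop_nat 1))
  filter_upwards [ht.eventually (poly_le_exp (|A| * 16)), D.ka_large (7 / 8) (by norm_num)
    (by norm_num), eventually_ge_atTop 30] with s h1 h2 h3
  set j := D.l (s + 1) / 4 + 1 with hj
  have hy : D.l (s + 1) ≤ 4 * j := by omega
  have hy' : (D.l (s + 1) : ℝ) ≤ 4 * j := by exact_mod_cast hy
  refine ⟨2 ^ j, one_le_pow₀ (by norm_num), le_trans ?_ h1, ?_, ?_⟩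
  · calc A * (D.l (s + 1) : ℝ) ^ 2 ≤ |A| * (4 * j) ^ 2 := by
          gcongr
          exact le_abs_self A
      _ = |A| * 16 * (j : ℝ) ^ 2 := by ring
  · rw [← pow_mul]
    refine pow_le_pow_right₀ (by norm_num) ?_
    have h4 := D.succ_le_l (s + 1)
    have h5 : 7 * D.l (s + 1) ≤ 8 * D.ka s := by
      have : (7 : ℝ) * D.l (s + 1) ≤ 8 * D.ka s := by linarith
      exact_mod_cast this
    omega
  · rw [Real.sqrt_le_iff]
    refine ⟨by positivity, ?_⟩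
    rw [← pow_mul, ← pow_mul]
    refine pow_le_pow_right₀ (by norm_num) ?_
    have := D.l_step s
    omega

end Data

end Pool.Agent.H923Z.CE
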