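import Mathlib

set_option autoImplicit false

open Filter Topology Set

namespace Pool.Agent.H923Z.GP

/-- counting function -/
noncomputable def cnt (A : Set ℕ) (N : ℕ) : ℕ := (A ∩ Icc 1 N).ncard

/-- `A` has natural density `d` -/
def HasDen (A : Set ℕ) (d : ℝ) : Prop :=
  Tendsto (fun N : ℕ => (cnt A N : ℝ) / (N : ℝ)) atTop (𝓝 d)

theorem fin_inter (A : Set ℕ) (N : ℕ) : (A ∩ Icc 1 N).Finite := (finite_Icc 1 N).inter_of_right _

theorem cnt_union {A B : Set ℕ} (h : Disjoint A B) (N : ℕ) :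
    cnt (A ∪ B) N = cnt A N + cnt B N := by
  unfold cnt
  rw [union_inter_distrib_right, ncard_union_eq (h.mono inter_subset_left inter_subset_left)
    (fin_inter _ _) (fin_inter _ _)]

theorem cnt_union_le (A B : Set ℕ) (N : ℕ) : cnt (A ∪ B) N ≤ cnt A N + cnt B N := by
  unfold cnt
  rw [union_inter_distrib_right]
  exact ncard_union_le _ _

theorem cnt_mono {A B : Set ℕ} (h : ∀ n, 1 ≤ n → n ∈ A → n ∈ B) (N : ℕ) : cnt A N ≤ cnt B N :=
  ncard_le_ncard (fun n hn => ⟨h n hn.2.1 hn.1, hn.2⟩) (fin_inter _ _)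

theorem cnt_univ (N : ℕ) : cnt univ N = N := by
  unfold cnt
  rw [univ_inter, ← Finset.coe_Icc, ncard_coe_finset]
  simp

theorem HasDen.union {A B : Set ℕ} {a b : ℝ} (ha : HasDen A a) (hb : HasDen B b)
    (h : Disjoint A B) : HasDen (A ∪ B) (a + b) := by
  unfold HasDen
  simp only [cnt_union h, Nat.cast_add, add_div]
  exact ha.add hb

theorem HasDen.diff {A B : Set ℕ} {a b : ℝ} (ha : HasDen A a) (hb : HasDen B b)
    (h : B ⊆ A) : HasDen (A \ B) (a - b) := by
  have : ∀ N, (cnt (A \ B) N : ℝ) = cnt A N - cnt B N := by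
    intro N
    have := cnt_union (disjoint_sdiff_left (s := B) (t := A)) N
    rw [sdiff_union_of_subset h] at this
    rw [this]; push_cast; ring
  unfold HasDen
  simp only [this, sub_div]
  exact ha.sub hb

theorem hasDen_empty : HasDen ∅ 0 := by
  unfold HasDen cnt
  simp

theorem HasDen.biUnion {ι : Type} (F : Finset ι) (A : ι → Set ℕ) (a : ι → ℝ)
    (ha : ∀ i ∈ F, HasDen (A i) (a i))
    (hd : ∀ i ∈ F, ∀ j ∈ F, i ≠ j → Disjoint (A i) (A j)) :
    HasDen (⋃ i ∈ F, A i) (∑ i ∈ F, a i) := by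
  classical
  induction F using Finset.induction_on with
  | empty => simpa using hasDen_empty
  | insert i F hi ih =>
    rw [Finset.set_biUnion_insert, Finset.sum_insert hi]
    refine (ha i (Finset.mem_insert_self _ _)).union
      (ih (fun j hj => ha j (Finset.mem_insert_of_mem hj)) fun j hj k hk =>
        hd j (Finset.mem_insert_of_mem hj) k (Finset.mem_insert_of_mem hk)) ?_
    simp only [disjoint_iUnion_right]
    intro j hj
    exact hd i (Finset.mem_insert_self _ _) j (Finset.mem_insert_of_mem hj)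
      (fun h => hi (h ▸ hj))

theorem HasDen.scale {T : Set ℕ} {τ : ℝ} (h : HasDen T τ) {s : ℕ} (hs : 0 < s) :
    HasDen ((fun t => s * t) '' T) (τ / s) := by
  have h1 : ∀ N, cnt ((fun t => s * t) '' T) N = cnt T (N / s) := by
    intro N
    unfold cnt
    rw [← ncard_image_of_injective (T ∩ Icc 1 (N / s)) (mul_right_injective₀ hs.ne')]
    congr 1
    ext n
    constructor
    · rintro ⟨⟨t, ht, rfl⟩, h1, h2⟩
      refine ⟨t, ⟨ht, ?_, ?_⟩, rfl⟩
      · exact Nat.pos_of_mul_pos_left h1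
      · rw [Nat.le_div_iff_mul_le hs, mul_comm]; exact h2
    · rintro ⟨t, ⟨ht, h1, h2⟩, rfl⟩
      refine ⟨⟨t, ht, rfl⟩, Nat.mul_pos hs h1, ?_⟩
      rw [Nat.le_div_iff_mul_le hs, mul_comm] at h2; exact h2
  have h2 : Tendsto (fun N : ℕ => N / s) atTop atTop := Nat.tendsto_div_const_atTop hs.ne'
  have hs' : (0 : ℝ) < s := by exact_mod_cast hs
  have h3 : Tendsto (fun N : ℕ => ((N / s : ℕ) : ℝ) / N) atTop (𝓝 (1 / s)) := by
    have hl : Tendsto (fun N : ℕ => (1 : ℝ) / s - 1 / N) atTop (𝓝 (1 / s)) := by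
      simpa using (tendsto_const_nhds (x := (1 : ℝ) / s)).sub tendsto_one_div_atTop_nhds_zero_nat
    refine tendsto_of_tendsto_of_tendsto_of_le_of_le' hl tendsto_const_nhds ?_ ?_
    · filter_upwards [eventually_gt_atTop 0] with N hN
      have hN' : (0 : ℝ) < N := by exact_mod_cast hN
      have : (N : ℝ) < s * ((N / s : ℕ) + 1) := by exact_mod_cast Nat.lt_mul_div_succ N hs
      rw [le_div_iff₀ hN', sub_mul, one_div_mul_cancel hN'.ne', sub_le_iff_le_add, div_mul_eq_mul_div,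
        div_le_iff₀ hs']
      linarith
    · filter_upwards [eventually_gt_atTop 0] with N hN
      have hN' : (0 : ℝ) < N := by exact_mod_cast hN
      rw [div_le_iff₀ hN', div_mul_eq_mul_div, one_mul]
      exact Nat.cast_div_le
  have h4 := (Tendsto.comp h h2).mul h3
  rw [mul_one_div] at h4
  refine h4.congr' ?_
  filter_upwards [h2.eventually_gt_atTop 0] with N hN
  have : ((N / s : ℕ) : ℝ) ≠ 0 := by exact_mod_cast hN.ne'
  simp only [Function.comp, h1]
  field_simp

theorem hasDen_periodic (P : ℕ → Prop) (M : ℕ) (hM : 0 < M) (hP : Function.Periodic P M) :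
    ∃ d, HasDen {n | P n} d := by
  classical
  have h0 : ∀ N, cnt {n | P n} N = ((Finset.Ico 1 (N + 1)).filter P).card := by
    intro N
    unfold cnt
    rw [← ncard_coe_finset]
    congr 1
    ext n
    simp only [mem_inter_iff, mem_ofPred_eq, mem_Icc, Finset.coe_filter, Finset.mem_Ico]
    constructor
    · rintro ⟨h1, h2, h3⟩; exact ⟨⟨h2, by omega⟩, h1⟩
    · rintro ⟨⟨h2, h3⟩, h1⟩; exact ⟨h1, h2, by omega⟩
  have h1 : ∀ N, cnt {n | P n} (N + M) = cnt {n | P n} N + M.count P := by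
    intro N
    rw [h0, h0, ← Nat.filter_Ico_card_eq_of_periodic (N + 1) M P hP,
      ← Finset.card_union_of_disjoint (Finset.disjoint_filter_filter
        (Finset.Ico_disjoint_Ico_consecutive _ _ _)), ← Finset.filter_union,
      Finset.Ico_union_Ico_eq_Ico (by omega) (by omega)]
    congr 3
    omega
  have h2 : ∀ k r, cnt {n | P n} (r + k * M) = cnt {n | P n} r + k * M.count P := by
    intro k r
    induction k with
    | zero => simp
    | succ k ih => rw [Nat.succ_mul, ← add_assoc, h1, ih]; ring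
  have h3 : ∀ r, cnt {n | P n} r ≤ r := fun r =>
    (cnt_mono (B := univ) (fun _ _ _ => mem_univ _) r).trans_eq (cnt_univ r)
  have hc : M.count P ≤ M := Nat.count_le P
  have hM' : (0 : ℝ) < M := by exact_mod_cast hM
  refine ⟨(M.count P : ℝ) / M, ?_⟩
  have hb : ∀ N : ℕ, |(cnt {n | P n} N : ℝ) - (M.count P : ℝ) / M * N| ≤ M := by
    intro N
    have e := h2 (N / M) (N % M)
    rw [Nat.mod_add_div'] at e
    have e' : (cnt {n | P n} N : ℝ) = cnt {n | P n} (N % M) + (N / M : ℕ) * (M.count P : ℝ) := by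
      exact_mod_cast e
    have e2 : (N : ℝ) = (N % M : ℕ) + (N / M : ℕ) * (M : ℝ) := by
      exact_mod_cast (Nat.mod_add_div' N M).symm
    have a1 : (cnt {n | P n} (N % M) : ℝ) ≤ (N % M : ℕ) := by exact_mod_cast h3 _
    have a2 : ((N % M : ℕ) : ℝ) ≤ M := by exact_mod_cast (Nat.mod_lt N hM).le
    have a3 : (M.count P : ℝ) / M ≤ 1 := by
      rw [div_le_one hM']; exact_mod_cast hc
    have a4 : (0 : ℝ) ≤ (M.count P : ℝ) / M := by positivity
    have a5 : (M.count P : ℝ) / M * N = (M.count P : ℝ) / M * (N % M : ℕ) +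
        (N / M : ℕ) * (M.count P : ℝ) := by
      conv_lhs => rw [e2]
      field_simp
    have a6 : (0 : ℝ) ≤ (N % M : ℕ) := by positivity
    have a7 : (0 : ℝ) ≤ cnt {n | P n} (N % M) := by positivity
    rw [e', a5, abs_le]
    constructor <;> nlinarith
  rw [HasDen, tendsto_iff_dist_tendsto_zero]
  have hl : Tendsto (fun N : ℕ => (M : ℝ) / N) atTop (𝓝 0) := tendsto_const_div_atTop_nhds_zero_nat _
  refine squeeze_zero' (Eventually.of_forall fun _ => dist_nonneg) ?_ hl
  filter_upwards [eventually_gt_atTop 0] with N hN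
  have hN' : (0 : ℝ) < N := by exact_mod_cast hN
  rw [Real.dist_eq, le_div_iff₀ hN']
  calc _ = |((cnt {n | P n} N : ℝ) / N - (M.count P : ℝ) / M) * N| := by
        rw [abs_mul, abs_of_pos hN']
    _ = |(cnt {n | P n} N : ℝ) - (M.count P : ℝ) / M * N| := by
        congr 1; field_simp
    _ ≤ M := hb N

/-- numbers with a large square divisor -/
def Bad (K : ℕ) : Set ℕ := {n | ∃ m, K < m ∧ m ^ 2 ∣ n}

theorem cnt_bad (K N : ℕ) (hK : 0 < K) : (cnt (Bad K) N : ℝ) ≤ N / K := by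
  classical
  have h1 : Bad K ∩ Icc 1 N ⊆
      ((Finset.Ioo K (N + 1)).biUnion fun m => (Finset.Ioc 0 N).filter (m ^ 2 ∣ ·) : Finset ℕ) := by
    rintro n ⟨⟨m, hm, hd⟩, h1, h2⟩
    simp only [Finset.coe_biUnion, Finset.coe_Ioo, mem_Ioo, Finset.coe_filter, Finset.mem_Ioc,
      mem_iUnion, mem_ofPred_eq]
    refine ⟨m, ⟨hm, ?_⟩, ⟨h1, h2⟩, hd⟩
    have := Nat.le_of_dvd h1 hd
    nlinarith
  have h2 : cnt (Bad K) N ≤ ∑ m ∈ Finset.Ioo K (N + 1), N / m ^ 2 := by
    refine (ncard_le_ncard h1 (Finset.finite_toSet _)).trans ?_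
    rw [ncard_coe_finset]
    refine Finset.card_biUnion_le.trans (le_of_eq (Finset.sum_congr rfl fun m _ => ?_))
    exact Nat.Ioc_filter_dvd_card_eq_div N _
  have h3 : (cnt (Bad K) N : ℝ) ≤ ∑ m ∈ Finset.Ioc K N, (N : ℝ) * ((m : ℝ) ^ 2)⁻¹ := by
    have : Finset.Ioo K (N + 1) = Finset.Ioc K N := by
      ext m; simp only [Finset.mem_Ioo, Finset.mem_Ioc]; omega
    rw [this] at h2
    refine (Nat.cast_le.2 h2).trans ?_
    push_cast
    refine Finset.sum_le_sum fun m _ => ?_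
    refine Nat.cast_div_le.trans (le_of_eq ?_)
    push_cast
    rw [div_eq_mul_inv]
  refine h3.trans ?_
  rw [← Finset.mul_sum, div_eq_mul_inv]
  refine mul_le_mul_of_nonneg_left ?_ (by positivity)
  rcases Nat.lt_or_ge N K with h | h
  · rw [Finset.Ioc_eq_empty (by omega)]; simp
  · exact (sum_Ioc_inv_sq_le_sub hK.ne' h).trans (sub_le_self _ (by positivity))

theorem exists_den_of_approx (T : Set ℕ)
    (h : ∀ K0, ∃ K, K0 < K ∧ ∃ (U : Set ℕ) (d : ℝ), HasDen U d ∧
      ∀ n, 1 ≤ n → n ∉ Bad K → (n ∈ T ↔ n ∈ U)) : ∃ τ, HasDen T τ := by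
  refine cauchySeq_tendsto_of_complete (Metric.cauchySeq_iff.2 fun ε hε => ?_)
  obtain ⟨K0, hK0⟩ := exists_nat_gt (4 / ε)
  obtain ⟨K, hK, U, d, hU, hTU⟩ := h K0
  have hK' : (4 / ε : ℝ) < K := hK0.trans (by exact_mod_cast hK)
  have hKp : (0 : ℝ) < K := (div_pos (by norm_num) hε).trans hK'
  have hKe : 1 / (K : ℝ) < ε / 4 := by
    rw [div_lt_iff₀ hε] at hK'
    rw [div_lt_iff₀ hKp]; linarith
  obtain ⟨N0, hN0⟩ := Metric.tendsto_atTop.1 hU (ε / 4) (by positivity)
  have key : ∀ N, max N0 1 ≤ N → dist ((cnt T N : ℝ) / N) d < ε / 2 := by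
    intro N hN
    have hN' : (0 : ℝ) < N := by exact_mod_cast (le_max_right _ _).trans hN
    have a1 := hN0 N ((le_max_left _ _).trans hN)
    have a2 : cnt T N ≤ cnt U N + cnt (Bad K) N :=
      (cnt_mono (fun n h1 hn => by
        by_cases hb : n ∈ Bad K
        · exact Or.inr hb
        · exact Or.inl ((hTU n h1 hb).1 hn)) N).trans (cnt_union_le _ _ N)
    have a3 : cnt U N ≤ cnt T N + cnt (Bad K) N :=
      (cnt_mono (fun n h1 hn => by
        by_cases hb : n ∈ Bad K
        · exact Or.inr hb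
        · exact Or.inl ((hTU n h1 hb).2 hn)) N).trans (cnt_union_le _ _ N)
    have a2' : (cnt T N : ℝ) ≤ cnt U N + cnt (Bad K) N := by exact_mod_cast a2
    have a3' : (cnt U N : ℝ) ≤ cnt T N + cnt (Bad K) N := by exact_mod_cast a3
    have a4 := cnt_bad K N (by exact_mod_cast hKp)
    have a5 : dist ((cnt T N : ℝ) / N) ((cnt U N : ℝ) / N) ≤ 1 / K := by
      rw [Real.dist_eq, ← sub_div, abs_div, abs_of_pos hN', div_le_iff₀ hN', abs_le,
        div_mul_eq_mul_div, one_mul]
      constructor <;> linarith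
    linarith [dist_triangle ((cnt T N : ℝ) / N) ((cnt U N : ℝ) / N) d]
  refine ⟨max N0 1, fun m hm n hn => ?_⟩
  linarith [dist_triangle_right ((cnt T m : ℝ) / m) ((cnt T n : ℝ) / n) d, key m hm, key n hn]

end Pool.Agent.H923Z.GP
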