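import Pool.Agent.H923Z.GPDen

set_option autoImplicit false

open Filter Topology Set

namespace Pool.Agent.H923Z.GP

/-- base three expansion without the digit two -/
def Ast (e : ℕ) : Prop := ∀ d ∈ Nat.digits 3 e, d ≤ 1

theorem ast_iff (e : ℕ) : Ast e ↔ e % 3 ≤ 1 ∧ Ast (e / 3) := by
  rcases Nat.eq_zero_or_pos e with rfl | h
  · simp [Ast]
  · unfold Ast
    rw [Nat.digits_def' (by norm_num) h]
    simp

theorem ast0 : Ast 0 := by simp [Ast]
theorem ast1 : Ast 1 := by rw [ast_iff]; exact ⟨by norm_num, ast0⟩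
theorem ast3 : Ast 3 := by rw [ast_iff]; exact ⟨by norm_num, ast1⟩
theorem ast4 : Ast 4 := by rw [ast_iff]; exact ⟨by norm_num, ast1⟩
theorem not_ast2 : ¬ Ast 2 := by rw [ast_iff]; norm_num

theorem ast_ap (b : ℕ) : ∀ a c, Ast a → Ast b → Ast c → a + c = 2 * b → a = c := by
  induction b using Nat.strong_induction_on with
  | _ b ih =>
    intro a c ha hb hc h
    rcases Nat.eq_zero_or_pos b with rfl | hb0
    · omega
    rw [ast_iff] at ha hb hc
    have := ih (b / 3) (by omega) (a / 3) (c / 3) ha.2 hb.2 hc.2 (by omega)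
    omega

theorem ast_end {x y : ℕ} (hx : Ast x) (hy : Ast y) (h : 2 + y = 2 * x) :
    (x = 1 ∧ y = 0) ∨ (x = 3 ∧ y = 4) := by
  rw [ast_iff] at hx hy
  obtain ⟨hx1, hx2⟩ := hx
  obtain ⟨hy1, hy2⟩ := hy
  by_cases h0 : y % 3 = 0
  · have := ast_ap (x / 3) 0 (y / 3) ast0 hx2 hy2 (by omega)
    omega
  · have := ast_ap (x / 3) 1 (y / 3) ast1 hx2 hy2 (by omega)
    omega

/-- Rankin's set -/
def G : Set ℕ := {n | 1 ≤ n ∧ ∀ p, Ast (n.factorization p)}

/-- prescribed exponents on `S`, good exponents elsewhere -/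
def C (S : Finset ℕ) (f : ℕ → ℕ) : Set ℕ :=
  {n | 1 ≤ n ∧ (∀ r ∈ S, n.factorization r = f r) ∧ ∀ r ∉ S, Ast (n.factorization r)}

theorem fact_prod {S : Finset ℕ} (hS : ∀ r ∈ S, r.Prime) (f : ℕ → ℕ) (r : ℕ) :
    (∏ p ∈ S, p ^ f p).factorization r = if r ∈ S then f r else 0 := by
  rw [Nat.factorization_prod fun p hp => pow_ne_zero _ (hS p hp).ne_zero,
    Finset.sum_congr rfl fun p hp => (hS p hp).factorization_pow, Finsupp.finsetSum_apply]
  simp [Finsupp.single_apply]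

theorem prod_pos {S : Finset ℕ} (hS : ∀ r ∈ S, r.Prime) (f : ℕ → ℕ) : 0 < ∏ p ∈ S, p ^ f p :=
  Finset.prod_pos fun p hp => pow_pos (hS p hp).pos _

theorem C_eq {S : Finset ℕ} (hS : ∀ r ∈ S, r.Prime) (f : ℕ → ℕ) :
    C S f = (fun t => (∏ p ∈ S, p ^ f p) * t) '' C S 0 := by
  have hpos := prod_pos hS f
  ext n
  constructor
  · rintro ⟨h1, h2, h3⟩
    have hd : (∏ p ∈ S, p ^ f p) ∣ n := by
      rw [← Nat.factorization_prime_le_iff_dvd hpos.ne' (by omega)]
      intro p _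
      rw [fact_prod hS]
      split_ifs with h
      · exact (h2 p h).ge
      · exact Nat.zero_le _
    obtain ⟨t, rfl⟩ := hd
    have ht : 0 < t := Nat.pos_of_mul_pos_left h1
    refine ⟨t, ⟨ht, fun r hr => ?_, fun r hr => ?_⟩, rfl⟩
    · have := h2 r hr
      rw [Nat.factorization_mul hpos.ne' ht.ne', Finsupp.add_apply, fact_prod hS, if_pos hr] at this
      simpa using this
    · have := h3 r hr
      rwa [Nat.factorization_mul hpos.ne' ht.ne', Finsupp.add_apply, fact_prod hS, if_neg hr,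
        zero_add] at this
  · rintro ⟨t, ⟨ht, h2, h3⟩, rfl⟩
    refine ⟨Nat.mul_pos hpos ht, fun r hr => ?_, fun r hr => ?_⟩
    · rw [Nat.factorization_mul hpos.ne' (by omega), Finsupp.add_apply, fact_prod hS, if_pos hr,
        h2 r hr]
      simp
    · rw [Nat.factorization_mul hpos.ne' (by omega), Finsupp.add_apply, fact_prod hS, if_neg hr,
        zero_add]
      exact h3 r hr

theorem not_bad_large {K n r : ℕ} (hb : n ∉ Bad K) (hr : K < r) : n.factorization r ≤ 1 := by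
  by_contra h
  exact hb ⟨r, hr, (pow_dvd_pow r (by omega)).trans (Nat.ordProj_dvd n r)⟩

theorem not_bad_small {K n r : ℕ} (hb : n ∉ Bad K) (hr : r.Prime) :
    n.factorization r < 2 * K := by
  by_contra h
  refine hb ⟨r ^ K, Nat.lt_two_pow_self.trans_le (Nat.pow_le_pow_left hr.two_le K), ?_⟩
  rw [← pow_mul]
  exact (pow_dvd_pow r (by omega)).trans (Nat.ordProj_dvd n r)

theorem exists_den_C (S : Finset ℕ) : ∃ τ, HasDen (C S 0) τ := by
  refine exists_den_of_approx _ fun K0 => ?_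
  obtain ⟨K, hK0, hKS⟩ : ∃ K, K0 < K ∧ ∀ r ∈ S, r ≤ K :=
    ⟨K0 + 1 + S.sup id, by omega, fun r hr =>
      (Finset.le_sup (f := id) hr).trans (Nat.le_add_left _ _)⟩
  have hM : 0 < K.factorial ^ (2 * K) := pow_pos (Nat.factorial_pos K) _
  obtain ⟨d, hd⟩ := hasDen_periodic (fun n => Nat.gcd n (K.factorial ^ (2 * K)) ∈ C S 0) _ hM
    (fun n => by simp only [Nat.gcd_add_self_left])
  refine ⟨K, hK0, _, d, hd, fun n hn hb => ?_⟩
  have key : ∀ r, (Nat.gcd n (K.factorial ^ (2 * K))).factorization r =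
      if r ≤ K then n.factorization r else 0 := by
    intro r
    rw [Nat.factorization_gcd (by omega) hM.ne', Finsupp.inf_apply, Nat.factorization_pow,
      Finsupp.smul_apply, smul_eq_mul]
    split_ifs with h
    · by_cases hr : r.Prime
      · have h1 := not_bad_small hb hr
        have h2 : 1 ≤ K.factorial.factorization r :=
          (hr.dvd_iff_one_le_factorization (Nat.factorial_ne_zero K)).1
            (Nat.dvd_factorial hr.pos h)
        exact min_eq_left (by nlinarith)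
      · simp [Nat.factorization_eq_zero_of_not_prime _ hr]
    · rw [Nat.factorization_factorial_eq_zero_of_lt (by omega)]
      simp
  simp only [C, mem_ofPred_eq, key]
  constructor
  · rintro ⟨-, h2, h3⟩
    refine ⟨Nat.gcd_pos_of_pos_left _ hn, fun r hr => ?_, fun r hr => ?_⟩
    · rw [if_pos (hKS r hr)]; exact h2 r hr
    · split_ifs
      · exact h3 r hr
      · exact ast0
  · rintro ⟨-, h2, h3⟩
    refine ⟨hn, fun r hr => ?_, fun r hr => ?_⟩
    · have := h2 r hr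
      rwa [if_pos (hKS r hr)] at this
    · by_cases h : r ≤ K
      · have := h3 r hr
        rwa [if_pos h] at this
      · have := not_bad_large hb (show K < r by omega)
        interval_cases n.factorization r
        exacts [ast0, ast1]

theorem hasDen_C {S : Finset ℕ} (hS : ∀ r ∈ S, r.Prime) {τ : ℝ} (h : HasDen (C S 0) τ)
    (f : ℕ → ℕ) : HasDen (C S f) (τ / (∏ p ∈ S, p ^ f p : ℕ)) := by
  rw [C_eq hS]
  exact h.scale (prod_pos hS f)

theorem den_C_pos {S : Finset ℕ} (hS : ∀ r ∈ S, r.Prime) (h2 : 2 ∈ S) {τ : ℝ}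
    (h : HasDen (C S 0) τ) : 0 < τ := by
  classical
  have h0 : 0 ≤ τ := ge_of_tendsto' h fun N => by positivity
  refine lt_of_le_of_ne h0 fun h1 => ?_
  subst h1
  let ext : (S → Fin 4) → ℕ → ℕ := fun g r => if h : r ∈ S then (g ⟨r, h⟩ : ℕ) else 0
  have hU := HasDen.biUnion (Finset.univ : Finset (S → Fin 4)) (fun g => C S (ext g))
    (fun _ => 0) (fun g _ => by simpa using hasDen_C hS h (ext g)) (fun g _ g' _ hne => by
      rw [Set.disjoint_left]
      rintro n ⟨-, a, -⟩ ⟨-, b, -⟩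
      apply hne
      funext r
      have := (a r r.2).symm.trans (b r r.2)
      simp only [ext, r.2, dif_pos] at this
      exact Fin.ext this)
  rw [Finset.sum_const_zero] at hU
  have hcov : ∀ n, 1 ≤ n → n ∈ (univ : Set ℕ) →
      n ∈ (⋃ g ∈ (Finset.univ : Finset (S → Fin 4)), C S (ext g)) ∪ Bad 2 := by
    intro n hn _
    by_cases hb : n ∈ Bad 2
    · exact Or.inr hb
    left
    refine mem_iUnion₂.2 ⟨fun r => ⟨n.factorization r, not_bad_small hb (hS r r.2)⟩,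
      Finset.mem_univ _, hn, fun r hr => by simp [ext, hr], fun r hr => ?_⟩
    by_cases hr' : r.Prime
    · have h3 : r ≠ 2 := fun h => hr (h ▸ h2)
      have := not_bad_large hb (show 2 < r by have := hr'.two_le; omega)
      interval_cases n.factorization r
      exacts [ast0, ast1]
    · rw [Nat.factorization_eq_zero_of_not_prime _ hr']; exact ast0
  have hlow : (1 / 2 : ℝ) ≤ 0 := by
    refine ge_of_tendsto hU ?_
    filter_upwards [eventually_gt_atTop 0] with N hN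
    have hN' : (0 : ℝ) < N := by exact_mod_cast hN
    have a1 := (cnt_mono hcov N).trans (cnt_union_le _ _ N)
    rw [cnt_univ] at a1
    have a2 := cnt_bad 2 N (by norm_num)
    have a3 : (N : ℝ) ≤ cnt (⋃ g ∈ (Finset.univ : Finset (S → Fin 4)), C S (ext g)) N +
        cnt (Bad 2) N := by exact_mod_cast a1
    rw [le_div_iff₀ hN']
    push_cast at a2
    linarith
  norm_num at hlow

/-- exponent vectors of removed numbers -/
def InX (Q : Finset ℕ) (x : ℕ → ℕ) : Prop :=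
  ((x 2 = 1 ∨ x 2 = 3 ∨ x 2 = 4) ∧ ∀ r ∈ Q, x r = 1) ∨
  ∃ q ∈ Q, (∀ r ∈ Q, r ≠ q → x r = 1) ∧
    ((x q = 4 ∧ (x 2 = 0 ∨ x 2 = 1 ∨ x 2 = 3 ∨ x 2 = 4)) ∨ (x q = 3 ∧ x 2 = 4))

/-- exponent vectors of kept numbers -/
def TG (Q : Finset ℕ) (x : ℕ → ℕ) : Prop := Ast (x 2) ∧ (∀ r ∈ Q, Ast (x r)) ∧ ¬ InX Q x

/-- exponent vectors of added numbers -/
def TZ (Q : Finset ℕ) (x : ℕ → ℕ) : Prop :=
  x 2 = 2 ∧ ∃ q ∈ Q, x q = 2 ∧ ∀ r ∈ Q, r ≠ q → x r = 1

theorem all_one {Q : Finset ℕ} {x : ℕ → ℕ} {q : ℕ} (h : ∀ r ∈ Q, r ≠ q → x r = 1)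
    (hq : x q = 1) : ∀ r ∈ Q, x r = 1 := fun r hr => by
  by_cases h' : r = q
  · rw [h', hq]
  · exact h r hr h'

theorem no_end {Q : Finset ℕ} {x y z : ℕ → ℕ} (h : ∀ r, x r + z r = 2 * y r) (hx : TZ Q x)
    (hy : TG Q y) (hz : TG Q z) : False := by
  obtain ⟨x2, q, hq, xq, xr⟩ := hx
  have hr : ∀ r ∈ Q, r ≠ q → y r = 1 ∧ z r = 1 := by
    intro r hr hne
    have h1 := xr r hr hne
    have h2 := ast_ap (y r) (x r) (z r) (h1 ▸ ast1) (hy.2.1 r hr) (hz.2.1 r hr) (h r)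
    have := h r
    omega
  have a := ast_end hy.1 hz.1 (by have := h 2; omega)
  have b := ast_end (hy.2.1 q hq) (hz.2.1 q hq) (by have := h q; omega)
  rcases b with ⟨b1, b2⟩ | ⟨b1, b2⟩
  · exact hy.2.2 (Or.inl ⟨by omega, all_one (fun r h1 h2 => (hr r h1 h2).1) b1⟩)
  · exact hz.2.2 (Or.inr ⟨q, hq, fun r h1 h2 => (hr r h1 h2).2, Or.inl ⟨b2, by omega⟩⟩)

theorem no_mid {Q : Finset ℕ} {x y z : ℕ → ℕ} (h : ∀ r, x r + z r = 2 * y r) (hx : TG Q x)
    (hy : TZ Q y) (hz : TG Q z) : False := by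
  obtain ⟨y2, q, hq, yq, yr⟩ := hy
  have hr : ∀ r ∈ Q, r ≠ q → x r = 1 ∧ z r = 1 := by
    intro r hr hne
    have h1 := yr r hr hne
    have h2 := ast_ap (y r) (x r) (z r) (hx.2.1 r hr) (h1 ▸ ast1) (hz.2.1 r hr) (h r)
    have := h r
    omega
  have hx1 := fun r h1 h2 => (hr r h1 h2).1
  have hz1 := fun r h1 h2 => (hr r h1 h2).2
  have a1 : x 2 ≠ 2 := fun e => not_ast2 (e ▸ hx.1)
  have a2 : x q ≠ 2 := fun e => not_ast2 (e ▸ hx.2.1 q hq)
  have e2 := h 2
  have eq := h q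
  have c : x q = 4 ∨ z q = 4 ∨ (x q = 3 ∧ z q = 1) ∨ (x q = 1 ∧ z q = 3) := by omega
  rcases c with c | c | ⟨c, c'⟩ | ⟨c, c'⟩
  · exact hx.2.2 (Or.inr ⟨q, hq, hx1, Or.inl ⟨c, by omega⟩⟩)
  · exact hz.2.2 (Or.inr ⟨q, hq, hz1, Or.inl ⟨c, by omega⟩⟩)
  · by_cases d : x 2 = 4
    · exact hx.2.2 (Or.inr ⟨q, hq, hx1, Or.inr ⟨c, d⟩⟩)
    · exact hz.2.2 (Or.inl ⟨by omega, all_one hz1 c'⟩)
  · by_cases d : z 2 = 4
    · exact hz.2.2 (Or.inr ⟨q, hq, hz1, Or.inr ⟨c', d⟩⟩)
    · exact hx.2.2 (Or.inl ⟨by omega, all_one hx1 c⟩)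

theorem TZ_vals {Q : Finset ℕ} {x : ℕ → ℕ} (hx : TZ Q x) : ∀ r ∈ Q, x r = 1 ∨ x r = 2 := by
  obtain ⟨-, q, -, xq, xr⟩ := hx
  intro r hr
  by_cases h : r = q
  · exact Or.inr (h ▸ xq)
  · exact Or.inl (xr r hr h)

theorem ap_trivial {Q : Finset ℕ} {x y z : ℕ → ℕ} (h : ∀ r, x r + z r = 2 * y r)
    (hx : TG Q x ∨ TZ Q x) (hy : TG Q y ∨ TZ Q y) (hz : TG Q z ∨ TZ Q z) :
    x 2 = z 2 ∧ ∀ r ∈ Q, x r = z r := by
  have e2 := h 2
  rcases hx with hx | hx <;> rcases hy with hy | hy <;> rcases hz with hz | hz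
  · exact ⟨ast_ap _ _ _ hx.1 hy.1 hz.1 e2, fun r hr =>
      ast_ap _ _ _ (hx.2.1 r hr) (hy.2.1 r hr) (hz.2.1 r hr) (h r)⟩
  · exact (no_end (fun r => by rw [add_comm]; exact h r) hz hy hx).elim
  · exact (no_mid h hx hy hz).elim
  · exact (not_ast2 ((show x 2 = 2 by have := hy.1; have := hz.1; omega) ▸ hx.1)).elim
  · exact (no_end h hx hy hz).elim
  · exact (not_ast2 ((show y 2 = 2 by have := hx.1; have := hz.1; omega) ▸ hy.1)).elim
  · exact (not_ast2 ((show z 2 = 2 by have := hx.1; have := hy.1; omega) ▸ hz.1)).elim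
  · refine ⟨hx.1.trans hz.1.symm, fun r hr => ?_⟩
    have := TZ_vals hx r hr
    have := TZ_vals hz r hr
    have := h r
    omega

/-- exponent pattern -/
def ff (a q b r : ℕ) : ℕ := if r = 2 then a else if r = q then b else 1

theorem sum_image_le' {ι κ : Type} [DecidableEq κ] (s : Finset ι) (g : ι → κ) (w : κ → ℝ)
    (hw : ∀ k, 0 ≤ w k) : ∑ k ∈ s.image g, w k ≤ ∑ i ∈ s, w (g i) := by
  classical
  induction s using Finset.induction_on with
  | empty => simp
  | insert i s hi ih =>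
    rw [Finset.image_insert, Finset.sum_insert hi]
    by_cases h : g i ∈ s.image g
    · rw [Finset.insert_eq_of_mem h]; linarith [hw (g i)]
    · rw [Finset.sum_insert h]; linarith

theorem prod_ff {Q : Finset ℕ} (h2 : 2 ∉ Q) {q : ℕ} (hq : q ∈ Q) (a b : ℕ) :
    (∏ p ∈ insert 2 Q, p ^ ff a q b p) * q = 2 ^ a * q ^ b * ∏ p ∈ Q, p := by
  have hq2 : q ≠ 2 := fun h => h2 (h ▸ hq)
  rw [Finset.prod_insert h2, ← Finset.mul_prod_erase Q _ hq, ← Finset.mul_prod_erase Q _ hq]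
  have : ∏ p ∈ Q.erase q, p ^ ff a q b p = ∏ p ∈ Q.erase q, p := by
    refine Finset.prod_congr rfl fun p hp => ?_
    have h1 : p ≠ q := Finset.ne_of_mem_erase hp
    have h3 : p ≠ 2 := fun h => h2 (h ▸ Finset.mem_of_mem_erase hp)
    simp [ff, h1, h3]
  rw [this]
  simp only [ff, if_true, hq2, if_false]
  ring

theorem exists_Q : ∃ Q : Finset ℕ, (∀ q ∈ Q, q.Prime ∧ 11 ≤ q) ∧ 6 < ∑ q ∈ Q, (1 : ℝ) / q := by
  classical
  by_contra hc
  push Not at hc
  refine not_summable_one_div_on_primes (summable_of_sum_le (c := 17) ?_ fun u => ?_)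
  · intro n
    exact Set.indicator_nonneg (fun _ _ => by positivity) n
  · have h1 := hc (u.filter fun q => q.Prime ∧ 11 ≤ q) fun q hq => (Finset.mem_filter.1 hq).2
    have h2 : ∀ n : ℕ, Set.indicator {p | p.Prime} (fun n : ℕ => (1 : ℝ) / n) n ≤
        (if n.Prime ∧ 11 ≤ n then (1 : ℝ) / n else 0) + (if n ∈ Finset.range 11 then 1 else 0) := by
      intro n
      by_cases hp : n.Prime
      · rw [Set.indicator_of_mem (show n ∈ {p | p.Prime} from hp)]
        by_cases h : 11 ≤ n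
        · simp [hp, h, not_lt.2 h]
        · have h3 : (1 : ℝ) ≤ n := by exact_mod_cast hp.pos
          have h4 : n < 11 := by omega
          simp only [h, and_false, if_false, Finset.mem_range, h4, if_true, zero_add]
          exact div_le_one_of_le₀ h3 (by positivity)
      · rw [Set.indicator_of_notMem (show n ∉ {p | p.Prime} from hp)]
        positivity
    refine (Finset.sum_le_sum fun n _ => h2 n).trans ?_
    rw [Finset.sum_add_distrib, ← Finset.sum_filter, ← Finset.sum_filter]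
    have h3 : ∑ n ∈ u.filter (· ∈ Finset.range 11), (1 : ℝ) ≤ 11 := by
      rw [Finset.sum_const, nsmul_eq_mul, mul_one]
      have : (u.filter (· ∈ Finset.range 11)).card ≤ (Finset.range 11).card :=
        Finset.card_le_card fun n hn => (Finset.mem_filter.1 hn).2
      rw [Finset.card_range] at this
      exact_mod_cast this
    linarith

theorem main (δ : ℝ) (hδ : HasDen G δ) : ∃ (A : Set ℕ) (d : ℝ), (∀ n ∈ A, 1 ≤ n) ∧
    (∀ a ∈ A, ∀ b ∈ A, ∀ c ∈ A, a < b → b < c → b ^ 2 ≠ a * c) ∧ HasDen A d ∧ δ < d := by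
  classical
  obtain ⟨Q, hQ, hsum⟩ := exists_Q
  have h2Q : 2 ∉ Q := fun h => by have := (hQ 2 h).2; omega
  have hne : Q.Nonempty := by
    rw [Finset.nonempty_iff_ne_empty]
    rintro rfl
    norm_num at hsum
  obtain ⟨q0, hq0⟩ := hne
  set S := insert 2 Q with hSdef
  have hS : ∀ r ∈ S, r.Prime := by
    intro r hr
    rcases Finset.mem_insert.1 hr with rfl | hr
    exacts [Nat.prime_two, (hQ r hr).1]
  have h2S : 2 ∈ S := Finset.mem_insert_self _ _
  have hQS : ∀ r ∈ Q, r ∈ S := fun r hr => Finset.mem_insert_of_mem hr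
  have hQ2 : ∀ r ∈ Q, r ≠ 2 := fun r hr h => h2Q (h ▸ hr)
  obtain ⟨τ, hτ⟩ := exists_den_C S
  have hτ0 := den_C_pos hS h2S hτ
  let w : (ℕ → ℕ) → ℝ := fun f => τ / (∏ p ∈ S, p ^ f p : ℕ)
  have hw0 : ∀ f, 0 ≤ w f := fun f => by positivity
  set P : ℝ := ((∏ p ∈ Q, p : ℕ) : ℝ) with hP
  have hPpos : 0 < P := by
    rw [hP]; exact_mod_cast Finset.prod_pos fun p hp => (hQ p hp).1.pos
  have hw : ∀ q ∈ Q, ∀ a b, w (ff a q b) = τ / P * (q / (2 ^ a * q ^ b)) := by
    intro q hq a b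
    have h1 : ((∏ p ∈ S, p ^ ff a q b p : ℕ) : ℝ) * q = 2 ^ a * q ^ b * P := by
      rw [hP]; exact_mod_cast prod_ff h2Q hq a b
    have h2 : (0 : ℝ) < q := by exact_mod_cast (hQ q hq).1.pos
    have h3 : ((∏ p ∈ S, p ^ ff a q b p : ℕ) : ℝ) = 2 ^ a * q ^ b * P / q := by
      rw [← h1]; field_simp
    simp only [w]
    rw [h3]
    field_simp
  let I1 : Finset ℕ := {1, 3, 4}
  let I2 : Finset (ℕ × ℕ) := {(0, 4), (1, 4), (3, 4), (4, 4), (4, 3)}
  let FX : Finset (ℕ → ℕ) := I1.image (fun a => ff a q0 1) ∪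
    (Q ×ˢ I2).image fun z => ff z.2.1 z.1 z.2.2
  have hFX : ∀ f ∈ FX, ∃ a q b, q ∈ Q ∧ f = ff a q b ∧ Ast a ∧ Ast b := by
    intro f hf
    rcases Finset.mem_union.1 hf with hf | hf
    · obtain ⟨a, ha, rfl⟩ := Finset.mem_image.1 hf
      refine ⟨a, q0, 1, hq0, rfl, ?_, ast1⟩
      simp only [I1, Finset.mem_insert, Finset.mem_singleton] at ha
      rcases ha with rfl | rfl | rfl
      exacts [ast1, ast3, ast4]
    · obtain ⟨⟨q, a, b⟩, hz, rfl⟩ := Finset.mem_image.1 hf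
      obtain ⟨hq, hab⟩ := Finset.mem_product.1 hz
      refine ⟨a, q, b, hq, rfl, ?_⟩
      simp only [I2, Finset.mem_insert, Finset.mem_singleton, Prod.mk.injEq] at hab
      rcases hab with ⟨rfl, rfl⟩ | ⟨rfl, rfl⟩ | ⟨rfl, rfl⟩ | ⟨rfl, rfl⟩ | ⟨rfl, rfl⟩
      exacts [⟨ast0, ast4⟩, ⟨ast1, ast4⟩, ⟨ast3, ast4⟩, ⟨ast4, ast4⟩, ⟨ast4, ast3⟩]
  have hX := HasDen.biUnion FX (C S) w (fun f _ => hasDen_C hS hτ f) (by
    intro f hf g hg hfg
    rw [Set.disjoint_left]
    rintro n ⟨-, a, -⟩ ⟨-, b, -⟩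
    apply hfg
    funext r
    by_cases hr : r ∈ S
    · exact (a r hr).symm.trans (b r hr)
    · obtain ⟨a1, q1, b1, hq1, rfl, -⟩ := hFX f hf
      obtain ⟨a2, q2, b2, hq2, rfl, -⟩ := hFX g hg
      have e1 : r ≠ 2 := fun h => hr (h ▸ h2S)
      have e2 : r ≠ q1 := fun h => hr (h ▸ hQS _ hq1)
      have e3 : r ≠ q2 := fun h => hr (h ▸ hQS _ hq2)
      simp [ff, e1, e2, e3])
  have hZ := HasDen.biUnion Q (fun q => C S (ff 2 q 2)) (fun q => w (ff 2 q 2))
    (fun q _ => hasDen_C hS hτ _) (by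
    intro q hq q' hq' hne
    rw [Set.disjoint_left]
    rintro n ⟨-, a, -⟩ ⟨-, b, -⟩
    have := (a q (hQS q hq)).symm.trans (b q (hQS q hq))
    simp [ff, hQ2 q hq, hne] at this)
  have hXG : (⋃ f ∈ FX, C S f) ⊆ G := by
    intro n hn
    obtain ⟨f, hf, h1, h2, h3⟩ := mem_iUnion₂.1 hn
    obtain ⟨a, q, b, -, rfl, ha, hb⟩ := hFX f hf
    refine ⟨h1, fun r => ?_⟩
    by_cases hr : r ∈ S
    · rw [h2 r hr]
      unfold ff
      split_ifs
      exacts [ha, hb, ast1]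
    · exact h3 r hr
  have hA := (hδ.diff hX hXG).union hZ (by
    rw [Set.disjoint_left]
    rintro n ⟨⟨-, h1⟩, -⟩ hn
    obtain ⟨q, -, -, h2, -⟩ := mem_iUnion₂.1 hn
    have := h1 2
    rw [h2 2 h2S] at this
    exact not_ast2 (by simpa [ff] using this))
  have htype : ∀ n ∈ (G \ ⋃ f ∈ FX, C S f) ∪ ⋃ q ∈ Q, C S (ff 2 q 2), 1 ≤ n ∧
      (∀ r ∉ S, Ast (n.factorization r)) ∧
      (TG Q n.factorization ∨ TZ Q n.factorization) := by
    rintro n (⟨⟨h1, h2⟩, h3⟩ | hn)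
    · refine ⟨h1, fun r _ => h2 r, Or.inl ⟨h2 2, fun r _ => h2 r, fun hin => h3 ?_⟩⟩
      have mk : ∀ q ∈ Q, (∀ r ∈ Q, r ≠ q → n.factorization r = 1) →
          n ∈ C S (ff (n.factorization 2) q (n.factorization q)) := by
        intro q _ hr
        refine ⟨h1, fun r hr' => ?_, fun r _ => h2 r⟩
        unfold ff
        split_ifs with c1 c2
        · rw [c1]
        · rw [c2]
        · exact hr r ((Finset.mem_insert.1 hr').resolve_left c1) c2
      rcases hin with ⟨ha, hr⟩ | ⟨q, hq, hr, hab⟩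
      · refine mem_iUnion₂.2 ⟨_, Finset.mem_union_left _ (Finset.mem_image.2
          ⟨n.factorization 2, by simpa [I1] using ha, rfl⟩), ?_⟩
        have := mk q0 hq0 fun r h _ => hr r h
        rwa [hr q0 hq0] at this
      · refine mem_iUnion₂.2 ⟨_, Finset.mem_union_right _ (Finset.mem_image.2
          ⟨(q, n.factorization 2, n.factorization q), Finset.mem_product.2 ⟨hq, ?_⟩, rfl⟩),
          mk q hq hr⟩
        simp only [I2, Finset.mem_insert, Finset.mem_singleton, Prod.mk.injEq]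
        omega
    · obtain ⟨q, hq, h1, h2, h3⟩ := mem_iUnion₂.1 hn
      refine ⟨h1, h3, Or.inr ⟨by simpa [ff] using h2 2 h2S, q, hq,
        by simpa [ff, hQ2 q hq] using h2 q (hQS q hq), fun r hr hne => ?_⟩⟩
      simpa [ff, hQ2 r hr, hne] using h2 r (hQS r hr)
  refine ⟨_, _, fun n hn => (htype n hn).1, ?_, hA, ?_⟩
  · intro a ha b hb c hc hab hbc h
    obtain ⟨a1, a2, a3⟩ := htype a ha
    obtain ⟨b1, b2, b3⟩ := htype b hb
    obtain ⟨c1, c2, c3⟩ := htype c hc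
    have hap : ∀ r, a.factorization r + c.factorization r = 2 * b.factorization r := by
      intro r
      have := congrArg (fun n => n.factorization r) h
      simp only [Nat.factorization_pow, Nat.factorization_mul (show a ≠ 0 by omega)
        (show c ≠ 0 by omega), Finsupp.smul_apply, smul_eq_mul, Finsupp.add_apply] at this
      omega
    obtain ⟨e1, e2⟩ := ap_trivial hap a3 b3 c3
    have : a = c := Nat.eq_of_factorization_eq (by omega) (by omega) fun r => by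
      by_cases hr : r ∈ S
      · rcases Finset.mem_insert.1 hr with rfl | hr
        exacts [e1, e2 r hr]
      · exact ast_ap _ _ _ (a2 r hr) (b2 r hr) (c2 r hr) (hap r)
    omega
  · have hτP : 0 < τ / P := div_pos hτ0 hPpos
    have b1 : ∑ f ∈ FX, w f ≤ ∑ a ∈ I1, w (ff a q0 1) +
        ∑ z ∈ Q ×ˢ I2, w (ff z.2.1 z.1 z.2.2) := by
      refine le_trans ?_ (add_le_add (sum_image_le' I1 (fun a => ff a q0 1) w hw0)
        (sum_image_le' (Q ×ˢ I2) (fun z => ff z.2.1 z.1 z.2.2) w hw0))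
      rw [← Finset.sum_union_inter]
      exact le_add_of_nonneg_right (Finset.sum_nonneg fun f _ => hw0 f)
    have b2 : ∑ a ∈ I1, w (ff a q0 1) = τ / P * (11 / 16) := by
      have h2 : (q0 : ℝ) ≠ 0 := by exact_mod_cast (hQ q0 hq0).1.ne_zero
      simp only [I1]
      rw [Finset.sum_insert (by decide), Finset.sum_insert (by decide), Finset.sum_singleton,
        hw _ hq0, hw _ hq0, hw _ hq0]
      field_simp
      norm_num
    have b3 : ∑ z ∈ Q ×ˢ I2, w (ff z.2.1 z.1 z.2.2) ≤ τ / P * ((1 / 8) * ∑ q ∈ Q, (1 : ℝ) / q) := by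
      rw [Finset.sum_product, Finset.mul_sum, Finset.mul_sum]
      refine Finset.sum_le_sum fun q hq => ?_
      have h11 : (11 : ℝ) ≤ q := by exact_mod_cast (hQ q hq).2
      simp only [I2]
      rw [Finset.sum_insert (by decide), Finset.sum_insert (by decide),
        Finset.sum_insert (by decide), Finset.sum_insert (by decide), Finset.sum_singleton]
      simp only [hw _ hq, ← mul_add]
      refine mul_le_mul_of_nonneg_left ?_ hτP.le
      have hq0 : (0 : ℝ) < q := by linarith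
      field_simp
      nlinarith
    have b4 : ∑ q ∈ Q, w (ff 2 q 2) = τ / P * ((1 / 4) * ∑ q ∈ Q, (1 : ℝ) / q) := by
      rw [Finset.mul_sum, Finset.mul_sum]
      refine Finset.sum_congr rfl fun q hq => ?_
      have h2 : (q : ℝ) ≠ 0 := by exact_mod_cast (hQ q hq).1.ne_zero
      rw [hw _ hq]
      field_simp
      norm_num
    rw [b4]
    nlinarith

end Pool.Agent.H923Z.GP
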