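import Mathlib

/-!
Elementary matrices over a ring of characteristic two, swaps of cylinders.
-/

set_option autoImplicit false

namespace Pool.Agent.H923Z.GR

open Matrix

variable {R : Type} [Ring R]

abbrev M (R : Type) : Type := Matrix (Fin 3) (Fin 3) R

/-- elementary matrix -/
def e {i j : Fin 3} (h : i ≠ j) (r : R) : (M R)ˣ where
  val := 1 + single i j r
  inv := 1 - single i j r
  val_inv := by
    rw [add_mul, one_mul, mul_sub, mul_one, single_mul_single_of_ne _ _ _ _ h.symm]
    abel
  inv_val := by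
    rw [sub_mul, one_mul, mul_add, mul_one, single_mul_single_of_ne _ _ _ _ h.symm]
    abel

theorem e_val {i j : Fin 3} (h : i ≠ j) (r : R) : (e h r : M R) = 1 + single i j r := rfl

theorem e_add {i j : Fin 3} (h : i ≠ j) (r s : R) : e h (r + s) = e h r * e h s := by
  apply Units.ext
  rw [Units.val_mul, e_val, e_val, e_val, single_add, add_mul, one_mul, mul_add, mul_one,
    single_mul_single_of_ne _ _ _ _ h.symm]
  abel

theorem e_zero {i j : Fin 3} (h : i ≠ j) : e h (0 : R) = 1 := by
  apply Units.ext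
  simp [e_val]

theorem e_comm {i j k l : Fin 3} (hij : i ≠ j) (hkl : k ≠ l) (h1 : j ≠ k) (h2 : l ≠ i)
    (r s : R) : e hij r * e hkl s = e hkl s * e hij r := by
  apply Units.ext
  simp only [Units.val_mul, e_val, add_mul, mul_add, one_mul, mul_one,
    single_mul_single_of_ne _ _ _ _ h1, single_mul_single_of_ne _ _ _ _ h2]
  abel

theorem single_mul_zero' (i j k l : Fin 3) (r s : R) (h : r * s = 0) :
    single i j r * single k l s = 0 := by
  by_cases hjk : j = k
  · subst hjk
    rw [single_mul_single_same, h, single_zero]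
  · exact single_mul_single_of_ne _ _ _ _ hjk _

theorem e_comm' {i j k l : Fin 3} (hij : i ≠ j) (hkl : k ≠ l) (r s : R) (h1 : r * s = 0)
    (h2 : s * r = 0) : e hij r * e hkl s = e hkl s * e hij r := by
  apply Units.ext
  simp only [Units.val_mul, e_val, add_mul, mul_add, one_mul, mul_one,
    single_mul_zero' _ _ _ _ _ _ h1, single_mul_zero' _ _ _ _ _ _ h2]
  abel

theorem e_heis {i j k : Fin 3} (hij : i ≠ j) (hjk : j ≠ k) (hik : i ≠ k) (r s : R) :
    e hij r * e hjk s = e hjk s * (e hij r * e hik (r * s)) := by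
  apply Units.ext
  simp only [Units.val_mul, e_val, add_mul, mul_add, one_mul, mul_one, single_mul_single_same,
    single_mul_single_of_ne _ _ _ _ hij.symm, single_mul_single_of_ne _ _ _ _ hik.symm, mul_zero]
  abel

theorem e_mem {i j k : Fin 3} (hij : i ≠ j) (hjk : j ≠ k) (hik : i ≠ k) (L : Subgroup (M R)ˣ)
    {r s : R} (hr : e hij r ∈ L) (hs : e hjk s ∈ L) : e hik (r * s) ∈ L := by
  have h := e_heis hij hjk hik r s
  have : e hik (r * s) = (e hij r)⁻¹ * ((e hjk s)⁻¹ * (e hij r * e hjk s)) := by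
    rw [h]; group
  rw [this]
  exact L.mul_mem (L.inv_mem hr) (L.mul_mem (L.inv_mem hs) (L.mul_mem hr hs))

/-- `g` moves the cylinder `(i, a, b)` to the cylinder `(j, a', b')`. -/
def Mv (g : (M R)ˣ) (i : Fin 3) (a b : R) (j : Fin 3) (a' b' : R) : Prop :=
  (∀ (k : Fin 3) (x : R), (g : M R) * single i k (a * x) = single j k (a' * x)) ∧
  (∀ (k : Fin 3) (y : R), single k i (y * b) * ((g⁻¹ : (M R)ˣ) : M R) = single k j (y * b'))

theorem Mv.comp {g h : (M R)ˣ} {i j k : Fin 3} {a b a' b' a'' b'' : R}
    (h1 : Mv g i a b j a' b') (h2 : Mv h j a' b' k a'' b'') : Mv (h * g) i a b k a'' b'' := by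
  constructor
  · intro l x
    rw [Units.val_mul, mul_assoc, h1.1, h2.1]
  · intro l y
    rw [_root_.mul_inv_rev, Units.val_mul, ← mul_assoc, h1.2, h2.2]

theorem Mv.refine {g : (M R)ˣ} {i j : Fin 3} {a b a' b' : R} (h : Mv g i a b j a' b') (c d : R) :
    Mv g i (a * c) (d * b) j (a' * c) (d * b') := by
  constructor
  · intro l x
    rw [mul_assoc, mul_assoc, h.1]
  · intro l y
    rw [← mul_assoc, ← mul_assoc, h.2]

theorem Mv.conj {g : (M R)ˣ} {i j i' j' : Fin 3} {a b a' b' c d c' d' : R}
    (h1 : Mv g i a b i' a' b') (h2 : Mv g j c d j' c' d') (hij : i ≠ j) (hij' : i' ≠ j') (r : R) :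
    g * e hij (a * r * d) * g⁻¹ = e hij' (a' * r * d') := by
  apply Units.ext
  rw [Units.val_mul, Units.val_mul, e_val, e_val, mul_add, mul_one, add_mul, mul_assoc a r d,
    h1.1, ← mul_assoc a' r d, h2.2, ← Units.val_mul, mul_inv_cancel, Units.val_one]

section swap

variable (h2 : ∀ x : R, x + x = 0)
include h2

theorem e_inv {i j : Fin 3} (h : i ≠ j) (r : R) : (e h r)⁻¹ = e h r := by
  rw [inv_eq_iff_mul_eq_one, ← e_add, h2, e_zero]

omit h2 in
/-- the swap of two cylinders -/
def sw {i j : Fin 3} (h : i ≠ j) (a b a' b' : R) : (M R)ˣ :=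
  e h (a * b') * e h.symm (a' * b) * e h (a * b')

theorem sw_inv {i j : Fin 3} (h : i ≠ j) (a b a' b' : R) :
    (sw h a b a' b')⁻¹ = sw h a b a' b' := by
  simp only [sw, _root_.mul_inv_rev, e_inv h2, mul_assoc]

theorem sing2 (i j : Fin 3) (x : R) : single i j x + single i j x = (0 : M R) := by
  rw [← single_add, h2, single_zero]

theorem sw_val {i j : Fin 3} (h : i ≠ j) {a b a' b' : R} (hb : b * a = 1) (hb' : b' * a' = 1) :
    (sw h a b a' b' : M R) = 1 + single i i (a * b) + single j j (a' * b') +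
      single i j (a * b') + single j i (a' * b) := by
  have e1 : a * b' * (a' * b) = a * b := by
    rw [mul_assoc, ← mul_assoc b', hb', one_mul]
  have e2 : a' * b * (a * b') = a' * b' := by
    rw [mul_assoc, ← mul_assoc b, hb, one_mul]
  have e3 : a * b * (a * b') = a * b' := by
    rw [mul_assoc, ← mul_assoc b, hb, one_mul]
  simp only [sw, Units.val_mul, e_val, add_mul, mul_add, one_mul, mul_one, single_mul_single_same,
    single_mul_single_of_ne _ _ _ _ h.symm, e1, e2, e3]
  have := sing2 h2 i j (a * b')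
  refine sub_eq_zero.mp (Eq.trans ?_ this)
  abel

theorem sw_mv {i j : Fin 3} (h : i ≠ j) {a b a' b' : R} (hb : b * a = 1) (hb' : b' * a' = 1) :
    Mv (sw h a b a' b') i a b j a' b' := by
  constructor
  · intro k x
    have e1 : ∀ u : R, u * b * (a * x) = u * x := fun u => by
      rw [mul_assoc, ← mul_assoc b, hb, one_mul]
    rw [sw_val h2 h hb hb']
    simp only [add_mul, one_mul, single_mul_single_same, single_mul_single_of_ne _ _ _ _ h.symm,
      e1, sing2 h2, add_zero, zero_add]
  · intro k y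
    have e1 : ∀ u : R, y * b * (a * u) = y * u := fun u => by
      rw [mul_assoc, ← mul_assoc b, hb, one_mul]
    rw [sw_inv h2, sw_val h2 h hb hb']
    simp only [mul_add, mul_one, single_mul_single_same, single_mul_single_of_ne _ _ _ _ h,
      e1, sing2 h2, add_zero, zero_add]

theorem sw_mv' {i j : Fin 3} (h : i ≠ j) {a b a' b' : R} (hb : b * a = 1) (hb' : b' * a' = 1) :
    Mv (sw h a b a' b') j a' b' i a b := by
  constructor
  · intro k x
    have e1 : ∀ u : R, u * b' * (a' * x) = u * x := fun u => by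
      rw [mul_assoc, ← mul_assoc b', hb', one_mul]
    rw [sw_val h2 h hb hb']
    simp only [add_mul, one_mul, single_mul_single_same, single_mul_single_of_ne _ _ _ _ h,
      e1, sing2 h2, add_zero, zero_add]
  · intro k y
    have e1 : ∀ u : R, y * b' * (a' * u) = y * u := fun u => by
      rw [mul_assoc, ← mul_assoc b', hb', one_mul]
    rw [sw_inv h2, sw_val h2 h hb hb']
    simp only [mul_add, mul_one, single_mul_single_same, single_mul_single_of_ne _ _ _ _ h.symm,
      e1, sing2 h2, add_zero, zero_add]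

omit h2 in
theorem single_mul_zero'' (i j k l : Fin 3) (r s : R) (h : k = j → r * s = 0) :
    single i j r * single k l s = 0 := by
  by_cases hjk : j = k
  · exact single_mul_zero' _ _ _ _ _ _ (h hjk.symm)
  · exact single_mul_single_of_ne _ _ _ _ hjk _

theorem sw_fix {i j : Fin 3} (h : i ≠ j) {a b a' b' : R} (hb : b * a = 1) (hb' : b' * a' = 1)
    (l : Fin 3) (c d : R) (h1 : l = i → b * c = 0 ∧ d * a = 0)
    (h1' : l = j → b' * c = 0 ∧ d * a' = 0) : Mv (sw h a b a' b') l c d l c d := by
  constructor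
  · intro k x
    have e1 : ∀ u : R, l = i → u * b * (c * x) = 0 := fun u hl => by
      rw [mul_assoc, ← mul_assoc b, (h1 hl).1, zero_mul, mul_zero]
    have e2 : ∀ u : R, l = j → u * b' * (c * x) = 0 := fun u hl => by
      rw [mul_assoc, ← mul_assoc b', (h1' hl).1, zero_mul, mul_zero]
    rw [sw_val h2 h hb hb']
    simp only [add_mul, one_mul, single_mul_zero'' _ _ _ _ _ _ (e1 _),
      single_mul_zero'' _ _ _ _ _ _ (e2 _), add_zero]
  · intro k y
    have e1 : ∀ u : R, i = l → y * d * (a * u) = 0 := fun u hl => by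
      rw [mul_assoc, ← mul_assoc d, (h1 hl.symm).2, zero_mul, mul_zero]
    have e2 : ∀ u : R, j = l → y * d * (a' * u) = 0 := fun u hl => by
      rw [mul_assoc, ← mul_assoc d, (h1' hl.symm).2, zero_mul, mul_zero]
    rw [sw_inv h2, sw_val h2 h hb hb']
    simp only [mul_add, mul_one, single_mul_zero'' _ _ _ _ _ _ (e1 _),
      single_mul_zero'' _ _ _ _ _ _ (e2 _), add_zero]

end swap

end Pool.Agent.H923Z.GR
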