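import Mathlib

set_option autoImplicit false

open Set Filter Topology MeasureTheory

namespace Pool.Agent.H923Z.Haar

section
variable {G : Type} [TopologicalSpace G] [AddCommGroup G] [IsTopologicalAddGroup G]

/-- A Borel maximal independent set for the graph `y ~ y'` iff `y - y' ∈ D`. -/
theorem exists_indep [SecondCountableTopology G] [T1Space G] [MeasurableSpace G] [BorelSpace G]
    (D : Set G) (hD : D.Finite) (h0 : (0 : G) ∉ D) (hsymm : ∀ t ∈ D, -t ∈ D) :
    ∃ S : Set G, MeasurableSet S ∧ (∀ y ∈ S, ∀ y' ∈ S, y - y' ∉ D) ∧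
      ∀ y, y ∈ S ∨ ∃ t ∈ D, y + t ∈ S := by
  have hW : Dᶜ ∈ 𝓝 (0 : G) := hD.isClosed.isOpen_compl.mem_nhds h0
  obtain ⟨V0, hV0, hV⟩ := exists_nhds_half_neg hW
  obtain ⟨V, hVV, hVo, hV1⟩ := mem_nhds_iff.1 hV0
  have : Nonempty G := ⟨0⟩
  obtain ⟨q, hq⟩ := TopologicalSpace.exists_dense_seq G
  let B : ℕ → Set G := fun i => {y | y - q i ∈ V}
  have hBo : ∀ i, IsOpen (B i) := fun i => hVo.preimage (continuous_id.sub continuous_const)
  have hBc : ∀ y, ∃ i, y ∈ B i := by
    intro y
    have ho : IsOpen {z | y - z ∈ V} := hVo.preimage (continuous_const.sub continuous_id)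
    obtain ⟨i, hi⟩ := hq.exists_mem_open ho ⟨y, by simpa using hV1⟩
    exact ⟨i, hi⟩
  have hBi : ∀ i, ∀ y ∈ B i, ∀ y' ∈ B i, y - y' ∉ D := by
    intro i y hy y' hy'
    have := hV _ (hVV hy) _ (hVV hy')
    simpa using this
  let U : ℕ → Set G := fun n => Nat.rec (∅ : Set G)
    (fun i Ui => Ui ∪ (B i \ ⋃ t ∈ D, {y | y + t ∈ Ui})) n
  have hU0 : U 0 = ∅ := rfl
  have hUs : ∀ i, U (i + 1) = U i ∪ (B i \ ⋃ t ∈ D, {y | y + t ∈ U i}) := fun i => rfl
  have hmono : Monotone U := monotone_nat_of_le_succ fun i => by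
    rw [hUs]; exact subset_union_left
  have hmeas : ∀ i, MeasurableSet (U i) := by
    intro i
    induction i with
    | zero => rw [hU0]; exact MeasurableSet.empty
    | succ i ih =>
      rw [hUs]
      refine ih.union ((hBo i).measurableSet.diff (MeasurableSet.biUnion hD.countable ?_))
      intro t _
      exact (continuous_id.add continuous_const).measurable ih
  have hind : ∀ i, ∀ y ∈ U i, ∀ y' ∈ U i, y - y' ∉ D := by
    intro i
    induction i with
    | zero => intro y hy; rw [hU0] at hy; exact absurd hy (notMem_empty y)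
    | succ i ih =>
      intro y hy y' hy' hd
      rw [hUs] at hy hy'
      rcases hy with hy | hy <;> rcases hy' with hy' | hy'
      · exact ih y hy y' hy' hd
      · refine hy'.2 (mem_biUnion hd ?_)
        simpa using hy
      · refine hy.2 (mem_biUnion (hsymm _ hd) ?_)
        simpa using hy'
      · exact hBi i y hy.1 y' hy'.1 hd
  refine ⟨⋃ i, U i, MeasurableSet.iUnion hmeas, ?_, ?_⟩
  · intro y hy y' hy'
    obtain ⟨i, hi⟩ := mem_iUnion.1 hy
    obtain ⟨j, hj⟩ := mem_iUnion.1 hy'
    exact hind (max i j) y (hmono (le_max_left i j) hi) y' (hmono (le_max_right i j) hj)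
  · intro y
    obtain ⟨i, hi⟩ := hBc y
    by_cases h : y ∈ ⋃ t ∈ D, {y | y + t ∈ U i}
    · right
      simp only [mem_iUnion] at h
      obtain ⟨t, ht, h⟩ := h
      exact ⟨t, ht, mem_iUnion.2 ⟨i, h⟩⟩
    · left
      exact mem_iUnion.2 ⟨i + 1, by rw [hUs]; exact Or.inr ⟨hi, h⟩⟩

/-- neighbourhoods of zero in an uncountable separable group are infinite -/
theorem nhds_infinite [SecondCountableTopology G] [Uncountable G] {V : Set G}
    (hV : V ∈ 𝓝 (0 : G)) : V.Infinite := by
  intro hfin
  obtain ⟨W, hWV, hWo, hW0⟩ := mem_nhds_iff.1 hV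
  have : Nonempty G := ⟨0⟩
  obtain ⟨q, hq⟩ := TopologicalSpace.exists_dense_seq G
  have hsub : (univ : Set G) ⊆ ⋃ i, (fun v => v + q i) '' V := by
    intro y _
    have ho : IsOpen {z | y - z ∈ W} := hWo.preimage (continuous_const.sub continuous_id)
    obtain ⟨i, hi⟩ := hq.exists_mem_open ho ⟨y, by simpa using hW0⟩
    exact mem_iUnion.2 ⟨i, y - q i, hWV hi, by simp⟩
  have : (univ : Set G).Countable :=
    (countable_iUnion fun i => (hfin.image _).countable).mono hsub
  exact Set.not_countable_univ this

end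

/-- size of the `k`-th block -/
abbrev nn (k : ℕ) : ℕ := 2 ^ (k + 1)

instance (k : ℕ) : NeZero (nn k) := ⟨by unfold nn; positivity⟩

/-- the `k`-th finite group -/
abbrev HH (k : ℕ) : Type := ZMod (nn k) × ZMod (nn k)

/-- the compact group -/
abbrev KK : Type := ∀ k, HH k

instance (k : ℕ) : IsTopologicalAddGroup (HH k) where
  continuous_add := continuous_of_discreteTopology
  continuous_neg := continuous_of_discreteTopology

section
variable {G : Type} [MetricSpace G] [AddCommGroup G] [IsTopologicalAddGroup G]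

theorem exists_step [SecondCountableTopology G] [Uncountable G] (k : ℕ) (P : Finset G) :
    ∃ e : ZMod (nn k) → G, Function.Injective e ∧
      ∀ p ∈ P, ∀ a b, dist p (p + (e a - e b)) ≤ (1 / 2) ^ k := by
  have hW : (⋂ p ∈ P, {t : G | dist p (p + t) < (1 / 2) ^ k}) ∈ 𝓝 (0 : G) := by
    rw [Filter.biInter_finset_mem]
    intro p _
    refine IsOpen.mem_nhds (isOpen_lt (by fun_prop) continuous_const) ?_
    simp
  obtain ⟨V, hV, hVV⟩ := exists_nhds_half_neg hW
  have hinf := nhds_infinite hV
  refine ⟨fun a => (hinf.natEmbedding V a.val : G), ?_, ?_⟩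
  · intro a b h
    have := (hinf.natEmbedding V).injective (Subtype.ext h)
    exact ZMod.val_injective _ this
  · intro p hp a b
    have := hVV _ (hinf.natEmbedding V a.val).2 _ (hinf.natEmbedding V b.val).2
    simp only [mem_iInter, mem_ofPred_eq] at this
    exact (this p hp).le

theorem exists_map [SecondCountableTopology G] [Uncountable G] [CompleteSpace G] :
    ∃ (e : ∀ k, ZMod (nn k) → G) (f : KK → G), (∀ k, Function.Injective (e k)) ∧ Continuous f ∧
      ∀ (x : KK) (k : ℕ) (h : HH k), f (x + Pi.single k h) =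
        f x - (e k (x k).1 - e k (x k).2) + (e k (x k + h).1 - e k (x k + h).2) := by
  classical
  choose E hE1 hE2 using fun (k : ℕ) (P : Finset G) => exists_step k P
  let P : ℕ → Finset G := fun n => Nat.rec ({0} : Finset G)
    (fun k Pk => (Pk ×ˢ (Finset.univ : Finset (HH k))).image
      fun z => z.1 + (E k Pk z.2.1 - E k Pk z.2.2)) n
  have hPs : ∀ k, P (k + 1) = (P k ×ˢ (Finset.univ : Finset (HH k))).image
      fun z => z.1 + (E k (P k) z.2.1 - E k (P k) z.2.2) := fun k => rfl
  let e : ∀ k, ZMod (nn k) → G := fun k => E k (P k)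
  let s : ℕ → KK → G := fun N x => ∑ j ∈ Finset.range N, (e j (x j).1 - e j (x j).2)
  have hss : ∀ N x, s (N + 1) x = s N x + (e N (x N).1 - e N (x N).2) := fun N x =>
    Finset.sum_range_succ _ _
  have hsP : ∀ N x, s N x ∈ P N := by
    intro N x
    induction N with
    | zero => exact Finset.mem_singleton.2 rfl
    | succ N ih =>
      rw [hss, hPs]
      exact Finset.mem_image.2 ⟨(s N x, x N), Finset.mem_product.2 ⟨ih, Finset.mem_univ _⟩, rfl⟩
  have hd : ∀ x N, dist (s N x) (s (N + 1) x) ≤ 1 * (1 / 2) ^ N := by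
    intro x N
    rw [hss, one_mul]
    exact hE2 N (P N) _ (hsP N x) _ _
  have hc : ∀ x, CauchySeq fun N => s N x := fun x =>
    cauchySeq_of_le_geometric (1 / 2) 1 (by norm_num) (hd x)
  choose f hf using fun x => cauchySeq_tendsto_of_complete (hc x)
  have hdf : ∀ x N, dist (s N x) (f x) ≤ 1 * (1 / 2) ^ N / (1 - 1 / 2) := fun x N =>
    dist_le_of_le_geometric_of_tendsto (1 / 2) 1 (by norm_num) (hd x) (hf x) N
  have hsc : ∀ N, Continuous (s N) := by
    intro N
    refine continuous_finsetSum _ fun j _ => ?_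
    have h1 : Continuous fun y : HH j => e j y.1 - e j y.2 := continuous_of_discreteTopology
    exact h1.comp (continuous_apply j)
  refine ⟨e, f, fun k => hE1 k (P k), ?_, ?_⟩
  · have hu : TendstoUniformly s f atTop := by
      rw [Metric.tendstoUniformly_iff]
      intro ε hε
      have ht : Tendsto (fun N : ℕ => (1 : ℝ) * (1 / 2) ^ N / (1 - 1 / 2)) atTop (𝓝 0) := by
        have := (tendsto_pow_atTop_nhds_zero_of_lt_one (r := (1 / 2 : ℝ)) (by norm_num)
          (by norm_num)).const_mul 1 |>.div_const (1 - 1 / 2)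
        simpa using this
      filter_upwards [ht.eventually (gt_mem_nhds hε)] with N hN x
      rw [dist_comm]
      exact (hdf x N).trans_lt hN
    exact hu.continuous (Eventually.of_forall hsc).frequently
  · intro x k h
    have h1 : Tendsto (fun N => s N x - (e k (x k).1 - e k (x k).2) +
        (e k (x k + h).1 - e k (x k + h).2)) atTop
        (𝓝 (f x - (e k (x k).1 - e k (x k).2) + (e k (x k + h).1 - e k (x k + h).2))) :=
      ((hf x).sub_const _).add_const _
    refine tendsto_nhds_unique (hf _) (h1.congr' ?_)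
    filter_upwards [eventually_gt_atTop k] with N hN
    have hk : k ∈ Finset.range N := Finset.mem_range.2 hN
    simp only [s]
    rw [← Finset.add_sum_erase _ _ hk, ← Finset.add_sum_erase _ _ hk]
    have : ∑ j ∈ (Finset.range N).erase k,
        (e j ((x + Pi.single k h : KK) j).1 - e j ((x + Pi.single k h : KK) j).2) =
        ∑ j ∈ (Finset.range N).erase k, (e j (x j).1 - e j (x j).2) := by
      refine Finset.sum_congr rfl fun j hj => ?_
      have hjk : j ≠ k := Finset.ne_of_mem_erase hj
      simp [Pi.single_eq_of_ne hjk]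
    rw [this]
    simp only [Pi.add_apply, Pi.single_eq_same]
    abel

end

theorem sum_inv_nn : ∑' k : ℕ, ((nn k : ENNReal))⁻¹ ≠ ⊤ := by
  have h : ∀ k : ℕ, ((nn k : ENNReal))⁻¹ ≤ (2⁻¹ : ENNReal) ^ k := by
    intro k
    rw [← ENNReal.inv_pow]
    apply ENNReal.inv_le_inv.2
    unfold nn
    push_cast
    exact pow_le_pow_right₀ (by norm_num) (Nat.le_succ k)
  refine ne_top_of_le_ne_top ?_ (ENNReal.tsum_le_tsum h)
  rw [ENNReal.tsum_geometric]
  simp

theorem main (G : Type) [TopologicalSpace G] [AddCommGroup G] [IsTopologicalAddGroup G]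
    [PolishSpace G] [MeasurableSpace G] [BorelSpace G] [Uncountable G] :
    ∃ N : Set G, MeasurableSet N ∧
      (∃ f : KK → G, Continuous f ∧ ∀ g : G, IsMeagre (f ⁻¹' ((fun x => x + g) ⁻¹' Nᶜ))) ∧
      ∃ μ : Measure G, IsProbabilityMeasure μ ∧ ∀ g : G, μ ((fun x => x + g) ⁻¹' N) = 0 := by
  classical
  let _ := TopologicalSpace.upgradeIsCompletelyMetrizable G
  obtain ⟨e, f, he, hf, hfs⟩ := exists_map (G := G)
  let D : ℕ → Set G := fun k => {t | t ≠ 0 ∧ ∃ a b, t = e k a - e k b}
  have hDf : ∀ k, (D k).Finite := by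
    intro k
    refine (Set.finite_range fun y : HH k => e k y.1 - e k y.2).subset ?_
    rintro t ⟨-, a, b, rfl⟩
    exact ⟨(a, b), rfl⟩
  have hD0 : ∀ k, (0 : G) ∉ D k := fun k h => h.1 rfl
  have hDs : ∀ k, ∀ t ∈ D k, -t ∈ D k := by
    rintro k t ⟨h0, a, b, rfl⟩
    exact ⟨neg_ne_zero.2 h0, b, a, by abel⟩
  choose S hSm hSi hSs using fun k => exists_indep (D k) (hDf k) (hD0 k) (hDs k)
  borelize KK
  have hfg : ∀ g : G, Measurable fun x => f x + g := fun g =>
    (hf.add continuous_const).measurable
  refine ⟨limsup S atTop, MeasurableSet.measurableSet_limsup hSm, ⟨f, hf, fun g => ?_⟩, ?_⟩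
  · let Z : ℕ → Set KK := fun n => ⋂ k, ⋂ (_ : n ≤ k), (fun x => f x + g) ⁻¹' (S k)ᶜ
    have hsub : f ⁻¹' ((fun x => x + g) ⁻¹' (limsup S atTop)ᶜ) ⊆ ⋃ n, Z n := by
      intro x hx
      simp only [mem_preimage, mem_compl_iff, mem_limsup_iff_frequently_mem, not_frequently,
        eventually_atTop] at hx
      obtain ⟨n, hn⟩ := hx
      refine mem_iUnion.2 ⟨n, ?_⟩
      simp only [Z, mem_iInter, mem_preimage, mem_compl_iff]
      exact hn
    refine IsMeagre.mono hsub (isMeagre_iUnion fun n => ?_)
    have hZm : MeasurableSet (Z n) :=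
      MeasurableSet.iInter fun k => MeasurableSet.iInter fun _ => hfg g (hSm k).compl
    obtain ⟨u, huo, hu⟩ := hZm.residualEq_isOpen
    rcases u.eq_empty_or_nonempty with rfl | hne
    · rw [IsMeagre]
      rw [Filter.eventuallyEq_set] at hu
      filter_upwards [hu] with x hx
      simpa using hx
    · exfalso
      rw [Filter.eventuallyEq_set] at hu
      have hR : ∀ᶠ x in residual KK, ∀ k, ∀ h : HH k,
          (x + Pi.single k h ∈ Z n ↔ x + Pi.single k h ∈ u) := by
        rw [eventually_countable_forall]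
        intro k
        rw [eventually_countable_forall]
        intro h
        exact (tendsto_residual_of_isOpenMap (continuous_id.add continuous_const)
          (isOpenMap_add_right (Pi.single k h : KK))).eventually hu
      obtain ⟨x, hxu, hx⟩ := (dense_of_mem_residual hR).inter_open_nonempty u huo hne
      obtain ⟨I, v, hv, hIu⟩ := isOpen_pi_iff.1 huo x hxu
      obtain ⟨k, hkn, hkI⟩ : ∃ k, n ≤ k ∧ k ∉ I := by
        obtain ⟨k, hk⟩ := (Set.Ici_infinite n).exists_notMem_finset I
        exact ⟨k, hk.1, hk.2⟩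
      have hall : ∀ h : HH k, f (x + Pi.single k h) + g ∉ S k := by
        intro h
        have h1 : x + Pi.single k h ∈ u := by
          apply hIu
          intro i hi
          have hik : i ≠ k := fun h => hkI (h ▸ hi)
          simp only [Pi.add_apply, Pi.single_eq_of_ne hik, add_zero]
          exact (hv i hi).2
        have h2 := (hx k h).2 h1
        simp only [Z, mem_iInter, mem_preimage, mem_compl_iff] at h2
        exact h2 k hkn
      have key : ∀ a b, f x - (e k (x k).1 - e k (x k).2) + g + (e k a - e k b) ∉ S k := by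
        intro a b
        have := hall ((a, b) - x k)
        rw [hfs] at this
        simp only [add_sub_cancel] at this
        have e1 : f x - (e k (x k).1 - e k (x k).2) + g + (e k a - e k b) =
            f x - (e k (x k).1 - e k (x k).2) + (e k a - e k b) + g := by abel
        rw [e1]
        exact this
      rcases hSs k (f x - (e k (x k).1 - e k (x k).2) + g) with h | ⟨t, ⟨-, a, b, rfl⟩, h⟩
      · exact key 0 0 (by simpa using h)
      · exact key a b h
  · let ν : Measure KK := Measure.addHaarMeasure ⊤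
    have hν1 : ν univ = 1 := by
      have := Measure.addHaarMeasure_self (K₀ := (⊤ : TopologicalSpace.PositiveCompacts KK))
      simpa using this
    have : IsProbabilityMeasure ν := ⟨hν1⟩
    refine ⟨ν.map f, Measure.isProbabilityMeasure_map hf.measurable.aemeasurable, fun g => ?_⟩
    have hadd : Measurable fun x : G => x + g := (continuous_id.add continuous_const).measurable
    rw [Measure.map_apply hf.measurable (hadd (MeasurableSet.measurableSet_limsup hSm))]
    let W : ℕ → Set KK := fun k => (fun x => f x + g) ⁻¹' S k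
    have hWm : ∀ k, MeasurableSet (W k) := fun k => hfg g (hSm k)
    have hW : ∀ k, ν (W k) ≤ ((nn k : ENNReal))⁻¹ := by
      intro k
      let T : ZMod (nn k) → Set KK := fun a => (fun x => x + Pi.single k ((a, 0) : HH k)) ⁻¹' W k
      have hTm : ∀ a, MeasurableSet (T a) := fun a =>
        (continuous_id.add continuous_const).measurable (hWm k)
      have hTv : ∀ a, ν (T a) = ν (W k) := fun a => measure_preimage_add_right ν _ _
      have hdisj : Pairwise (Function.onFun Disjoint T) := by
        intro a b hab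
        rw [Function.onFun, Set.disjoint_left]
        intro x hxa hxb
        simp only [T, W, mem_preimage, hfs] at hxa hxb
        refine hSi k _ hxa _ hxb ⟨?_, (x k).1 + a, (x k).1 + b, ?_⟩
        · intro h0
          apply hab
          have : e k ((x k).1 + a) = e k ((x k).1 + b) := by
            rw [← sub_eq_zero, ← h0]
            simp only [Prod.fst_add, Prod.snd_add, add_zero]
            abel
          exact add_left_cancel (he k this)
        · simp only [Prod.fst_add, Prod.snd_add, add_zero]
          abel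
      have h1 : ν (⋃ a, T a) = ∑' a, ν (T a) := measure_iUnion hdisj hTm
      rw [tsum_fintype] at h1
      simp only [hTv, Finset.sum_const, Finset.card_univ, ZMod.card, nsmul_eq_mul] at h1
      have h2 : (nn k : ENNReal) * ν (W k) ≤ 1 := h1 ▸ prob_le_one
      rw [ENNReal.le_inv_iff_mul_le, mul_comm]
      exact h2
    have hz : ν (limsup W atTop) = 0 :=
      measure_limsup_atTop_eq_zero (ne_top_of_le_ne_top sum_inv_nn (ENNReal.tsum_le_tsum hW))
    refine measure_mono_null ?_ hz
    intro x hx
    simp only [mem_preimage, mem_limsup_iff_frequently_mem] at hx ⊢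
    exact hx

end Pool.Agent.H923Z.Haar
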